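import Pool.Agent.MP_ed9623_an.H77.SpecX
import Pool.Agent.MP_ed9623_an.H64.Fin5b
import Pool.Agent.MP_ed9623_an.H64.Unique3

/-! Geometry of a circular outer boundary. -/

open MeasureTheory Filter Topology Set
open scoped ContDiff

namespace Pool.Agent.MP_ed9623_an.H77

open H64

namespace Near2

/-- Polar coordinates around `c`. -/
noncomputable def pol (c : P) (z : ℝ × ℝ) : P := (c.1 + z.1 * Real.cos z.2, c.2 + z.1 * Real.sin z.2)

theorem pol_cont (c : P) : Continuous (pol c) := by unfold pol; fun_prop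

theorem qc_pol (c : P) (z : ℝ × ℝ) : qc c (pol c z) = z.1 ^ 2 := by
  simp only [qc, pol]
  linear_combination z.1 ^ 2 * Real.cos_sq_add_sin_sq z.2

theorem exists_pol (c x : P) : ∃ z : ℝ × ℝ, 0 ≤ z.1 ∧ pol c z = x := by
  let w : ℂ := ⟨x.1 - c.1, x.2 - c.2⟩
  refine ⟨(‖w‖, Complex.arg w), norm_nonneg _, Prod.ext ?_ ?_⟩
  · simp only [pol]
    rw [Complex.norm_mul_cos_arg]
    simp [w]
  · simp only [pol]
    rw [Complex.norm_mul_sin_arg]
    simp [w]

theorem circle (c : P) (R : ℝ) : IsPreconnected {x | qc c x = R ^ 2} := by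
  have e : {x | qc c x = R ^ 2} = pol c '' ({|R|} ×ˢ univ) := by
    ext x
    constructor
    · intro hx
      obtain ⟨z, h0, rfl⟩ := exists_pol c x
      refine ⟨z, ⟨?_, trivial⟩, rfl⟩
      have h1 : z.1 ^ 2 = R ^ 2 := by rw [← qc_pol c z]; exact hx
      have h2 := sq_eq_sq_iff_abs_eq_abs z.1 R |>.1 h1
      rw [abs_of_nonneg h0] at h2
      exact h2
    · rintro ⟨z, ⟨h1, -⟩, rfl⟩
      show qc c (pol c z) = R ^ 2
      rw [qc_pol, show z.1 = |R| from h1, sq_abs]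
  rw [e]
  exact (isPreconnected_singleton.prod isPreconnected_univ).image _ (pol_cont c).continuousOn

theorem outer (c : P) (r : ℝ) : IsPreconnected {x | r ^ 2 < qc c x} := by
  have e : {x | r ^ 2 < qc c x} = pol c '' (Ioi |r| ×ˢ univ) := by
    ext x
    constructor
    · intro hx
      obtain ⟨z, h0, rfl⟩ := exists_pol c x
      refine ⟨z, ⟨?_, trivial⟩, rfl⟩
      have h1 : r ^ 2 < z.1 ^ 2 := by rw [← qc_pol c z]; exact hx
      have h2 := sq_lt_sq.1 h1
      rw [abs_of_nonneg h0] at h2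
      exact h2
    · rintro ⟨z, ⟨h1, -⟩, rfl⟩
      show r ^ 2 < qc c (pol c z)
      rw [qc_pol]
      have h2 : |r| < z.1 := h1
      exact sq_lt_sq.2 (h2.trans_le (le_abs_self _))
  rw [e]
  exact (isPreconnected_Ioi.prod isPreconnected_univ).image _ (pol_cont c).continuousOn

theorem qq_eq (c x : P) : qq c (0, x) = qc c x := by
  simp only [qq, H64.XX, H64.YY, qc]; ring

theorem grad_pos {ρ : P → ℝ} {x : P} (hd : fderiv ℝ ρ x ≠ 0) :
    0 < pd (1, 0) ρ x ^ 2 + pd (0, 1) ρ x ^ 2 := by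
  by_contra h
  have h1 : pd (1, 0) ρ x = 0 := by nlinarith [sq_nonneg (pd (1, 0) ρ x), sq_nonneg (pd (0, 1) ρ x)]
  have h2 : pd (0, 1) ρ x = 0 := by nlinarith [sq_nonneg (pd (1, 0) ρ x), sq_nonneg (pd (0, 1) ρ x)]
  apply hd
  refine ContinuousLinearMap.ext fun e => ?_
  have e1 : e = e.1 • ((1, 0) : P) + e.2 • ((0, 1) : P) := by
    refine Prod.ext ?_ ?_ <;> simp
  unfold pd at h1 h2
  rw [e1, map_add, map_smul, map_smul, h1, h2]
  simp

theorem curv_mul {c : P} {r W : ST → ℝ} {z : ST} {s : ℝ} (hW : ContDiffAt ℝ (2 : ℕ) W z) (hz : qq c z = s)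
    (e : r =ᶠ[𝓝 z] fun y => (qq c y - s) * W y) : curv r z = 8 * s * W z ^ 3 := by
  have p : ∀ e', pd e' r =ᶠ[𝓝 z] fun y => (2 * H64.XX c y * e'.2.1 + 2 * H64.YY c y * e'.2.2) * W y
      + (qq c y - s) * pd e' W y := fun e' => by
    filter_upwards [pd_congr e' e, cd_eventually hW] with y k1 k2
    have d := cd_diff k2 one_le_two
    rw [k1, (((HD_qq c e' y).sub (HD.const _ _ s)).mul (HD.of_diff d)).pd_eq
      (((cdg_diff (cd_qq c (1 : ℕ)) le_rfl y).sub_const s).mul d), sub_zero]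
  have d := cd_diff hW one_le_two
  have q : ∀ e e', pd e (pd e' r) z = (2 * e.2.1 * e'.2.1 + 2 * e.2.2 * e'.2.2) * W z
      + (2 * H64.XX c z * e'.2.1 + 2 * H64.YY c z * e'.2.2) * pd e W z
      + (2 * H64.XX c z * e.2.1 + 2 * H64.YY c z * e.2.2) * pd e' W z := fun e e' => by
    have d' := cd_diff (contDiffAt_pd (n := 1) e' hW) le_rfl
    rw [pd_congr_pt e (p e'), (((((((HD_XX c e z).cmul 2).mul (HD.const _ _ e'.2.1)).add
      (((HD_YY c e z).cmul 2).mul (HD.const _ _ e'.2.2))).mul (HD.of_diff d)).add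
      (((HD_qq c e z).sub (HD.const _ _ s)).mul (HD.of_diff d'))).pd_eq (((cdg_diff (n := 1)
        (by fun_prop) le_rfl z).mul d).add (((cdg_diff (cd_qq c (1 : ℕ)) le_rfl z).sub_const s).mul d'))),
      hz]
    ring
  rw [curv, q, q, q, (p _).eq_of_nhds, (p _).eq_of_nhds, hz, ← hz, qq]
  simp only [sub_self]
  ring

theorem near_circ {ρ : P → ℝ} {c : P} {R : ℝ} (hρ : ∀ k : ℕ, ContDiff ℝ k ρ) (h : Dom ρ) (R0 : 0 < R)
    (hi : ∀ x, ρ x < 0 → qq c (0, x) < R ^ 2) (hb : ∀ x, qq c (0, x) = R ^ 2 → ρ x = 0) {x₀ : PP}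
    (h0 : qq c (0, x₀) = R ^ 2) : 0 < curv2 ρ x₀ ∧ ∀ᶠ x in 𝓝 x₀, qq c (0, x) < R ^ 2 → ρ x < 0 := by
  have hr : ∀ k : ℕ, ContDiff ℝ k fun y : ST => ρ y.2 := fun k => (hρ k).comp contDiff_snd
  have c2 : ∀ k : ℕ, ContDiff ℝ k fun y => qq c y - R ^ 2 := fun k => by fun_prop
  obtain ⟨W, b1, b2⟩ := exists_div (n := 2) (z₀ := (0, x₀)) (c2 _).contDiffAt (hr _).contDiffAt
    (sub_eq_zero.2 h0) (fderiv_ne_of_curv (by
      rw [curv_mul (W := fun _ => 1) contDiffAt_const h0 (by simp)]; positivity))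
    (Eventually.of_forall fun y hy => hb _ (sub_eq_zero.1 hy))
  have b3 := (tend_sl (0, x₀)).eventually b2
  have W0 : 0 < W (0, x₀) := by
    refine lt_of_le_of_ne (not_lt.1 fun k => ?_) fun k => h.2.1 _ (hb _ h0) (fderiv_zero_of_pd fun e => ?_)
    · obtain ⟨x, k1, k2, k3⟩ := ((mem_closure_iff_frequently.1 (mem_closure_neg (hb _ h0)
        (h.2.1 _ (hb _ h0)))).and_eventually (b3.and ((tend_sl (0, x₀)).eventually
          (b1.continuousAt.eventually (gt_mem_nhds k))))).exists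
      exact (mul_pos_of_neg_of_neg (sub_neg.2 (hi x k1)) k3).not_gt (k2.symm.trans_lt k1)
    · rw [← pd_snd (z := (0, x₀)) (cdg_diff (hρ 1) le_rfl _) (0, e), grad_zero_of_van (c2 1).contDiffAt
        (cd_le b1 one_le_two) (sub_eq_zero.2 h0) (b2.mono fun y hy => by simpa using hy), ← k, mul_zero]
  refine ⟨by rw [← curv_snd (hρ 2) (0, x₀), curv_mul b1 h0 b2]; positivity, ?_⟩
  filter_upwards [b3, (tend_sl (0, x₀)).eventually (b1.continuousAt.eventually (lt_mem_nhds W0))]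
    with x k1 k2 k3
  exact k1.trans_lt (mul_neg_of_neg_of_pos (sub_neg.2 k3) k2)

end Near2

theorem rowNear2 : OfNear := by
  refine ⟨Near2.circle, Near2.outer, fun ρ c R hρ hd R0 hi hb => ⟨fun x hx => ?_, fun x hx => ?_⟩⟩
  · exact closure_minimal (fun y hy => (hi y hy).le)
      (isClosed_le (sm_qc c).continuous continuous_const) (mem_closure_neg hx (hd x hx))
  · have hk : ∀ k : ℕ, ContDiff ℝ k ρ := fun k => hρ.of_le (by exact_mod_cast le_top)
    have hD : Dom ρ := ⟨hk 1, hd, (isCompact_disc c R).isBounded.subset fun y hy => (hi y hy).le⟩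
    obtain ⟨n1, n2⟩ := Near2.near_circ (c := c) (R := R) hk hD R0
      (fun y hy => by rw [Near2.qq_eq]; exact hi y hy) (fun y hy => hb y (by rw [← Near2.qq_eq]; exact hy))
      (x₀ := x) (by rw [Near2.qq_eq]; exact hx)
    refine ⟨?_, n2.mono fun y hy k => hy (by rw [Near2.qq_eq]; exact k)⟩
    have g := Real.sqrt_pos.2 (Near2.grad_pos (hd x (hb x hx)))
    exact div_pos n1 (pow_pos g 3)

end Pool.Agent.MP_ed9623_an.H77
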