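import Pool.Agent.MP_ed9623_an.H77.SpecZ
import Pool.Agent.MP_ed9623_an.H64.Fin5a

/-! The final assembly. -/

open MeasureTheory Filter Topology Set
open scoped ContDiff InnerProductSpace

namespace Pool.Agent.MP_ed9623_an.H77

open H64

theorem m2_xt {Ω : Set P} (hΩ : MeasurableSet Ω) (f : L2 Ω) : M2 (xt Ω f) :=
  (memLp_indicator_iff_restrict hΩ).2 (Lp.memLp f)

theorem curl_iff {Ω O : Set P} (hΩ : MeasurableSet Ω) (g : Fin 2 → L2 Ω) :
    CurlAna Ω g O ↔ CurlF (fun j => xt Ω (g j)) O := by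
  refine exists_congr fun G => and_congr_right fun _ => forall_congr' fun θ =>
    forall_congr' fun hθ => Eq.congr_left ?_
  have a := fun j i => (m2_xt hΩ (g j)).int_mul (hθ.pd (ee i)).m2
  rw [← integral_indicator hΩ, ip, Fin.sum_univ_two]
  change _ = -((∫ x, xt Ω (g 0) x * -dd (fun _ => 0) 1 θ x) + ∫ x, xt Ω (g 1) x * dd (fun _ => 0) 0 θ x)
  simp only [dd_zero, mul_neg, integral_neg]
  rw [neg_add, neg_neg, ← sub_eq_add_neg, ← integral_sub (a 0 1) (a 1 0)]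
  refine integral_congr_ae (Eventually.of_forall fun x => ?_)
  by_cases hx : x ∈ Ω <;> simp [xt, hx]

theorem exists_convex {ρ : P → ℝ} (hρ : ContDiff ℝ ∞ ρ) (hreg : ∀ x, ρ x = 0 → fderiv ℝ ρ x ≠ 0)
    (hb : Bornology.IsBounded {x | ρ x < 0}) (hn : {x | ρ x < 0}.Nonempty) :
    ∃ x, ρ x = 0 ∧ 0 < curvature ρ x := by
  obtain ⟨y, hy⟩ := hn
  obtain ⟨x, h0, hk⟩ := convex_pt (contDiff_infty.1 hρ 2) ⟨contDiff_infty.1 hρ 1, hreg, hb⟩ hy
  refine ⟨x, h0, div_pos hk (pow_pos (Real.sqrt_pos.2 (not_le.1 fun a => ?_)) 3)⟩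
  have p : pd (1, 0) ρ x = 0 := by nlinarith [sq_nonneg (pd (1, 0) ρ x), sq_nonneg (pd (0, 1) ρ x)]
  have q : pd (0, 1) ρ x = 0 := by nlinarith [sq_nonneg (pd (1, 0) ρ x), sq_nonneg (pd (0, 1) ρ x)]
  simp [curv2, p, q] at hk

/-- The final statement. -/
def FinS : Prop := ∀ (ρ : P → ℝ), ContDiff ℝ ∞ ρ → (∀ x, ρ x = 0 → fderiv ℝ ρ x ≠ 0) →
  Bornology.IsBounded {x | ρ x < 0} → IsConnected {x | ρ x < 0} →
  ∀ g : Fin 2 → L2 {x | ρ x < 0}, ((∀ x₀, ρ x₀ = 0 → 0 < curvature ρ x₀ → BdAna ρ x₀ ∧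
    ∃ r > 0, CurlAna {x | ρ x < 0} g ({x | ρ x < 0} ∩ Metric.ball x₀ r)) →
      CurlAna {x | ρ x < 0} g {x | ρ x < 0}) →
  ∃ (N : ℕ) (Φ : Fin N → L2 {x | ρ x < 0} →L[ℝ] ℝ), ∀ u p v q, Traj {x | ρ x < 0} g u p →
    Traj {x | ρ x < 0} g v q → (∀ i, Tendsto (fun t => Φ i (p t) - Φ i (q t)) atTop (𝓝 0)) →
    Tendsto (fun t => ‖u t - v t‖) atTop (𝓝 0)

theorem fin (model : ModelS) (tr1 : Tr1S) (smooth : SmoothS) (tr2 : Tr2S) (af : AfS) (cvs : CvS)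
    (dec : DecS) (uniq : UniqS) : FinS := by
  intro ρ hρ hreg hb hc g H
  have o : IsOpen {x | ρ x < 0} := isOpen_lt hρ.continuous continuous_const
  have m := o.measurableSet
  obtain ⟨x, h0, hk, H'⟩ : ∃ x, ρ x = 0 ∧ 0 < curvature ρ x ∧ (BdAna ρ x → (∃ δ : ℝ, 0 < δ ∧
      CurlF (fun j => xt _ (g j)) ({x | ρ x < 0} ∩ Metric.ball x δ)) →
        CurlF (fun j => xt _ (g j)) {x | ρ x < 0}) := by
    by_contra n
    push Not at n
    obtain ⟨x, h0, hk⟩ := exists_convex hρ hreg hb hc.1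
    exact (n x h0 hk).2.2 ((curl_iff m g).1 (H fun y a b => ⟨(n y a b).1, by
      simpa only [curl_iff m g] using (n y a b).2.1⟩))
  have mg := fun j => m2_xt m (g j)
  obtain ⟨S, D, hM⟩ := model _ _ hb mg
  obtain ⟨N, Λ, hΛ⟩ := af S D hM.anti hM.cpt fun R U W hU hW e => by
    obtain ⟨R', hP⟩ := cvs _ _ S D R U W mg hM hU hW e
    have two : ∀ z : E6, (1 / 2 : ℝ) • z = 0 → z = 0 := fun z hz =>
      (smul_eq_zero.1 hz).resolve_left one_half_pos.ne'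
    rcases uniq ρ x _ R' _ _ hρ hc.2 h0 hk H' hP with ⟨t, ht, a⟩ | a
    · exact ⟨t, ht, Subtype.ext (sub_eq_zero.1 (two _ a))⟩
    · exact ⟨-1, by norm_num, dec hU hW fun t ht => Subtype.ext (two _ (a t ht))⟩
  obtain ⟨E, hE⟩ := exists_ext m
  have rz : ∀ i, ∃ ζ : YY {x | ρ x < 0}, ∀ y, ⟪y, ζ⟫_ℝ = Λ y i := fun i =>
    ⟨(InnerProductSpace.toDual ℝ _).symm (ContinuousLinearMap.proj i ∘L Λ), fun y => by
      rw [real_inner_comm, InnerProductSpace.toDual_symm_apply]; rfl⟩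
  choose ζ hζ using rz
  choose l hl using fun i => exists_int ((m2_gj (ζ i).1 0 0).add (m2_gj (ζ i).1 1 1))
  refine ⟨N, fun i => -(l i ∘L E.toContinuousLinearMap), fun u p v q hu hv hΦ => ?_⟩
  have key : ∀ u p, Traj {x | ρ x < 0} g u p → ∃ U, Sm S (Ioi 0) U ∧ ∀ t, 0 < t →
      (∀ j, S.ι (U t) j = E (u t j)) ∧ ∀ i, Λ (obs S D U t) i = -l i (E (p t)) := fun u p h => by
    obtain ⟨z, Z, a, b⟩ := tr1 _ g S D u p o hM h
    obtain ⟨U, c, d⟩ := smooth (itv_Ioi 0) a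
    have e : ∀ t, 0 < t → ∀ j, S.ι (U t) j =ᵐ[volume] xt _ (u t j) := fun t ht j => d t ht ▸ b t j
    refine ⟨U, c, fun t ht => ⟨fun j => Lp.ext ((e t ht j).trans (hE _).symm), fun i => ?_⟩⟩
    rw [← hζ, tr2 _ g S D u p U o hM h c e t ht, hl]
    exact congrArg _ (integral_congr_ae ((hE _).symm.mul EventuallyEq.rfl))
  obtain ⟨U, hU, a⟩ := key u p hu
  obtain ⟨W, hW, b⟩ := key v q hv
  refine squeeze_zero' (Eventually.of_forall fun _ => norm_nonneg _) ?_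
    (hΛ U W hU hW (tendsto_pi_nhds.2 fun i => (hΦ i).congr' ?_))
  · filter_upwards [eventually_gt_atTop 0] with t ht
    refine (pi_norm_le_iff_of_nonneg (norm_nonneg _)).2 fun j => ?_
    rw [← E.norm_map, Pi.sub_apply, map_sub, ← (a t ht).1, ← (b t ht).1, map_sub, ← PiLp.sub_apply]
    exact PiLp.norm_apply_le _ j
  · filter_upwards [eventually_gt_atTop 0] with t ht
    rw [map_sub, Pi.sub_apply, (a t ht).2, (b t ht).2]
    rfl

end Pool.Agent.MP_ed9623_an.H77
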