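import Pool.Agent.MP_ed9623_an.H77.Def3

/-! Statements: time analyticity, the boundary defect, the sign condition and the circle. -/

open MeasureTheory Filter Topology Set
open scoped ContDiff InnerProductSpace

namespace Pool.Agent.MP_ed9623_an.H77

open H64

/-- The equations of the time derivatives. -/
def EqNS : Prop := ∀ {H V : Type} [NormedAddCommGroup H] [InnerProductSpace ℝ H] [CompleteSpace H]
    [NormedAddCommGroup V] [InnerProductSpace ℝ V] [CompleteSpace V]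
    {S : St H V} {R : ℝ} {U : ℝ → V}, Bd S R univ U → ∀ (n : ℕ) (t : ℝ),
  adj S.ι (S.ι (iteratedDeriv (n + 1) U t)) = (if n = 0 then S.γ else 0)
    - S.A (iteratedDeriv n U t) - ∑ k ∈ Finset.range (n + 1),
      (n.choose k : ℝ) • S.B (iteratedDeriv k U t) (iteratedDeriv (n - k) U t)

/-- The weighted energy estimate. -/
def EnNS : Prop := ∀ {H V : Type} [NormedAddCommGroup H] [InnerProductSpace ℝ H] [CompleteSpace H]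
    [NormedAddCommGroup V] [InnerProductSpace ℝ V] [CompleteSpace V]
    (S : St H V) (R : ℝ), ∃ K : ℝ, 0 ≤ K ∧ ∀ (U : ℝ → V) (b : ℕ → ℝ) (n : ℕ), Bd S R univ U →
    1 ≤ b 0 → (∀ k, 0 ≤ b k) → (∀ k ≤ n, Bn S U k (b k)) → Bn S U (n + 1) (K * rc b n)

/-- A majorant for the recursion. -/
def MajS : Prop := ∀ K e : ℝ, 0 ≤ K → 1 ≤ e → ∃ (M : ℝ) (b : ℕ → ℝ), b 0 = e ∧
  (∀ k, 0 ≤ b k ∧ b k ≤ e * M ^ k * (k.factorial : ℝ)) ∧ ∀ n, K * rc b n ≤ b (n + 1)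

/-- The identity theorem under factorial bounds. -/
def TayS : Prop := ∀ {E : Type} [NormedAddCommGroup E] [NormedSpace ℝ E] [CompleteSpace E]
    (f : ℝ → E) (C M : ℝ), ContDiff ℝ ∞ f → (∀ n t, ‖iteratedDeriv n f t‖ ≤ C * M ^ n * (n.factorial : ℝ)) →
  ∀ I : Set ℝ, IsOpen I → I.Nonempty → (∀ t ∈ I, f t = 0) → ∀ t, f t = 0

/-- Unique continuation in time. -/
def TanS : Prop := ∀ {H V : Type} [NormedAddCommGroup H] [InnerProductSpace ℝ H] [CompleteSpace H]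
    [NormedAddCommGroup V] [InnerProductSpace ℝ V] [CompleteSpace V]
    {S : St H V} {R : ℝ} {U W : ℝ → V} (Z : Submodule ℝ H), IsClosed (Z : Set H) →
    Bd S R univ U → Bd S R univ W → ∀ I : Set ℝ, IsOpen I → I.Nonempty →
    (∀ t ∈ I, S.ι (U t + W t) ∈ Z) → ∀ t, S.ι (U t + W t) ∈ Z

/-- The curl in a chart. -/
def CrlS : Prop := ∀ (x τ : P) (γ : ℝ → ℝ), τ.1 ^ 2 + τ.2 ^ 2 = 1 → Gam γ →
  (∀ ζ : Fin 2 → P → ℝ, (∀ j, ContDiff ℝ ∞ (ζ j)) →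
    ∀ p, crl γ (tv x τ γ ζ) p = crl (fun _ => 0) ζ (Th x τ γ p)) ∧
  (∀ ζ, tv x τ γ (bv x τ γ ζ) = ζ) ∧
  ∀ (Ω : Set P) (r : ℝ) (f : P → ℝ), IsOpen Ω → Ch Ω x τ γ 0 r →
    (∀ q, q ∉ Thi x τ γ ⁻¹' Q r → f q = 0) → ∫ q in Ω, f q = ∫ p in Qp 0 r, f (Th x τ γ p)

/-- Test fields which vanish on the boundary are admissible. -/
def BdyS : Prop := ∀ (γ : ℝ → ℝ) (r : ℝ) (a w z : Fin 2 → P → ℝ) (da dw : Fin 2 → Fin 2 → P → ℝ),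
  Gam γ → 0 < r → VF γ a da → VF γ w dw → (∀ j, M2 (z j)) →
  (∀ j, Van (Q r \ Qp 0 r) (a j) ∧ Van (Q r \ Qp 0 r) (w j) ∧ Van (Q r \ Qp 0 r) (z j)) →
  (∀ ζ, (∀ j, Test (Qp 0 r) (ζ j)) → E1 γ a w dw z ζ) →
  ∀ ζ : Fin 2 → P → ℝ, (∀ j, Test (Q r) (ζ j) ∧ ∀ y, ζ j (y, 0) = 0) → E1 γ a w dw z ζ

/-- Linear functionals which kill gradients and fields vanishing on the boundary. -/
def DefLS : Prop := ∀ (γ : ℝ → ℝ) (r : ℝ), Gam γ → 0 < r → ∃ ζ₀ : Fin 2 → P → ℝ,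
  (∀ j, Test (Q r) (ζ₀ j)) ∧ ∫ p in Qp 0 r, crl γ ζ₀ p = 1 ∧ ∀ Λ : (Fin 2 → P → ℝ) → ℝ,
    (∀ ζ ξ (c : ℝ), (∀ j, Test (Q r) (ζ j)) → (∀ j, Test (Q r) (ξ j)) →
      Λ (fun j p => ζ j p + c * ξ j p) = Λ ζ + c * Λ ξ) →
    (∀ ζ : Fin 2 → P → ℝ, (∀ j, Test (Q r) (ζ j) ∧ ∀ y, ζ j (y, 0) = 0) → Λ ζ = 0) →
    (∀ h, Test (Q r) h → Λ (grad γ h) = 0) →
    ∀ ζ, (∀ j, Test (Q r) (ζ j)) → Λ ζ = Λ ζ₀ * ∫ p in Qp 0 r, crl γ ζ p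

/-- The defect in the domain of a boundary chart. -/
def DefPS : Prop := ∀ (Ω : Set P) (x τ : P) (γ : ℝ → ℝ) (r : ℝ), IsOpen Ω → Ch Ω x τ γ 0 r →
  ∃ ζ₀, Dfc Ω (Thi x τ γ ⁻¹' Q r) ζ₀

/-- Existence of a chart at every regular boundary point. -/
def Chart0S : Prop := ∀ (ρ : P → ℝ) (x : P), ContDiff ℝ ∞ ρ → ρ x = 0 → fderiv ℝ ρ x ≠ 0 →
  ∃ τ γ r, Ch {x | ρ x < 0} x τ γ 0 r ∧ ∀ p ∈ Q r, ρ (Th x τ γ p) = 0 ↔ p.2 = 0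

/-- The defect along a connected part of the boundary. -/
def GlobS : Prop := ∀ (ρ : P → ℝ) (O : Set P) (x : P), ContDiff ℝ ∞ ρ →
  (∀ x, ρ x = 0 → fderiv ℝ ρ x ≠ 0) → IsOpen O → IsPreconnected ({x | ρ x = 0} ∩ O) → ρ x = 0 →
  x ∈ O → ∃ ζ₀, Dfc {x | ρ x < 0} O ζ₀

/-- The boundary vorticity is smooth and bounded. -/
def CTS : Prop := ∀ (Ω : Set P) (g : Fin 2 → P → ℝ) (R : ℝ) (a w : ℝ → E6) (ζ : Fin 2 → P → ℝ),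
  Pv Ω g R a w → (∀ j, Test univ (ζ j)) →
  ContDiff ℝ ∞ (cT a w ζ) ∧ ∃ C : ℝ, ∀ t, |cT a w ζ t| ≤ C

/-- Balance of angular momentum. -/
def SpinS : Prop := ∀ (Ω : Set P) (g : Fin 2 → P → ℝ) (R c : ℝ) (a w : ℝ → E6)
    (ζ₀ : Fin 2 → P → ℝ), IsOpen Ω → Bornology.IsBounded Ω → Pv Ω g R a w → Dfc Ω univ ζ₀ →
  (∀ t, cT a w ζ₀ t = c) → c = 0

/-- A continuous function whose extension by zero has a square integrable gradient. -/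
def IdnS : Prop := ∀ (Ω : Set P) (x τ : P) (γ : ℝ → ℝ) (r ε : ℝ) (F : P → ℝ) (h : Fin 2 → P → ℝ),
  IsOpen Ω → Ch Ω x τ γ 0 r → 0 < ε → Continuous F → (∀ j, M2 (h j)) →
  (∀ ζ, (∀ j, Test (Metric.ball x ε) (ζ j)) →
    ∫ q in Ω, F q * crl (fun _ => 0) ζ q = ip h ζ) → F x = 0

/-- The defect is the boundary value of the vorticity. -/
def CidS : Prop := ∀ (ρ : P → ℝ) (x τ : P) (γ : ℝ → ℝ) (r t₀ ε ε' t c : ℝ) (w : ℝ → E6)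
    (W : Fin 2 → ST → ℝ) (z : Fin 2 → P → ℝ), Continuous ρ → Ch {x | ρ x < 0} x τ γ 0 r →
  w t ∈ VZ {x | ρ x < 0} → Rp ρ x t₀ ε w W → t ∈ Metric.ball t₀ ε → 0 < ε' → (∀ j, M2 (z j)) →
  (∀ ζ, (∀ j, Test (Metric.ball x ε') (ζ j)) → ip z ζ + di (fun _ => 0) (gj (w t)) ζ
    = c * ∫ q in {x | ρ x < 0}, crl (fun _ => 0) ζ q) → vo W (t, x) = c

/-- The classical solution in the zone. -/
def ZoneS : Prop := ∀ (ρ : P → ℝ) (x τ : P) (γ : ℝ → ℝ) (r R ε t₀ : ℝ) (g : Fin 2 → P → ℝ)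
    (a w : ℝ → E6), Continuous ρ → Ch {x | ρ x < 0} x τ γ 0 r →
  (∀ p ∈ Q r, ρ (Th x τ γ p) = 0 ↔ p.2 = 0) → Pv {x | ρ x < 0} g R a w → 0 < ε →
  (∀ t j, Van (Metric.ball x ε) (vl (a t) j)) →
  ∃ (ε' : ℝ) (W : Fin 2 → ST → ℝ), 0 < ε' ∧ Rp ρ x t₀ ε' w W ∧ Zn ρ x t₀ ε' W ∧
    ∀ t ∈ Metric.ball t₀ ε', ∀ θ, Test ({x | ρ x < 0} ∩ Metric.ball x ε') θ →
      -ip g (perp (fun _ => 0) θ) = ∫ x, cv W (t, x) * θ x

/-- The leading term of the curl of the force in the zone. -/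
def JetZS : Prop := ∀ (ρ : P → ℝ) (x : P), ContDiff ℝ ∞ ρ → ρ x = 0 → 0 < curvature ρ x →
  ∃ K : ℝ, 0 < K ∧ ∀ (t₀ ε : ℝ) (W : Fin 2 → ST → ℝ), Zn ρ x t₀ ε W → ∀ t ∈ Metric.ball t₀ ε,
    vo W (t, x) ≠ 0 → Tendsto (fun y => cv W (t, y) / ρ y ^ 6) (𝓝[{x | ρ x < 0}] x)
      (𝓝 (K * (vo W (t, x) * pd e0 (pd e0 (vo W)) (t, x) - pd e0 (vo W) (t, x) ^ 2)
        * dcurvature ρ x))

/-- The steady case. -/
def StdyS : Prop := ∀ (ρ : P → ℝ) (x : P) (t₀ ε : ℝ) (W : Fin 2 → ST → ℝ), ContDiff ℝ ∞ ρ →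
  ρ x = 0 → 0 < curvature ρ x → Zn ρ x t₀ ε W →
  (∀ t ∈ Metric.ball t₀ ε, pd e0 (vo W) (t, x) = 0) →
  ∀ t ∈ Metric.ball t₀ ε, ∀ᶠ y in 𝓝[{x | ρ x < 0}] x, cv W (t, y) = 0

/-- Two different solutions force every convex boundary point to be exceptional. -/
def ExcS : Prop := ∀ (ρ : P → ℝ) (x : P) (g : Fin 2 → P → ℝ) (R : ℝ) (a w : ℝ → E6),
  ContDiff ℝ ∞ ρ → (∀ x, ρ x = 0 → fderiv ℝ ρ x ≠ 0) → Bornology.IsBounded {x | ρ x < 0} →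
  IsPreconnected {x | ρ x < 0} → ρ x = 0 → 0 < curvature ρ x → Pv {x | ρ x < 0} g R a w → TU a →
  (∃ t, t ≤ 0 ∧ w t = 0) ∨ ExcF ρ g x

/-- Geometry of a circular outer boundary. -/
def NearS : Prop :=
  (∀ (c : P) (R : ℝ), IsPreconnected {x | qc c x = R ^ 2}) ∧
  (∀ (c : P) (r : ℝ), IsPreconnected {x | r ^ 2 < qc c x}) ∧
  ∀ (ρ : P → ℝ) (c : P) (R : ℝ), ContDiff ℝ ∞ ρ → (∀ x, ρ x = 0 → fderiv ℝ ρ x ≠ 0) → 0 < R →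
    (∀ x, ρ x < 0 → qc c x < R ^ 2) → (∀ x, qc c x = R ^ 2 → ρ x = 0) →
    (∀ x, ρ x = 0 → qc c x ≤ R ^ 2) ∧ ∀ x, qc c x = R ^ 2 →
      0 < curvature ρ x ∧ ∀ᶠ y in 𝓝 x, qc c y < R ^ 2 → ρ y < 0

/-- In an annular zone the half difference has no radial component. -/
def SwirlS : Prop := ∀ (Ω : Set P) (g : Fin 2 → P → ℝ) (R r R₀ : ℝ) (a w : ℝ → E6) (c : P)
    (ζ₀ : Fin 2 → P → ℝ), IsOpen Ω → 0 < r → r < R₀ → (∀ x ∈ Ω, qc c x < R₀ ^ 2) →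
  An c r R₀ ⊆ Ω → Pv Ω g R a w → Dfc Ω {x | r ^ 2 < qc c x} ζ₀ →
  (∀ t j, Van (An c r R₀) (vl (a t) j)) → ∀ t, Van (An c r R₀) (rd c (vl (w t)))

/-- A function whose angular derivative vanishes is invariant under rotations. -/
def RotIS : Prop := ∀ (c : P) (r R : ℝ) (m : P → ℝ), Integrable m →
  (∀ φ, Test (An c r R) φ →
    ∫ x, m x * (Xc c 0 x * pd (ee 1) φ x - Xc c 1 x * pd (ee 0) φ x) = 0) →
  ∀ τ : P, τ.1 ^ 2 + τ.2 ^ 2 = 1 → ∀ φ, Test (An c r R) φ →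
    Test (An c r R) (fun x => φ (Rt c τ x)) ∧ ∫ x, m x * φ (Rt c τ x) = ∫ x, m x * φ x

/-- Invariance of the energy density and of its radial derivative. -/
def RotAS : Prop := ∀ (c : P) (r R : ℝ) (w : Fin 2 → P → ℝ) (dw : Fin 2 → Fin 2 → P → ℝ),
  VF (fun _ => 0) w dw → Van (An c r R) (rd c w) → ∀ τ : P, τ.1 ^ 2 + τ.2 ^ 2 = 1 →
  (∀ᵐ x, x ∈ An c r R → mm w (Rt c τ x) = mm w x) ∧
    ∀ᵐ x, x ∈ An c r R → Ph c w dw (Rt c τ x) = Ph c w dw x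

/-- From a neighbourhood of a point of the inner circle to a thin annulus. -/
def RotBS : Prop := ∀ (c x₁ : P) (r R η : ℝ) (f : P → ℝ) (p : ℝ → Prop), 0 < r → r < R →
  qc c x₁ = r ^ 2 → 0 < η →
  (∀ τ : P, τ.1 ^ 2 + τ.2 ^ 2 = 1 → ∀ᵐ x, x ∈ An c r R → f (Rt c τ x) = f x) →
  (∀ᵐ x, x ∈ Metric.ball x₁ η → p (f x)) →
  ∃ η' : ℝ, 0 < η' ∧ ∀ᵐ x, x ∈ An c r (r + η') → p (f x)

/-- Interior regularity of the half difference. -/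
def RegIS : Prop := ∀ (r r' R : ℝ) (a w z f g : Fin 2 → P → ℝ)
    (da dw dz : Fin 2 → Fin 2 → P → ℝ), 0 < r' → r' < r → VF (fun _ => 0) a da →
  VF (fun _ => 0) w dw → VF (fun _ => 0) z dz →
  P2 (fun _ => 0) 1 (Q r) (Q r) R (fun j p => a j p + w j p) (fun j i p => da j i p + dw j i p) f →
  P2 (fun _ => 0) 1 (Q r) (Q r) R (fun j p => a j p - w j p) (fun j i p => da j i p - dw j i p) g →
  (∀ ζ, (∀ j, Test (Q r) (ζ j)) → E1 (fun _ => 0) a w dw z ζ) →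
  ∃ C : ℝ, 0 ≤ C ∧ ∀ j, HB (Q r') 2 (w j) C ∧ (∀ i, HB (Q r') 2 (dw j i) C) ∧
    ∀ᵐ p, p ∈ Q r' → |a j p| ≤ C

/-- Functions of class `H²` are continuous, with derivatives in a mixed norm space. -/
def ContS : Prop := ∀ (r R : ℝ) (f : P → ℝ), 0 < r → 0 ≤ R → M2 f → HB (Q r) 2 f R →
  (∃ f₀, El f f₀) ∧ ∃ (fY fS : P → ℝ) (k : ℝ → ℝ), M2 fY ∧ M2 fS ∧ WD (Q r) (ee 0) f fY ∧
    WD (Q r) (ee 1) f fS ∧ IntegrableOn k (Ioo 0 r) ∧ (∀ s, 0 ≤ k s) ∧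
    ∀ᵐ p : P, p ∈ Qp 0 r → fY p ^ 2 ≤ k p.2 ∧ fS p ^ 2 ≤ k p.2

/-- The inequalities for the coefficients in the strictly hyperbolic case. -/
def CoefHS : Prop := ∀ (r R m₀ n₀ l₀ : ℝ) (m n l : P → ℝ), 0 < r → 0 ≤ R → M2 m → M2 n → M2 l →
  HB (Q r) 2 m R → HB (Q r) 2 n R → HB (Q r) 2 l R → El m m₀ → El n n₀ → El l l₀ → 0 < m₀ →
  0 < n₀ → ∃ r₁ K κ k ms ns nY lY, 0 < r₁ ∧ r₁ ≤ r ∧ Cg r₁ K κ k m ms n ns nY l lY

/-- Uniqueness for the strictly hyperbolic trace equation. -/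
def EnHS : Prop := ∀ (r K κ K' : ℝ) (k : ℝ → ℝ) (m ms n ns nY l lY A B AY AS BY : P → ℝ), 0 < r →
  Cg r K κ k m ms n ns nY l lY → M2 A → M2 B → M2 AY → M2 AS → M2 BY →
  WD (Qp 0 r) (ee 0) A AY → WD (Qp 0 r) (ee 1) A AS → WD (Qp 0 r) (ee 0) B BY →
  WD (Qp 0 r) (ee 1) B AY → (∀ᵐ p : P, p ∈ Qp 0 r → |A p| ≤ K' ∧ |B p| ≤ K' ∧
    m p * AS p = n p * BY p - 2 * l p * AY p) →
  (∀ᵐ s, s ∈ Ioo 0 r → slY (-r) r A s ≤ K' * s ∧ slY (-r) r B s ≤ K' * s) →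
  ∃ r₂ : ℝ, 0 < r₂ ∧ Van (Qp 0 r₂) A ∧ Van (Qp 0 r₂) B

/-- The dichotomy at an interior point, in adapted coordinates. -/
def HypLS : Prop := ∀ (r r₀ R : ℝ) (a w z f g : Fin 2 → P → ℝ)
    (da dw dz : Fin 2 → Fin 2 → P → ℝ), 0 < r → 0 < r₀ → VF (fun _ => 0) a da →
  VF (fun _ => 0) w dw → VF (fun _ => 0) z dz →
  P2 (fun _ => 0) 1 (Q r) (Q r) R (fun j p => a j p + w j p) (fun j i p => da j i p + dw j i p) f →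
  P2 (fun _ => 0) 1 (Q r) (Q r) R (fun j p => a j p - w j p) (fun j i p => da j i p - dw j i p) g →
  (∀ ζ, (∀ j, Test (Q r) (ζ j)) → E1 (fun _ => 0) a w dw z ζ) → (∀ᵐ p, trc da dw p = 0) →
  (∀ j, Van (Q r ∩ {p | p.2 < 0}) (a j)) → Van (Q r ∩ {p | p.2 < 0}) (rd (0, r₀) w) →
  (∃ r' : ℝ, 0 < r' ∧ ∀ j, Van (Q r') (a j)) ∨
    ∀ δ : ℝ, 0 < δ → ∃ η : ℝ, 0 < η ∧ ∀ᵐ p, p ∈ Q η → -δ ≤ Ph (0, r₀) w dw p

/-- The dichotomy at an interior point of the inner circle. -/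
def HypPS : Prop := ∀ (Ω : Set P) (c x₁ : P) (r R₀ R : ℝ) a da w dw z dz, IsOpen Ω → x₁ ∈ Ω →
  0 < r → r < R₀ → qc c x₁ = r ^ 2 → Fx Ω R a da w dw z dz → (∀ j, Van (An c r R₀) (a j)) →
  Van (An c r R₀) (rd c w) → (∃ ε : ℝ, 0 < ε ∧ ∀ j, Van (Metric.ball x₁ ε) (a j)) ∨
    ∀ δ : ℝ, 0 < δ → ∃ η : ℝ, 0 < η ∧ ∀ᵐ x, x ∈ Metric.ball x₁ η → -δ ≤ Ph c w dw x

/-- The half difference is small near the boundary. -/
def SmallS : Prop := ∀ (Ω : Set P) (x τ : P) (γ : ℝ → ℝ) (r R : ℝ) a da w dw z dz,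
  Ch Ω x τ γ 0 r → Fx Ω R a da w dw z dz →
  ∀ δ : ℝ, 0 < δ → ∃ η : ℝ, 0 < η ∧ ∀ᵐ y, y ∈ Metric.ball x η → mm w y ≤ δ

/-- Integration by parts in the radial direction. -/
def RadS : Prop := ∀ (c : P) (w : Fin 2 → P → ℝ) (dw : Fin 2 → Fin 2 → P → ℝ) (β : ℝ → ℝ),
  (∀ j, H1 (fun _ => 0) (w j) (dw j)) → ContDiff ℝ ∞ β → HasCompactSupport β →
  Test univ (fun x => β (qc c x)) ∧ ∫ x, β (qc c x) * Ph c w dw x
    = -∫ x, (β (qc c x) + qc c x * deriv β (qc c x)) * mm w x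

/-- The weighted energy identity. -/
def EnIdS : Prop := ∀ (Ω N : Set P) (c : P) (v : E6) (z : Fin 2 → P → ℝ) (β : ℝ → ℝ), v ∈ Ys Ω →
  (∀ j, M2 (z j)) → Hz N (gj v) z → ContDiff ℝ ∞ β → HasCompactSupport β →
  (∀ x ∈ Ω, qc c x ∈ tsupport β → x ∈ N) →
  (∫ x, β (qc c x) * ∑ j, z j x * vl v j x) + (∫ x, β (qc c x) * ∑ j, ∑ i, gj v j i x ^ 2)
    + 2 * ∫ x, deriv β (qc c x) * Ph c (vl v) (gj v) x = 0

/-- Dissipation, when the radial derivative of the energy density is nonnegative. -/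
def Diss1S : Prop := ∀ (Ω : Set P) (c : P) (r R : ℝ) (v : E6) (z : Fin 2 → P → ℝ), 0 < r → r < R →
  (∀ x ∈ Ω, qc c x < R ^ 2) → v ∈ Ys Ω → (∀ j, M2 (z j)) → Hz (An c r R) (gj v) z →
  (∀ δ : ℝ, 0 < δ → ∃ η : ℝ, 0 < η ∧ ∀ᵐ x, x ∈ An c r (r + η) → -δ ≤ Ph c (vl v) (gj v) x) →
  R ^ 2 * ∫ x in An c r R, ∑ j, z j x * vl v j x ≤ -∫ x in An c r R, mm (vl v) x

/-- Dissipation, when the energy density vanishes on the inner circle. -/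
def Diss2S : Prop := ∀ (Ω : Set P) (c : P) (r R : ℝ) (v : E6) (z : Fin 2 → P → ℝ), 0 < r → r < R →
  (∀ x ∈ Ω, qc c x < R ^ 2) → v ∈ Ys Ω → (∀ j, M2 (z j)) → Hz (An c r R) (gj v) z →
  (∀ δ : ℝ, 0 < δ → ∃ η : ℝ, 0 < η ∧ ∀ᵐ x, x ∈ An c r (r + η) → mm (vl v) x ≤ δ) →
  R ^ 2 * ∫ x in An c r R, ∑ j, z j x * vl v j x ≤ -∫ x in An c r R, mm (vl v) x

/-- Bounded complete solutions of a dissipative problem vanish. -/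
def AncS : Prop := ∀ (A : Set P) (K R : ℝ) (w : ℝ → E6), MeasurableSet A → 0 < K →
  ContDiff ℝ ∞ w → (∀ t, ‖w t‖ ≤ R) →
  Dense {t | K * ∫ x in A, ∑ j, vl (deriv w t) j x * vl (w t) j x ≤ -∫ x in A, mm (vl (w t)) x} →
  ∀ t j, Van A (vl (w t) j)

/-- Uniqueness when the outer boundary is a circle. -/
def CircS : Prop := ∀ (ρ : P → ℝ) (g : Fin 2 → P → ℝ) (R : ℝ) (a w : ℝ → E6), ContDiff ℝ ∞ ρ →
  (∀ x, ρ x = 0 → fderiv ℝ ρ x ≠ 0) → IsPreconnected {x | ρ x < 0} → Circ ρ →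
  Pv {x | ρ x < 0} g R a w → TU a → (∀ t, w t ∈ Ys {x | ρ x < 0}) →
  (∃ t, t ≤ 0 ∧ w t = 0) ∨ ∀ t, t < 0 → a t = 0

def OfEqN : Prop := EqNS
def OfEnN : Prop := PlS → EqNS → EnNS
def OfMaj : Prop := MajS
def OfTay : Prop := TayS
def OfTan : Prop := EnNS → MajS → TayS → TanS
def OfCrl : Prop := ThS → CrlS
def OfBdy : Prop := ZtS → LadS → DensS → BdyS
def OfDefL : Prop := ZtS → DefLS
def OfDefP : Prop := ThS → TransS → TrIS → CrlS → BdyS → DefLS → DefPS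
def OfChart0 : Prop := Chart0S
def OfGlob : Prop := Chart0S → DefPS → GlobS
def OfCT : Prop := CTS
def OfSpin : Prop := SpinS
def OfIdn : Prop := TransS → ZtS → CrlS → IdnS
def OfCid : Prop := Cl0S → IdnS → CidS
def OfZone : Prop := ThS → Z1S → Z2S → ClassS → ZoneS
def OfJetZ : Prop := JetZS
def OfStdy : Prop := StdyS
def OfExc : Prop := ChartS → UcPS → TriAS → Cl0S → TailS → AnaZS → DefPS → GlobS → CTS → SpinS →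
  CidS → ZoneS → JetZS → StdyS → ExcS
def OfNear : Prop := NearS
def OfSwirl : Prop := UcS → NearS → SwirlS
def OfRotI : Prop := RotIS
def OfRotA : Prop := PrdS → ThS → RotIS → RotAS
def OfRotB : Prop := ThS → RotBS
def OfRegI : Prop := HbS → PrdS → MixS → HkS → H2S → PrkS → RegIS
def OfCont : Prop := HbS → FtcS → SliceS → Cf1S → ContS
def OfCoefH : Prop := ContS → CoefHS
def OfEnH : Prop := PrdS → En2S → EnHS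
def OfHypL : Prop := ZtS → RegIS → ContS → CoefHS → EnHS → HypLS
def OfHypP : Prop := ThS → TransS → TrIS → HypLS → HypPS
def OfSmall : Prop := MixS → ZtS → ThS → TransS → GpS → SmallS
def OfRad : Prop := PrdS → RadS
def OfEnId : Prop := EnIdS
def OfDiss1 : Prop := RadS → EnIdS → Diss1S
def OfDiss2 : Prop := RadS → EnIdS → Diss2S
def OfAnc : Prop := AncS
def OfCirc : Prop := ChartS → Chart0S → UcPS → TriAS → GlobS → NearS → SwirlS → RotAS → RotBS →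
  HypPS → SmallS → Diss1S → Diss2S → AncS → CircS

end Pool.Agent.MP_ed9623_an.H77
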