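import Pool.Agent.MP_ed9623_an.H77.SpecX
import Pool.Agent.MP_ed9623_an.H77.Fin

/-! The final assembly. -/

open MeasureTheory Filter Topology Set
open scoped ContDiff InnerProductSpace

namespace Pool.Agent.MP_ed9623_an.H77

open H64

theorem curlIs_iff {Ω O : Set P} (hΩ : MeasurableSet Ω) (g : Fin 2 → L2 Ω) (G : P → ℝ) :
    CurlIs Ω g O G ↔ AnalyticOnNhd ℝ G O ∧ ∀ θ, Test O θ →
      -ip (fun j => xt Ω (g j)) (perp (fun _ => 0) θ) = ∫ x, G x * θ x := by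
  refine and_congr_right fun _ => forall_congr' fun θ => forall_congr' fun hθ => Eq.congr_left ?_
  have a := fun j i => (m2_xt hΩ (g j)).int_mul (hθ.pd (ee i)).m2
  rw [← integral_indicator hΩ, ip, Fin.sum_univ_two]
  change _ = -((∫ x, xt Ω (g 0) x * -dd (fun _ => 0) 1 θ x) + ∫ x, xt Ω (g 1) x * dd (fun _ => 0) 0 θ x)
  simp only [dd_zero, mul_neg, integral_neg]
  rw [neg_add, neg_neg, ← sub_eq_add_neg, ← integral_sub (a 0 1) (a 1 0)]
  refine integral_congr_ae (Eventually.of_forall fun x => ?_)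
  by_cases hx : x ∈ Ω <;> simp [xt, hx]

/-- Vector fields which vanish on `N`. -/
def VanX (N : Set P) : Submodule ℝ X2 where
  carrier := {x | ∀ j, Van N (x j)}
  add_mem' := fun {u v} a b j => (Van.add (a j) (b j)).congr (Lp.coeFn_add (u j) (v j)).symm
  zero_mem' := fun _ => (Lp.coeFn_zero ℝ 2 volume).mono fun _ a _ => a
  smul_mem' := fun c v a j => (Van.smul (a j) fun _ => c).congr (Lp.coeFn_smul c (v j)).symm

theorem isClosed_VanX (N : Set P) : IsClosed (VanX N : Set X2) := by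
  have : (VanX N : Set X2) = ⋂ j, (fun x : X2 => x j) ⁻¹' {f : L | Van N f} :=
    Set.ext fun _ => by rw [mem_iInter]; rfl
  rw [this]
  exact isClosed_iInter fun j => (isClosed_van N).preimage
    (PiLp.proj 2 (fun _ : Fin 2 => L) j : X2 →L[ℝ] L).continuous

theorem tu_of (tan : TanS) {Ω : Set P} {g : Fin 2 → P → ℝ} {S : St X2 (VV Ω)}
    {D : Pd X2 (VV Ω) (YY Ω)} (hM : Mod Ω g S D) {R : ℝ} {U W : ℝ → VV Ω} (hU : Bd S R univ U)
    (hW : Bd S R univ W) : TU fun t => (1 / 2 : ℝ) • ((U t).1 + (W t).1) := by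
  intro N I hI hn h t j
  have := tan (VanX N) (isClosed_VanX N) hU hW I hI hn (fun s hs l => by
    have := (VanS N (l, none)).smul_mem (2 : ℝ) (h s hs l)
    rw [smul_smul, mul_one_div_cancel two_ne_zero, one_smul] at this
    rw [hM.ι]
    exact this) t j
  rw [hM.ι] at this
  exact (VanS N (j, none)).smul_mem (1 / 2 : ℝ) this

/-- The final statement. -/
def FinX : Prop := ∀ (ρ : P → ℝ), ContDiff ℝ ∞ ρ → (∀ x, ρ x = 0 → fderiv ℝ ρ x ≠ 0) →
  Bornology.IsBounded {x | ρ x < 0} → IsConnected {x | ρ x < 0} →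
  ∀ g : Fin 2 → L2 {x | ρ x < 0}, (¬ Circ ρ →
    (∀ x₀, ρ x₀ = 0 → 0 < curvature ρ x₀ → Exc ρ {x | ρ x < 0} g x₀) →
      ∃ G, CurlIs {x | ρ x < 0} g {x | ρ x < 0} G) →
  ∃ (N : ℕ) (Φ : Fin N → L2 {x | ρ x < 0} →L[ℝ] ℝ), ∀ u p v q, Traj {x | ρ x < 0} g u p →
    Traj {x | ρ x < 0} g v q → (∀ i, Tendsto (fun t => Φ i (p t) - Φ i (q t)) atTop (𝓝 0)) →
    Tendsto (fun t => ‖u t - v t‖) atTop (𝓝 0)

theorem finX (model : ModelS) (tr1 : Tr1S) (smooth : SmoothS) (tr2 : Tr2S) (af : AfS) (cvs : CvS)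
    (dec : DecS) (uniq : UniqS) (tan : TanS) (exc : ExcS) (circ : CircS) : FinX := by
  intro ρ hρ hreg hb hc g H
  have o : IsOpen {x | ρ x < 0} := isOpen_lt hρ.continuous continuous_const
  have m := o.measurableSet
  have mg := fun j => m2_xt m (g j)
  obtain ⟨S, D, hM⟩ := model _ _ hb mg
  obtain ⟨N, Λ, hΛ⟩ := af S D hM.anti hM.cpt fun R U W hU hW e => by
    obtain ⟨R', hP⟩ := cvs _ _ S D R U W mg hM hU hW e
    have two : ∀ z : E6, (1 / 2 : ℝ) • z = 0 → z = 0 := fun z hz =>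
      (smul_eq_zero.1 hz).resolve_left one_half_pos.ne'
    have tu := tu_of tan hM hU hW
    have key : (∃ t, t ≤ 0 ∧ (1 / 2 : ℝ) • ((U t).1 - (W t).1) = 0) ∨
        ∀ t, t < 0 → (1 / 2 : ℝ) • ((U t).1 + (W t).1) = 0 := by
      by_cases hci : Circ ρ
      · exact circ ρ _ R' _ _ hρ hreg hc.2 hci hP tu fun t =>
          Vs_le_Ys _ ((Vs _).smul_mem _ ((Vs _).sub_mem (U t).2 (W t).2))
      refine or_iff_not_imp_left.2 fun hw => ?_
      obtain ⟨G, hG⟩ := H hci fun y a b => by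
        obtain ⟨c, r, r0, G, l, d, e⟩ :=
          (exc ρ y _ R' _ _ hρ hreg hb hc.2 a b hP tu).resolve_left hw
        exact ⟨c, r, r0, G, l, (curlIs_iff m g G).2 d, e⟩
      obtain ⟨x, h0, hk⟩ := exists_convex hρ hreg hb hc.1
      exact (uniq ρ x _ R' _ _ hρ hc.2 h0 hk (fun _ _ => ⟨G, (curlIs_iff m g G).1 hG⟩)
        hP).resolve_left hw
    rcases key with ⟨t, ht, a⟩ | a
    · exact ⟨t, ht, Subtype.ext (sub_eq_zero.1 (two _ a))⟩
    · exact ⟨-1, by norm_num, dec hU hW fun t ht => Subtype.ext (two _ (a t ht))⟩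
  obtain ⟨E, hE⟩ := exists_ext m
  have rz : ∀ i, ∃ ζ : YY {x | ρ x < 0}, ∀ y, ⟪y, ζ⟫_ℝ = Λ y i := fun i =>
    ⟨(InnerProductSpace.toDual ℝ _).symm (ContinuousLinearMap.proj i ∘L Λ), fun y => by
      rw [real_inner_comm, InnerProductSpace.toDual_symm_apply]; rfl⟩
  choose ζ hζ using rz
  choose l hl using fun i => exists_int ((m2_gj (ζ i).1 0 0).add (m2_gj (ζ i).1 1 1))
  refine ⟨N, fun i => -(l i ∘L E.toContinuousLinearMap), fun u p v q hu hv hΦ => ?_⟩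
  have key : ∀ u p, Traj {x | ρ x < 0} g u p → ∃ U, Sm S (Ioi 0) U ∧ ∀ t, 0 < t →
      (∀ j, S.ι (U t) j = E (u t j)) ∧ ∀ i, Λ (obs S D U t) i = -l i (E (p t)) := fun u p h => by
    obtain ⟨z, Z, a, b⟩ := tr1 _ g S D u p o hM h
    obtain ⟨U, c, d⟩ := smooth (itv_Ioi 0) a
    have e : ∀ t, 0 < t → ∀ j, S.ι (U t) j =ᵐ[volume] xt _ (u t j) := fun t ht j => d t ht ▸ b t j
    refine ⟨U, c, fun t ht => ⟨fun j => Lp.ext ((e t ht j).trans (hE _).symm), fun i => ?_⟩⟩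
    rw [← hζ, tr2 _ g S D u p U o hM h c e t ht, hl]
    exact congrArg _ (integral_congr_ae ((hE _).symm.mul EventuallyEq.rfl))
  obtain ⟨U, hU, a⟩ := key u p hu
  obtain ⟨W, hW, b⟩ := key v q hv
  refine squeeze_zero' (Eventually.of_forall fun _ => norm_nonneg _) ?_
    (hΛ U W hU hW (tendsto_pi_nhds.2 fun i => (hΦ i).congr' ?_))
  · filter_upwards [eventually_gt_atTop 0] with t ht
    refine (pi_norm_le_iff_of_nonneg (norm_nonneg _)).2 fun j => ?_
    rw [← E.norm_map, Pi.sub_apply, map_sub, ← (a t ht).1, ← (b t ht).1, map_sub, ← PiLp.sub_apply]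
    exact PiLp.norm_apply_le _ j
  · filter_upwards [eventually_gt_atTop 0] with t ht
    rw [map_sub, Pi.sub_apply, (a t ht).2, (b t ht).2]
    rfl

end Pool.Agent.MP_ed9623_an.H77
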