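import Pool.Agent.MP_ed9623_an.H77.SpecX

/-! The defect along a connected part of the boundary. -/

open MeasureTheory Filter Topology Set
open scoped ContDiff

namespace Pool.Agent.MP_ed9623_an.H77

open H64

theorem rowGlob2 : OfGlob := by
  intro hC hD ρ O x hρ hreg hO hc hx hxO
  have o : IsOpen {x | ρ x < 0} := isOpen_lt hρ.continuous continuous_const
  have loc : ∀ y, ρ y = 0 → ∀ U ∈ 𝓝 y, ∃ N ζ, IsOpen N ∧ y ∈ N ∧ N ⊆ U ∧
      Dfc {x | ρ x < 0} N ζ := fun y hy U hU => by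
    obtain ⟨τ, γ, r, ch, -⟩ := hC ρ y hρ hy (hreg y hy)
    obtain ⟨ε, e, he⟩ := Metric.mem_nhds_iff.1 hU
    obtain ⟨r', a, b, c⟩ := ch.small e
    obtain ⟨ζ, hζ⟩ := hD _ y τ γ r' o (ch.mono a b)
    exact ⟨_, ζ, (ch.nhds a).1, mem_of_mem_nhds (ch.nhds a).2, c.trans he, hζ⟩
  obtain ⟨N₀, ζ₀, oN, xN, sN, h₀⟩ := loc x hx O (hO.mem_nhds hxO)
  refine ⟨ζ₀, fun j => (h₀.1 j).mono sN, h₀.2.1, fun a da w dw z dz hF => ?_⟩
  let Gd : ℝ → Set P → Prop := fun c N => ∀ ζ, (∀ j, Test N (ζ j)) →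
    Tx (fun _ => 0) a w dw z ζ = c * ∫ q in {x | ρ x < 0}, crl (fun _ => 0) ζ q
  let S : ℝ → Set P := fun c => {y | ∃ N, IsOpen N ∧ y ∈ N ∧ Gd c N}
  have oS : ∀ c, IsOpen (S c) := fun c => isOpen_iff_mem_nhds.2 fun y ⟨N, a, b, d⟩ =>
    mem_of_superset (a.mem_nhds b) fun p hp => ⟨N, a, hp, d⟩
  have uq : ∀ c c' y, ρ y = 0 → y ∈ S c → y ∈ S c' → c = c' :=
    fun c c' y hy ⟨N, a, b, d⟩ ⟨N', a', b', d'⟩ => by
      obtain ⟨M, ζ, -, -, s, h⟩ := loc y hy _ ((a.inter a').mem_nhds ⟨b, b'⟩)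
      have := (d ζ fun j => (h.1 j).mono (s.trans inter_subset_left)).symm.trans
        (d' ζ fun j => (h.1 j).mono (s.trans inter_subset_right))
      rwa [h.2.1, mul_one, mul_one] at this
  set c := Tx (fun _ => 0) a w dw z ζ₀
  have bd : {x | ρ x = 0} ∩ O ⊆ S c := fun y hy => by
    by_contra n
    have ex : ∀ p, ρ p = 0 → ∃ c', p ∈ S c' := fun p hp => by
      obtain ⟨M, ζ, a, b, -, h⟩ := loc p hp univ univ_mem
      exact ⟨_, M, a, b, h.2.2 _ _ _ _ _ _ hF⟩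
    obtain ⟨p, h1, h2, h3⟩ := hc (S c) (⋃ c' ∈ {c' | c' ≠ c}, S c') (oS c)
      (isOpen_biUnion fun c' _ => oS c') (fun p hp => by
        obtain ⟨c', h⟩ := ex p hp.1
        by_cases e : c' = c
        exacts [Or.inl (e ▸ h), Or.inr (mem_biUnion e h)])
      ⟨x, ⟨hx, hxO⟩, N₀, oN, xN, h₀.2.2 _ _ _ _ _ _ hF⟩ (by
        obtain ⟨c', h⟩ := ex y hy.1
        exact ⟨y, hy, mem_biUnion (fun e : c' = c => n (e ▸ h)) h⟩)
    obtain ⟨c', e, h⟩ := mem_iUnion₂.1 h3
    exact e (uq _ _ p h1.1 h h2)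
  have it : ∀ {N : Set P} {φ : P → ℝ}, Test N φ → Integrable φ := fun h =>
    h.ct.integrable_of_hasCompactSupport h.2.1
  have all : O ⊆ S c := fun y hy => by
    rcases lt_trichotomy (ρ y) 0 with h | h | h
    · refine ⟨_, o, h, fun ζ hζ => ?_⟩
      have k := fun j i => integral_pd_eq_zero volume (ee i) (contDiff_infty.1 (hζ j).1 1) (hζ j).2.1
      rw [E1_iff.1 (hF.e1 ζ hζ), setIntegral_eq_integral_of_forall_compl_eq_zero
        fun p => (test_crl Gam.zero hζ).off]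
      simp only [crl, dd_zero]
      rw [integral_sub (it ((hζ 1).pd _)) (it ((hζ 0).pd _)), k, k, sub_zero, mul_zero]
    · exact bd ⟨h, hy⟩
    · have s : {x | 0 < ρ x} ⊆ {x | ρ x < 0}ᶜ := fun p hp (k : ρ p < 0) => lt_asymm k hp
      refine ⟨_, isOpen_lt continuous_const hρ.continuous, h, fun ζ hζ => ?_⟩
      rw [Tx_van hζ fun j => (hF.na j).mono s, TriB.ip_van hζ fun j => (hF.nz j).mono s,
        TriB.di_van hζ fun j i => (hF.ndw j i).mono s, setIntegral_congr_fun o.measurableSet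
          (g := fun _ => 0) fun p hp => (test_crl Gam.zero hζ).off fun k => s k hp]
      simp
  have un : ∀ N N', IsOpen N → IsOpen N' → Gd c N → Gd c N' → Gd c (N ∪ N') :=
    fun N N' a a' d d' ζ hζ => by
      obtain ⟨K, K', k, k', s, s', e⟩ := ((hζ 0).2.1.isCompact.union
        (hζ 1).2.1.isCompact).binary_compact_cover a a' (union_subset (hζ 0).2.2 (hζ 1).2.2)
      obtain ⟨χ, hχ, -, h1⟩ := exists_cut k a s
      have t1 : ∀ j, Test N fun p => χ p * ζ j p := fun j => hχ.muls (hζ j).1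
      have t2 : ∀ j, Test N' fun p => (1 - χ p) * ζ j p := fun j => by
        have t := (hζ j).smul (contDiff_const.sub hχ.1 : ContDiff ℝ ∞ fun p => 1 - χ p)
        refine ⟨t.1, t.2.1, fun p hp => s' ?_⟩
        have m : p ∈ K ∪ K' := e ▸ (by
          have := tsupport_mul_subset_right hp
          fin_cases j
          exacts [Or.inl this, Or.inr this])
        refine m.resolve_left fun m => notMem_tsupport_iff_eventuallyEq.2 ?_ hp
        exact (h1.filter_mono (nhds_le_nhdsSet m)).mono fun q hq => by simp [hq]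
      have u1 := fun j => (t1 j).top
      have u2 := fun j => (t2 j).top
      have q : ζ = fun j p => χ p * ζ j p + 1 * ((1 - χ p) * ζ j p) := by
        funext j p; ring
      rw [q, Tx_lin Gam.zero (fun j => (hF.va.h1 j).m) (fun j => (hF.vw.h1 j).m)
        (fun j => (hF.vw.h1 j).md) (fun j => (hF.vz.h1 j).m) u1 u2, d _ t1, d' _ t2]
      simp only [crl_lin _ (fun j => (u1 j).1) (fun j => (u2 j).1)]
      rw [integral_add (it (test_crl Gam.zero u1)).integrableOn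
        ((it (test_crl Gam.zero u2)).const_mul 1).integrableOn, integral_const_mul]
      ring
  intro ζ hζ
  obtain ⟨N, -, s, d⟩ := ((hζ 0).2.1.isCompact.union (hζ 1).2.1.isCompact).induction_on
    (p := fun K => ∃ N, IsOpen N ∧ K ⊆ N ∧ Gd c N)
    (by obtain ⟨N, a, -, d⟩ := all hxO; exact ⟨N, a, empty_subset _, d⟩)
    (fun _ _ h ⟨N, a, b, d⟩ => ⟨N, a, h.trans b, d⟩)
    (fun _ _ ⟨N, a, b, d⟩ ⟨N', a', b', d'⟩ =>
      ⟨_, a.union a', union_subset_union b b', un _ _ a a' d d'⟩)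
    fun y hy => by
      obtain ⟨N, a, b, d⟩ := all (union_subset (hζ 0).2.2 (hζ 1).2.2 hy)
      exact ⟨N, mem_nhdsWithin_of_mem_nhds (a.mem_nhds b), N, a, Subset.rfl, d⟩
  refine d ζ fun j => ⟨(hζ j).1, (hζ j).2.1, Subset.trans ?_ s⟩
  fin_cases j
  exacts [subset_union_left, subset_union_right]

end Pool.Agent.MP_ed9623_an.H77
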