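import Pool.Agent.MP_ed9623_an.H77.All
import Pool.Agent.MP_ed9623_an.H77.Fin2
import Pool.Agent.MP_ed9623_an.H77.Exc
import Pool.Agent.MP_ed9623_an.H77.Near2
import Pool.Agent.MP_ed9623_an.H14.Diss2
import Pool.Agent.MP_ed9623_an.H16.Circ
import Pool.Agent.MP_ed9623_an.H22.EnH
import Pool.Agent.MP_ed9623_an.H22.Tay
import Pool.Agent.MP_ed9623_an.H77.Glob2
import Pool.Agent.MP_ed9623_an.H37.Rad
import Pool.Agent.MP_ed9623_an.H37.Small
import Pool.Agent.MP_ed9623_an.H41.EnN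
import Pool.Agent.MP_ed9623_an.H41.RotI
import Pool.Agent.MP_ed9623_an.H46.CoefH
import Pool.Agent.MP_ed9623_an.H49.Maj
import Pool.Agent.MP_ed9623_an.H50.CT
import Pool.Agent.MP_ed9623_an.H50.Cont
import Pool.Agent.MP_ed9623_an.H54.RotA
import Pool.Agent.MP_ed9623_an.H58.Crl
import Pool.Agent.MP_ed9623_an.H6.Tan
import Pool.Agent.MP_ed9623_an.H62.Diss1
import Pool.Agent.MP_ed9623_an.H65.RotB
import Pool.Agent.MP_ed9623_an.H68.Spin
import Pool.Agent.MP_ed9623_an.H70.Swirl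
import Pool.Agent.MP_ed9623_an.H72.Cid
import Pool.Agent.MP_ed9623_an.H73.Chart0
import Pool.Agent.MP_ed9623_an.H73.HypL
import Pool.Agent.MP_ed9623_an.H79.EqN
import Pool.Agent.MP_ed9623_an.H8.Stdy
import Pool.Agent.MP_ed9623_an.H82.RegI
import Pool.Agent.MP_ed9623_an.H86.DefL
import Pool.Agent.MP_ed9623_an.H87.JetZ
import Pool.Agent.MP_ed9623_an.H88.EnId
import Pool.Agent.MP_ed9623_an.H9.DefP
import Pool.Agent.MP_ed9623_an.H9.Idn
import Pool.Agent.MP_ed9623_an.H94.Zone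
import Pool.Agent.MP_ed9623_an.H97.Bdy
import Pool.Agent.MP_ed9623_an.H99.Anc
import Pool.Agent.MP_ed9623_an.H99.HypP

/-! All parts together. -/

namespace Pool.Agent.MP_ed9623_an.H77

theorem xTrI : TrIS := rowTrI rowMol1 rowMol2 wPrd
theorem xUc : UcS := rowUc (rowRc2 (rowRc1 rowMol1 rowMol2))
theorem xUcP : UcPS := rowUcP wGp wFm xUc
theorem xCrl : CrlS := rowCrl rowTh
theorem xDefP : DefPS := rowDefP rowTh wTrans xTrI xCrl (rowBdy wZt wLad wDens) (rowDefL wZt)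
theorem xGlob : GlobS := rowGlob2 rowChart0 xDefP
theorem xZ1 : Z1S := rowZ1 rowTh wHk
theorem xZ2 : Z2S := rowZ2 rowTh wZt zRep
theorem xCont : ContS := rowCont wHb wFtc wSlice (rowCf1 wSlice wZt)

theorem xExc : ExcS :=
  rowExc rowChart xUcP (rowTriA wDp) rowCl0 rowTail rowAnaZ xDefP xGlob rowCT rowSpin
    (rowCid rowCl0 (rowIdn wTrans wZt xCrl)) (rowZone rowTh xZ1 xZ2 (rowClass rowCl0)) rowJetZ
    rowStdy

theorem xCirc : CircS :=
  rowCirc rowChart rowChart0 xUcP (rowTriA wDp) xGlob rowNear2 (rowSwirl xUc rowNear2)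
    (rowRotA wPrd rowTh rowRotI) (rowRotB rowTh)
    (rowHypP rowTh wTrans xTrI (rowHypL wZt (rowRegI wHb wPrd wMix wHk wH2 wPrk) xCont
      (rowCoefH xCont) (rowEnH wPrd (rowEn2 rowG1))))
    (rowSmall wMix wZt rowTh wTrans wGp) (rowDiss1 (rowRad wPrd) rowEnId)
    (rowDiss2 (rowRad wPrd) rowEnId) rowAnc

theorem xAll : FinX :=
  finX (rowModel wLad rowCpt) rowTr1 aSmooth rowTr2 aAf rowCv aDec
    (rowUniq rowChart xUcP (rowTriA wDp)
      (rowTriB rowTh xZ1 xZ2 (rowClass rowCl0) rowTail rowAnaZ)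
      (rowAnaP rowTh wTrans (rowAnaC zRep rowCl0 zBoot)) rowClop)
    (rowTan (rowEnN aPl rowEqN) rowMaj rowTay) xExc xCirc

end Pool.Agent.MP_ed9623_an.H77
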