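import Pool.Agent.MP_ed9623_an.H1.Av
import Pool.Agent.MP_ed9623_an.H62.BootS
import Pool.Agent.MP_ed9623_an.H41.Cf1
import Pool.Agent.MP_ed9623_an.H86.Chart
import Pool.Agent.MP_ed9623_an.H71.Coef
import Pool.Agent.MP_ed9623_an.H41.Dens
import Pool.Agent.MP_ed9623_an.H44.Dp
import Pool.Agent.MP_ed9623_an.H13.DqT
import Pool.Agent.MP_ed9623_an.H19.Dqd
import Pool.Agent.MP_ed9623_an.H97.En
import Pool.Agent.MP_ed9623_an.H22.En2
import Pool.Agent.MP_ed9623_an.H37.Fm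
import Pool.Agent.MP_ed9623_an.H8.Ftc
import Pool.Agent.MP_ed9623_an.H83.G1
import Pool.Agent.MP_ed9623_an.H67.Gp
import Pool.Agent.MP_ed9623_an.H71.H2
import Pool.Agent.MP_ed9623_an.H69.Hb
import Pool.Agent.MP_ed9623_an.H65.Hk
import Pool.Agent.MP_ed9623_an.H80.L1
import Pool.Agent.MP_ed9623_an.H23.L1b
import Pool.Agent.MP_ed9623_an.H70.L2a
import Pool.Agent.MP_ed9623_an.H76.Lad
import Pool.Agent.MP_ed9623_an.H73.Loc
import Pool.Agent.MP_ed9623_an.H6.Mix
import Pool.Agent.MP_ed9623_an.H79.Mol1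
import Pool.Agent.MP_ed9623_an.H75.Mol2
import Pool.Agent.MP_ed9623_an.H50.MolH
import Pool.Agent.MP_ed9623_an.H94.Nor
import Pool.Agent.MP_ed9623_an.H35.Prd
import Pool.Agent.MP_ed9623_an.H56.Prk
import Pool.Agent.MP_ed9623_an.H37.Reg0
import Pool.Agent.MP_ed9623_an.H1.Reg3
import Pool.Agent.MP_ed9623_an.H4.Riesz
import Pool.Agent.MP_ed9623_an.H98.Scal
import Pool.Agent.MP_ed9623_an.H9.Slice
import Pool.Agent.MP_ed9623_an.H4.Th
import Pool.Agent.MP_ed9623_an.H49.Tr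
import Pool.Agent.MP_ed9623_an.H82.Trans
import Pool.Agent.MP_ed9623_an.H94.TrI
import Pool.Agent.MP_ed9623_an.H23.Zt

/-! The local part. -/

namespace Pool.Agent.MP_ed9623_an.H77

theorem wMolH : MolHS := rowMolH rowMol1 rowMol2
theorem wHb : HbS := rowHb rowRiesz
theorem wPrd : PrdS := rowPrd rowMol1 rowMol2
theorem wDqd : DqdS := rowDqd rowRiesz
theorem wFtc : FtcS := rowFtc rowMol1 rowMol2
theorem wSlice : SliceS := rowSlice wFtc
theorem wMix : MixS := rowMix wSlice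
theorem wLad : LadS := rowLad wSlice
theorem wZt : ZtS := rowZt wFtc
theorem wDens : DensS := rowDens rowMol1 rowMol2
theorem wDqT : DqTS := rowDqT rowAv
theorem wReg0 : Reg0S := rowReg0 wDens wDqT wDqd
theorem wHk : HkS := rowHk wHb wReg0 rowNor
theorem wL1 : L1S := rowL1 rowAv wLad wDqd (rowL1b rowAv wLad wDens wDqT)
theorem wLoc : LocS := rowLoc wMix wZt (rowL2a wPrd wMix rowNor) (rowReg3 wReg0 rowNor)
  (rowTr wMix wZt rowG1) (rowScal wZt) (rowCoef wMix wZt (rowCf1 wSlice wZt))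
  (rowEn wPrd (rowEn2 rowG1))
theorem wH2 : H2S := rowH2 wL1
theorem wPrk : PrkS := rowPrk wHb wPrd wMix
theorem wBootS : BootSS := rowBootS wHb wHk
theorem wTrans : TransS := rowTrans rowTh
theorem wGp : GpS := rowGp wMix wL1 rowTh wTrans
theorem wFm : FmS := rowFm wPrd
theorem wDp : DpS := rowDp rowTh wTrans wGp (rowTrI rowMol1 rowMol2 wPrd) wLoc

end Pool.Agent.MP_ed9623_an.H77
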