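import Mathlib

/-! Abstract evolution equations `d/dt j (ι U) = γ - A U - B U U` in a pair of Hilbert spaces. -/

open MeasureTheory Filter Topology Set
open scoped ContDiff InnerProductSpace

set_option linter.unusedSectionVars false

namespace Pool.Agent.MP_ed9623_an.H77

/-- Open interval. -/
def Itv (I : Set ℝ) : Prop := IsOpen I ∧ I.OrdConnected

/-- Locally square integrable on `I`. -/
def Loc2 {E : Type} [NormedAddCommGroup E] (I : Set ℝ) (Z : ℝ → E) : Prop :=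
  ∀ s ∈ I, ∀ t ∈ I, MemLp Z 2 (volume.restrict (Ioo s t))

/-- Difference quotient. -/
noncomputable def dq {E : Type} [NormedAddCommGroup E] [NormedSpace ℝ E] (h : ℝ) (z : ℝ → E) :
    ℝ → E := fun t => h⁻¹ • (z (t + h) - z t)

/-- Steklov average. -/
noncomputable def stk {E : Type} [NormedAddCommGroup E] [NormedSpace ℝ E] (h : ℝ) (G : ℝ → E) :
    ℝ → E := fun t => h⁻¹ • ∫ r in t..t + h, G r

/-- The data of the equation. -/
structure St (H V : Type) [NormedAddCommGroup H] [InnerProductSpace ℝ H] [NormedAddCommGroup V]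
    [InnerProductSpace ℝ V] where
  ι : V →L[ℝ] H
  A : V →L[ℝ] V
  B : V →L[ℝ] V →L[ℝ] V
  γ : V
  c : ℝ
  C : ℝ
  inj : Function.Injective ι
  c0 : 0 < c
  C0 : 0 ≤ C
  coer : ∀ v, c * ‖v‖ ^ 2 ≤ ⟪A v, v⟫_ℝ
  lad : ∀ u v, ‖B u v‖ ^ 2 ≤ C * (‖ι u‖ * ‖u‖ * (‖ι v‖ * ‖v‖))

/-- The data of the observed functional. -/
structure Pd (H V Y : Type) [NormedAddCommGroup H] [InnerProductSpace ℝ H] [NormedAddCommGroup V]
    [InnerProductSpace ℝ V] [NormedAddCommGroup Y] [InnerProductSpace ℝ Y] where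
  J : H →L[ℝ] Y
  A : V →L[ℝ] Y
  B : V →L[ℝ] V →L[ℝ] Y
  γ : Y

variable {H V Y : Type} [NormedAddCommGroup H] [InnerProductSpace ℝ H] [CompleteSpace H]
  [NormedAddCommGroup V] [InnerProductSpace ℝ V] [CompleteSpace V]
  [NormedAddCommGroup Y] [InnerProductSpace ℝ Y]

/-- The adjoint of `ι`. -/
noncomputable abbrev adj (ι : V →L[ℝ] H) : H →L[ℝ] V := ContinuousLinearMap.adjoint ι

/-- The right hand side. -/
noncomputable def St.G (S : St H V) (v : V) : V := S.γ - S.A v - S.B v v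

/-- The linearised right hand side. -/
noncomputable def St.G' (S : St H V) (v y : V) : V := -(S.A y + S.B y v + S.B v y)

/-- `z ∈ C(I; H)`, `z = ι Z` with `Z ∈ L²_loc(I; V)`, and `(ι* z)' = G ∈ L²_loc(I; V)`. -/
structure Lin (ι : V →L[ℝ] H) (I : Set ℝ) (z : ℝ → H) (Z G : ℝ → V) : Prop where
  cont : ContinuousOn z I
  lZ : Loc2 I Z
  lG : Loc2 I G
  lift : ∀ᵐ t, t ∈ I → ι (Z t) = z t
  eq : ∀ s ∈ I, ∀ t ∈ I, adj ι (z t) - adj ι (z s) = ∫ r in s..t, G r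

/-- Weak solution. -/
def Wk (S : St H V) (I : Set ℝ) (z : ℝ → H) (Z : ℝ → V) : Prop :=
  Lin S.ι I z Z fun t => S.G (Z t)

/-- Smooth solution. -/
def Sm (S : St H V) (I : Set ℝ) (U : ℝ → V) : Prop :=
  ContDiffOn ℝ ∞ U I ∧ ∀ t ∈ I, adj S.ι (S.ι (deriv U t)) = S.G (U t)

/-- Bounded smooth solution. -/
def Bd (S : St H V) (R : ℝ) (I : Set ℝ) (U : ℝ → V) : Prop :=
  Sm S I U ∧ ∀ t ∈ I, ‖U t‖ ≤ R ∧ ‖S.ι (deriv U t)‖ ≤ R

/-- The observed functional. -/
noncomputable def obs (S : St H V) (D : Pd H V Y) (U : ℝ → V) (t : ℝ) : Y :=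
  D.γ - D.A (U t) - D.B (U t) (U t) - D.J (S.ι (deriv U t))

/-- Its Laplace average. -/
noncomputable def lap (S : St H V) (D : Pd H V Y) (l : ℝ) (U : ℝ → V) (τ : ℝ) : Y :=
  ∫ s in Ioi (0 : ℝ), Real.exp (-(l * s)) • obs S D U (τ + s)

/-! ### Basic facts -/

section itv

variable {I J : Set ℝ} {s t : ℝ}

theorem itv_univ : Itv univ := ⟨isOpen_univ, ordConnected_univ⟩

theorem itv_Ioi (a : ℝ) : Itv (Ioi a) := ⟨isOpen_Ioi, ordConnected_Ioi⟩

theorem itv_Ioo (a b : ℝ) : Itv (Ioo a b) := ⟨isOpen_Ioo, ordConnected_Ioo⟩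

theorem Itv.inter (h : Itv I) (h' : Itv J) : Itv (I ∩ J) := ⟨h.1.inter h'.1, h.2.inter h'.2⟩

theorem Itv.shift (h : Itv I) (c : ℝ) : Itv {t | t + c ∈ I} :=
  ⟨h.1.preimage (continuous_add_const c), ⟨fun _ hx _ hy _ hz =>
    h.2.out hx hy ⟨by linarith [hz.1], by linarith [hz.2]⟩⟩⟩

theorem Itv.Icc (h : Itv I) (hs : s ∈ I) (ht : t ∈ I) : Icc s t ⊆ I := h.2.out hs ht

theorem Itv.uIcc (h : Itv I) (hs : s ∈ I) (ht : t ∈ I) : uIcc s t ⊆ I := h.2.uIcc_subset hs ht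

theorem Itv.Ioo (h : Itv I) (hs : s ∈ I) (ht : t ∈ I) : Ioo s t ⊆ I :=
  Ioo_subset_Icc_self.trans (h.Icc hs ht)

end itv

section loc

variable {E F : Type} [NormedAddCommGroup E] [NormedAddCommGroup F] {I J : Set ℝ} {Z Z' : ℝ → E}

theorem Loc2.mono (h : Loc2 I Z) (hJ : J ⊆ I) : Loc2 J Z := fun s hs t ht => h s (hJ hs) t (hJ ht)

theorem Loc2.add (h : Loc2 I Z) (h' : Loc2 I Z') : Loc2 I fun t => Z t + Z' t :=
  fun s hs t ht => (h s hs t ht).add (h' s hs t ht)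

theorem Loc2.sub (h : Loc2 I Z) (h' : Loc2 I Z') : Loc2 I fun t => Z t - Z' t :=
  fun s hs t ht => (h s hs t ht).sub (h' s hs t ht)

theorem Loc2.neg (h : Loc2 I Z) : Loc2 I fun t => -Z t := fun s hs t ht => (h s hs t ht).neg

theorem Loc2.congr (hI : Itv I) (h : Loc2 I Z) (e : ∀ᵐ t, t ∈ I → Z t = Z' t) : Loc2 I Z' :=
  fun s hs t ht => (h s hs t ht).ae_eq ((ae_restrict_iff' measurableSet_Ioo).2
    (e.mono fun _ a b => a (hI.Ioo hs ht b)))

theorem Loc2.of_cont (hI : Itv I) (h : ContinuousOn Z I) : Loc2 I Z := fun s hs t ht => by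
  obtain ⟨C, hC⟩ := isCompact_Icc.exists_bound_of_continuousOn (h.mono (hI.Icc hs ht))
  exact MemLp.of_bound ((h.mono (hI.Ioo hs ht)).aestronglyMeasurable measurableSet_Ioo) C
    ((ae_restrict_iff' measurableSet_Ioo).2 (Eventually.of_forall fun x hx =>
      hC x (Ioo_subset_Icc_self hx)))

theorem Loc2.shift (h : Loc2 I Z) (c : ℝ) : Loc2 {t | t + c ∈ I} fun t => Z (t + c) :=
  fun s hs t ht => by
    refine (h _ hs _ ht).comp_measurePreserving (f := fun t => t + c) ?_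
    have := (measurePreserving_add_right (volume : Measure ℝ) c).restrict_preimage
      (measurableSet_Ioo (a := s + c) (b := t + c))
    simpa using this

theorem Loc2.ii (h : Loc2 I Z) {s t : ℝ} (hs : s ∈ I) (ht : t ∈ I) :
    IntervalIntegrable Z volume s t :=
  ⟨(integrableOn_Ioc_iff_integrableOn_Ioo (by simp)).2 ((h s hs t ht).integrable one_le_two),
    (integrableOn_Ioc_iff_integrableOn_Ioo (by simp)).2 ((h t ht s hs).integrable one_le_two)⟩

theorem Loc2.ii_mul (h : Loc2 I Z) {W : ℝ → F} (h' : Loc2 I W) {s t : ℝ} (hs : s ∈ I)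
    (ht : t ∈ I) : IntervalIntegrable (fun r => ‖Z r‖ * ‖W r‖) volume s t :=
  ⟨(integrableOn_Ioc_iff_integrableOn_Ioo enorm_ne_top).2
      (MemLp.integrable_mul (h s hs t ht).norm (h' s hs t ht).norm),
    (integrableOn_Ioc_iff_integrableOn_Ioo enorm_ne_top).2
      (MemLp.integrable_mul (h t ht s hs).norm (h' t ht s hs).norm)⟩

theorem Loc2.ii_sq (h : Loc2 I Z) {s t : ℝ} (hs : s ∈ I) (ht : t ∈ I) :
    IntervalIntegrable (fun r => ‖Z r‖ ^ 2) volume s t := by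
  simpa only [sq] using h.ii_mul h hs ht

variable [NormedSpace ℝ E] [NormedSpace ℝ F]

theorem Loc2.clm (h : Loc2 I Z) (T : E →L[ℝ] F) : Loc2 I fun t => T (Z t) :=
  fun s hs t ht => T.comp_memLp' (h s hs t ht)

theorem Loc2.smul (h : Loc2 I Z) (c : ℝ) : Loc2 I fun t => c • Z t :=
  fun s hs t ht => (h s hs t ht).const_smul c

theorem Loc2.csmul (h : Loc2 I Z) {m : ℝ → ℝ} (hm : Continuous m) :
    Loc2 I fun t => m t • Z t := fun s hs t ht => by
  obtain ⟨C, hC⟩ := isCompact_Icc.exists_bound_of_continuousOn (hm.continuousOn (s := Icc s t))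
  refine MemLp.of_le_mul (c := C) (h s hs t ht)
    (hm.aestronglyMeasurable.smul (h s hs t ht).1) ((ae_restrict_iff' measurableSet_Ioo).2
      (Eventually.of_forall fun x hx => ?_))
  rw [norm_smul]
  exact mul_le_mul_of_nonneg_right (hC x (Ioo_subset_Icc_self hx)) (norm_nonneg _)

end loc

section lin

variable {ι : V →L[ℝ] H} {I J : Set ℝ} {z z' : ℝ → H} {Z Z' G G' : ℝ → V} {S : St H V}

theorem adj_inner (ι : V →L[ℝ] H) (x : H) (v : V) : ⟪adj ι x, v⟫_ℝ = ⟪x, ι v⟫_ℝ :=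
  ContinuousLinearMap.adjoint_inner_left ι v x

theorem Lin.mono (h : Lin ι I z Z G) (hJ : J ⊆ I) : Lin ι J z Z G :=
  ⟨h.cont.mono hJ, h.lZ.mono hJ, h.lG.mono hJ, h.lift.mono fun _ a b => a (hJ b),
    fun s hs t ht => h.eq s (hJ hs) t (hJ ht)⟩

theorem Lin.add (h : Lin ι I z Z G) (h' : Lin ι I z' Z' G') :
    Lin ι I (fun t => z t + z' t) (fun t => Z t + Z' t) fun t => G t + G' t :=
  ⟨h.cont.add h'.cont, h.lZ.add h'.lZ, h.lG.add h'.lG, by
    filter_upwards [h.lift, h'.lift] with t a b ht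
    rw [map_add, a ht, b ht], fun s hs t ht => by
    rw [intervalIntegral.integral_add (h.lG.ii hs ht) (h'.lG.ii hs ht), ← h.eq s hs t ht,
      ← h'.eq s hs t ht, map_add, map_add]
    abel⟩

theorem Lin.smul (h : Lin ι I z Z G) (c : ℝ) :
    Lin ι I (fun t => c • z t) (fun t => c • Z t) fun t => c • G t :=
  ⟨h.cont.const_smul c, h.lZ.smul c, h.lG.smul c, by
    filter_upwards [h.lift] with t a ht
    rw [map_smul, a ht], fun s hs t ht => by
    rw [intervalIntegral.integral_smul, ← h.eq s hs t ht, map_smul, map_smul, smul_sub]⟩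

theorem Lin.sub (h : Lin ι I z Z G) (h' : Lin ι I z' Z' G') :
    Lin ι I (fun t => z t - z' t) (fun t => Z t - Z' t) fun t => G t - G' t := by
  simpa only [neg_one_smul, ← sub_eq_add_neg] using h.add (h'.smul (-1))

theorem Lin.shift (h : Lin ι I z Z G) (c : ℝ) :
    Lin ι {t | t + c ∈ I} (fun t => z (t + c)) (fun t => Z (t + c)) fun t => G (t + c) :=
  ⟨h.cont.comp (continuous_add_const c).continuousOn fun _ ht => ht, h.lZ.shift c, h.lG.shift c,
    (measurePreserving_add_right (volume : Measure ℝ) c).quasiMeasurePreserving.ae h.lift,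
    fun s hs t ht => by rw [intervalIntegral.integral_comp_add_right, h.eq _ hs _ ht]⟩

theorem Lin.congr (hI : Itv I) (h : Lin ι I z Z G) (e : ∀ᵐ t, t ∈ I → G t = G' t) :
    Lin ι I z Z G' :=
  ⟨h.cont, h.lZ, h.lG.congr hI e, h.lift, fun s hs t ht => by
    rw [h.eq s hs t ht]
    exact intervalIntegral.integral_congr_ae (e.mono fun _ a b =>
      a (hI.uIcc hs ht (uIoc_subset_uIcc b)))⟩

/-- Difference quotients of a solution. -/
theorem Lin.dq (h : Lin ι I z Z G) (c : ℝ) :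
    Lin ι (I ∩ {t | t + c ∈ I}) (dq c z) (dq c Z) (dq c G) :=
  (((h.shift c).mono inter_subset_right).sub (h.mono inter_subset_left)).smul c⁻¹

/-- The quadratic term is locally square integrable. -/
theorem St.loc2_B (S : St H V) (hI : Itv I) (hz : ContinuousOn z I) (hz' : ContinuousOn z' I)
    (hZ : Loc2 I Z) (hZ' : Loc2 I Z') (e : ∀ᵐ t, t ∈ I → S.ι (Z t) = z t)
    (e' : ∀ᵐ t, t ∈ I → S.ι (Z' t) = z' t) : Loc2 I fun t => S.B (Z t) (Z' t) := by
  intro s hs t ht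
  obtain ⟨C, hC⟩ := isCompact_Icc.exists_bound_of_continuousOn (hz.mono (hI.Icc hs ht))
  obtain ⟨C', hC'⟩ := isCompact_Icc.exists_bound_of_continuousOn (hz'.mono (hI.Icc hs ht))
  have m := S.B.aestronglyMeasurable_comp₂ (hZ s hs t ht).1 (hZ' s hs t ht).1
  refine (memLp_two_iff_integrable_sq_norm m).2 (Integrable.mono'
    ((MemLp.integrable_mul (hZ s hs t ht).norm (hZ' s hs t ht).norm).const_mul (S.C * (C * C')))
    (m.norm.pow 2) ((ae_restrict_iff' measurableSet_Ioo).2 ?_))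
  filter_upwards [e, e'] with r a b hr
  have h1 := hC r (Ioo_subset_Icc_self hr)
  have h2 := hC' r (Ioo_subset_Icc_self hr)
  rw [← a (hI.Ioo hs ht hr)] at h1
  rw [← b (hI.Ioo hs ht hr)] at h2
  rw [Real.norm_eq_abs, abs_of_nonneg (sq_nonneg _), mul_assoc]
  refine (S.lad _ _).trans (mul_le_mul_of_nonneg_left ?_ S.C0)
  have := mul_le_mul h1 h2 (norm_nonneg _) ((norm_nonneg _).trans h1)
  have := mul_le_mul_of_nonneg_right this (mul_nonneg (norm_nonneg (Z r)) (norm_nonneg (Z' r)))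
  simp only [Pi.mul_apply]
  linarith

theorem young_aux {b x k y C ε : ℝ} (hε : 0 < ε) (h : b ^ 2 ≤ C * (k * (y * x))) :
    b * x ≤ ε * x ^ 2 + C ^ 2 / ε ^ 3 * (k ^ 2 * y ^ 2) := by
  have h1 : ε ^ 3 * (b * x) ≤ ε ^ 3 * (ε * x ^ 2) + C ^ 2 * (k ^ 2 * y ^ 2) := by
    have a1 := mul_le_mul_of_nonneg_left h (sq_nonneg ε)
    nlinarith [mul_nonneg (sq_nonneg ε) (sq_nonneg (b - ε * x)),
      sq_nonneg (ε ^ 2 * x - C * (k * y)), sq_nonneg (C * (k * y)), sq_nonneg (ε ^ 2 * x)]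
  have h2 : 0 < ε ^ 3 := by positivity
  rw [div_mul_eq_mul_div, ← sub_le_iff_le_add', le_div_iff₀ h2]
  linarith

theorem St.young (S : St H V) {ε : ℝ} (hε : 0 < ε) (v y : V) :
    ‖S.B y v‖ * ‖y‖ ≤ ε * ‖y‖ ^ 2 + S.C ^ 2 / ε ^ 3 * ((‖S.ι v‖ * ‖v‖) ^ 2 * ‖S.ι y‖ ^ 2) :=
  young_aux hε ((S.lad y v).trans_eq (by ring))

theorem St.young' (S : St H V) {ε : ℝ} (hε : 0 < ε) (v y : V) :
    ‖S.B v y‖ * ‖y‖ ≤ ε * ‖y‖ ^ 2 + S.C ^ 2 / ε ^ 3 * ((‖S.ι v‖ * ‖v‖) ^ 2 * ‖S.ι y‖ ^ 2) :=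
  young_aux hε (S.lad v y)

theorem St.cont_G (S : St H V) : Continuous S.G := by
  unfold St.G
  fun_prop

theorem St.G_sub (S : St H V) (u v : V) :
    S.G u - S.G v = -(S.A (u - v) + S.B (u - v) u + S.B v (u - v)) := by
  simp only [St.G, map_sub, sub_apply]
  abel

end lin

section sm

variable {S : St H V} {I J : Set ℝ} {U : ℝ → V} {R : ℝ}

theorem Sm.mono (h : Sm S I U) (hJ : J ⊆ I) : Sm S J U := ⟨h.1.mono hJ, fun t ht => h.2 t (hJ ht)⟩

theorem Sm.hasDerivAt (h : Sm S I U) (hI : IsOpen I) {t : ℝ} (ht : t ∈ I) :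
    HasDerivAt U (deriv U t) t :=
  ((h.1.contDiffAt (hI.mem_nhds ht)).differentiableAt (by simp)).hasDerivAt

theorem Sm.cont_deriv (h : Sm S I U) (hI : IsOpen I) : ContinuousOn (deriv U) I :=
  h.1.continuousOn_deriv_of_isOpen hI (by simp)

theorem Sm.shift (h : Sm S I U) (c : ℝ) : Sm S {t | t + c ∈ I} fun t => U (t + c) :=
  ⟨h.1.comp (contDiff_id.add contDiff_const).contDiffOn fun _ ht => ht, fun t ht => by
    rw [deriv_comp_add_const]; exact h.2 _ ht⟩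

theorem Sm.wk (h : Sm S I U) (hI : Itv I) : Wk S I (fun t => S.ι (U t)) U := by
  have c := h.1.continuousOn
  have cG : ContinuousOn (fun t => S.G (U t)) I := S.cont_G.comp_continuousOn c
  refine ⟨S.ι.continuous.comp_continuousOn c, Loc2.of_cont hI c, Loc2.of_cont hI cG,
    Eventually.of_forall fun _ _ => rfl, fun s hs t ht => ?_⟩
  refine (intervalIntegral.integral_eq_sub_of_hasDerivAt (f := fun t => adj S.ι (S.ι (U t)))
    (fun r hr => ?_) ((cG.mono (hI.uIcc hs ht)).intervalIntegrable)).symm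
  have hr' := hI.uIcc hs ht hr
  rw [← h.2 r hr']
  exact (adj S.ι).hasFDerivAt.comp_hasDerivAt r
    (S.ι.hasFDerivAt.comp_hasDerivAt r (h.hasDerivAt hI.1 hr'))

theorem Bd.mono (h : Bd S R I U) (hJ : J ⊆ I) : Bd S R J U :=
  ⟨h.1.mono hJ, fun t ht => h.2 t (hJ ht)⟩

theorem Bd.shift (h : Bd S R I U) (c : ℝ) : Bd S R {t | t + c ∈ I} fun t => U (t + c) :=
  ⟨h.1.shift c, fun t ht => by rw [deriv_comp_add_const]; exact h.2 _ ht⟩

theorem Bd.shift_univ (h : Bd S R univ U) (c : ℝ) : Bd S R univ fun t => U (t + c) := h.shift c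

theorem obs_shift (D : Pd H V Y) (U : ℝ → V) (c t : ℝ) :
    obs S D (fun t => U (t + c)) t = obs S D U (t + c) := by
  simp only [obs, deriv_comp_add_const]

theorem lap_shift (D : Pd H V Y) (l : ℝ) (U : ℝ → V) (c t : ℝ) :
    lap S D l (fun t => U (t + c)) t = lap S D l U (t + c) := by
  simp only [lap, obs_shift, add_right_comm]

end sm

end Pool.Agent.MP_ed9623_an.H77
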