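import Pool.Agent.MP_ed9623_an.H77.AllA
import Pool.Agent.MP_ed9623_an.H77.AllW
import Pool.Agent.MP_ed9623_an.H77.Fin
import Pool.Agent.MP_ed9623_an.H92.Cpt
import Pool.Agent.MP_ed9623_an.H36.Model
import Pool.Agent.MP_ed9623_an.H22.Tr1
import Pool.Agent.MP_ed9623_an.H23.Tr2
import Pool.Agent.MP_ed9623_an.H41.Rc1
import Pool.Agent.MP_ed9623_an.H76.Uc
import Pool.Agent.MP_ed9623_an.H57.UcP
import Pool.Agent.MP_ed9623_an.H79.RepA
import Pool.Agent.MP_ed9623_an.H23.RepB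
import Pool.Agent.MP_ed9623_an.H67.Rep
import Pool.Agent.MP_ed9623_an.H80.Cl0
import Pool.Agent.MP_ed9623_an.H62.Z1
import Pool.Agent.MP_ed9623_an.H86.Z2
import Pool.Agent.MP_ed9623_an.H19.Class
import Pool.Agent.MP_ed9623_an.H69.AnaZ
import Pool.Agent.MP_ed9623_an.H1.TriA
import Pool.Agent.MP_ed9623_an.H52.JetEq
import Pool.Agent.MP_ed9623_an.H94.Boot0
import Pool.Agent.MP_ed9623_an.H44.Boot
import Pool.Agent.MP_ed9623_an.H73.AnaP
import Pool.Agent.MP_ed9623_an.H50.Clop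
import Pool.Agent.MP_ed9623_an.H29.Uniq
import Pool.Agent.MP_ed9623_an.H99.Tail
import Pool.Agent.MP_ed9623_an.H27.Cv
import Pool.Agent.MP_ed9623_an.H8.Rc2
import Pool.Agent.MP_ed9623_an.H23.TriB
import Pool.Agent.MP_ed9623_an.H14.AnaC

/-! All parts together. -/

namespace Pool.Agent.MP_ed9623_an.H77

theorem zRep : RepS := rowRep (rowRepA rowMol1 rowMol2 wMolH wHb wMix) rowRepB

theorem zBoot : BootS :=
  rowBoot wHb wPrd wPrk wBootS rowJetEq (rowBoot0 wHb wPrd wMix wH2 rowJetEq)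

theorem zAll : FinS :=
  fin (rowModel wLad rowCpt) rowTr1 aSmooth rowTr2 aAf rowCv aDec
    (rowUniq rowChart (rowUcP wGp wFm (rowUc (rowRc2 (rowRc1 rowMol1 rowMol2)))) (rowTriA wDp)
      (rowTriB rowTh (rowZ1 rowTh wHk) (rowZ2 rowTh wZt zRep) (rowClass rowCl0) rowTail rowAnaZ)
      (rowAnaP rowTh wTrans (rowAnaC zRep rowCl0 zBoot)) rowClop)

end Pool.Agent.MP_ed9623_an.H77
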