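import Pool.Agent.MP_ed9623_an.H76.Abs
import Pool.Agent.MP_ed9623_an.H35.Af
import Pool.Agent.MP_ed9623_an.H16.Cov
import Pool.Agent.MP_ed9623_an.H10.Dbl
import Pool.Agent.MP_ed9623_an.H99.Dec
import Pool.Agent.MP_ed9623_an.H51.Der
import Pool.Agent.MP_ed9623_an.H70.Dq1
import Pool.Agent.MP_ed9623_an.H5.Dq2
import Pool.Agent.MP_ed9623_an.H73.Ehr
import Pool.Agent.MP_ed9623_an.H62.Fwd
import Pool.Agent.MP_ed9623_an.H74.Hol
import Pool.Agent.MP_ed9623_an.H55.Lap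
import Pool.Agent.MP_ed9623_an.H9.Lim
import Pool.Agent.MP_ed9623_an.H41.Lm
import Pool.Agent.MP_ed9623_an.H86.Pl
import Pool.Agent.MP_ed9623_an.H1.Smooth
import Pool.Agent.MP_ed9623_an.H14.Stek
import Pool.Agent.MP_ed9623_an.H45.Wt

/-! The abstract part. -/

namespace Pool.Agent.MP_ed9623_an.H77

theorem aPl : PlS := rowPl (lm stek)

theorem aSmooth : SmoothS := smooth (rowDer stek (rowDq2 stek aPl wt (rowDq1 stek aPl wt))) dbl

theorem aAf : AfS := af (rowAbs aPl wt) fwd (lim rowHol aSmooth) (cov fwd rowEhr) (rowLap fwd)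

theorem aDec : DecS := rowDec

end Pool.Agent.MP_ed9623_an.H77
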