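import Pool.Agent.MP_ed9623_an.H77.Defs
import Pool.Agent.MP_ed9623_an.H64.Carl2

/-! Square integrable functions in the plane, weak derivatives and test functions. -/

open MeasureTheory Filter Topology Set
open scoped ContDiff

namespace Pool.Agent.MP_ed9623_an.H77

open H64

abbrev P : Type := ℝ × ℝ

instance haarP : (volume : Measure P).IsAddHaarMeasure := haar2

abbrev L : Type := Lp ℝ 2 (volume : Measure P)

/-- Square integrable on the plane. -/
def M2 (f : P → ℝ) : Prop := MemLp f 2 volume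

/-- The `L²` norm. -/
noncomputable def nm (f : P → ℝ) : ℝ := √(∫ x, f x ^ 2)

/-- `f` vanishes almost everywhere on `N`. -/
def Van (N : Set P) (f : P → ℝ) : Prop := ∀ᵐ p, p ∈ N → f p = 0

/-- `g` is the weak derivative of `f` along `e` on `O`. -/
def WD (O : Set P) (e : P) (f g : P → ℝ) : Prop :=
  ∀ φ, Test O φ → ∫ x, f x * pd e φ x = -∫ x, g x * φ x

/-- Open box. -/
def Bx (a b c d : ℝ) : Set P := Ioo a b ×ˢ Ioo c d

/-- Open square. -/
def Q (r : ℝ) : Set P := Bx (-r) r (-r) r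

/-- The part of the square above the level `σ`. -/
def Qp (σ r : ℝ) : Set P := Q r ∩ {p | σ < p.2}

/-- Profile of a shear. -/
structure Gam (γ : ℝ → ℝ) : Prop where
  sm : ContDiff ℝ ∞ γ
  cs : HasCompactSupport γ

/-- The derivatives `D₁ = ∂_y - γ' ∂_s`, `D₂ = ∂_s`. -/
noncomputable def dd (γ : ℝ → ℝ) (i : Fin 2) (φ : P → ℝ) : P → ℝ :=
  ![fun p => pd (ee 0) φ p - deriv γ p.1 * pd (ee 1) φ p, pd (ee 1) φ] i

/-- `f ∈ H¹(O)` with `D`-gradient `d`. -/
structure H1O (O : Set P) (γ : ℝ → ℝ) (f : P → ℝ) (d : Fin 2 → P → ℝ) : Prop where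
  m : M2 f
  md : ∀ i, M2 (d i)
  w : ∀ i φ, Test O φ → ∫ x, f x * dd γ i φ x = -∫ x, d i x * φ x

/-- `f ∈ H¹(ℝ²)` with `D`-gradient `d`. -/
abbrev H1 (γ : ℝ → ℝ) (f : P → ℝ) (d : Fin 2 → P → ℝ) : Prop := H1O univ γ f d

/-- Divergence-free `H¹` field, `d j i = D_i v_j`. -/
structure VF (γ : ℝ → ℝ) (v : Fin 2 → P → ℝ) (d : Fin 2 → Fin 2 → P → ℝ) : Prop where
  h1 : ∀ j, H1 γ (v j) (d j)
  dv : ∀ᵐ p, d 0 0 p + d 1 1 p = 0

/-- Bounds for a field and its gradient. -/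
def Nb (R : ℝ) (v : Fin 2 → P → ℝ) (d : Fin 2 → Fin 2 → P → ℝ) : Prop :=
  ∀ j, nm (v j) ≤ R ∧ ∀ i, nm (d j i) ≤ R

/-- Iterated partial derivatives of a test function. -/
noncomputable def DL (l : List (Fin 2)) (φ : P → ℝ) : P → ℝ :=
  l.foldr (fun i ψ => pd (ee i) ψ) φ

/-- All weak derivatives of order at most `k` have `L²(O)` norm at most `R`. -/
def HB (O : Set P) (k : ℕ) (f : P → ℝ) (R : ℝ) : Prop :=
  ∀ l : List (Fin 2), l.length ≤ k → ∀ φ, Test O φ → |∫ x, f x * DL l φ x| ≤ R * nm φ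

/-- Translation in the first variable. -/
def sh (h : ℝ) (f : P → ℝ) : P → ℝ := fun p => f (p.1 + h, p.2)

/-- Difference in the first variable. -/
def dl (h : ℝ) (f : P → ℝ) : P → ℝ := fun p => f (p.1 + h, p.2) - f p

/-- Integral over a segment in the first variable. -/
noncomputable def av (h : ℝ) (f : P → ℝ) : P → ℝ := fun p => ∫ r in (0 : ℝ)..h, f (p.1 + r, p.2)

/-- Mollifying kernel. -/
def Ker (ε : ℝ) (k : P → ℝ) : Prop :=
  Test (Metric.ball 0 ε) k ∧ (∀ x, 0 ≤ k x) ∧ ∫ x, k x = 1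

/-- Convolution. -/
noncomputable def mol (k f : P → ℝ) (x : P) : ℝ := ∫ z, f z * k (x - z)

/-- Square integral over a horizontal segment. -/
noncomputable def slY (a b : ℝ) (f : P → ℝ) (s : ℝ) : ℝ := ∫ y in Ioo a b, f (y, s) ^ 2

/-- Square integral over a vertical segment. -/
noncomputable def slS (c d : ℝ) (f : P → ℝ) (y : ℝ) : ℝ := ∫ s in Ioo c d, f (y, s) ^ 2

noncomputable def ip (z ζ : Fin 2 → P → ℝ) : ℝ := ∑ j, ∫ x, z j x * ζ j x

noncomputable def di (γ : ℝ → ℝ) (d : Fin 2 → Fin 2 → P → ℝ) (ζ : Fin 2 → P → ℝ) : ℝ :=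
  ∑ j, ∑ i, ∫ x, d j i x * dd γ i (ζ j) x

noncomputable def tl (γ : ℝ → ℝ) (a w ζ : Fin 2 → P → ℝ) : ℝ :=
  ∑ j, ∑ i, ∫ x, a i x * w j x * dd γ i (ζ j) x

noncomputable def perp (γ : ℝ → ℝ) (θ : P → ℝ) : Fin 2 → P → ℝ :=
  ![fun p => -dd γ 1 θ p, dd γ 0 θ]

noncomputable def grad (γ : ℝ → ℝ) (h : P → ℝ) : Fin 2 → P → ℝ := fun i => dd γ i h

/-- The equation of the half difference, without pressure. -/
def E1 (γ : ℝ → ℝ) (a w : Fin 2 → P → ℝ) (dw : Fin 2 → Fin 2 → P → ℝ) (z ζ : Fin 2 → P → ℝ) :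
    Prop := ip z ζ + di γ dw ζ - tl γ a w ζ - tl γ w a ζ = 0

/-- The stationary form of the system, tested with a stream function. -/
def E2 (γ : ℝ → ℝ) (ϑ : ℝ) (u : Fin 2 → P → ℝ) (du : Fin 2 → Fin 2 → P → ℝ)
    (f : Fin 2 → P → ℝ) (θ : P → ℝ) : Prop :=
  di γ du (perp γ θ) - ϑ * tl γ u u (perp γ θ) = ip f (perp γ θ)

/-! ### Norm -/

section norm

variable {f g m : P → ℝ}

theorem M2.int_mul (hf : M2 f) (hg : M2 g) : Integrable (fun x => f x * g x) :=
  MemLp.integrable_mul hf hg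

theorem M2.int_sq (hf : M2 f) : Integrable (fun x => f x ^ 2) := by
  simpa [sq] using hf.int_mul hf

theorem M2.meas (hf : M2 f) : AEStronglyMeasurable f volume := hf.aestronglyMeasurable

theorem M2.add (hf : M2 f) (hg : M2 g) : M2 fun x => f x + g x := MemLp.add hf hg

theorem M2.sub (hf : M2 f) (hg : M2 g) : M2 fun x => f x - g x := MemLp.sub hf hg

theorem M2.neg (hf : M2 f) : M2 fun x => -f x := MemLp.neg hf

theorem M2.cmul (hf : M2 f) (c : ℝ) : M2 fun x => c * f x := MemLp.const_mul hf c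

theorem M2.zero : M2 fun _ => 0 := MemLp.zero

theorem M2.congr (hf : M2 f) (h : f =ᵐ[volume] g) : M2 g := MemLp.ae_eq h hf

theorem M2.of_le (hg : M2 g) (hf : AEStronglyMeasurable f volume)
    (h : ∀ᵐ x, |f x| ≤ |g x|) : M2 f := MemLp.of_le hg hf h

theorem M2.of_int (hf : AEStronglyMeasurable f volume) (h : Integrable fun x => f x ^ 2) : M2 f :=
  (memLp_two_iff_integrable_sq hf).2 h

theorem M2.bmul (hf : M2 f) (hm : AEStronglyMeasurable m volume) {C : ℝ}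
    (h : ∀ᵐ x, |m x| ≤ C) : M2 fun x => m x * f x := by
  refine (hf.cmul C).of_le (hm.mul hf.meas) (h.mono fun x hx => ?_)
  rw [abs_mul, abs_mul]
  exact mul_le_mul_of_nonneg_right (hx.trans (le_abs_self _)) (abs_nonneg _)

theorem M2.ind (hf : M2 f) {O : Set P} (hO : MeasurableSet O) : M2 (O.indicator f) :=
  MemLp.indicator hO hf

theorem M2.coe (ξ : L) : M2 ξ := Lp.memLp ξ

theorem M2.loc (hf : M2 f) : LocallyIntegrable f volume :=
  MemLp.locallyIntegrable hf (by norm_num)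

theorem nm_nonneg (f : P → ℝ) : 0 ≤ nm f := Real.sqrt_nonneg _

theorem nm_sq (f : P → ℝ) : nm f ^ 2 = ∫ x, f x ^ 2 :=
  Real.sq_sqrt (integral_nonneg fun _ => sq_nonneg _)

theorem nm_congr (h : f =ᵐ[volume] g) : nm f = nm g := by
  unfold nm
  rw [integral_congr_ae (h.mono fun x hx => by rw [hx])]

theorem nm_zero : nm (fun _ => 0) = 0 := by simp [nm]

theorem inner_L (ξ η : L) : inner ℝ ξ η = ∫ x, ξ x * η x := by
  rw [L2.inner_def]
  exact integral_congr_ae (Eventually.of_forall fun x => by simp [mul_comm])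

theorem nm_coe (ξ : L) : nm ξ = ‖ξ‖ := by
  rw [nm, ← Real.sqrt_sq (norm_nonneg ξ), ← real_inner_self_eq_norm_sq, inner_L]
  simp only [sq]

theorem nm_toLp (hf : M2 f) : ‖MemLp.toLp f hf‖ = nm f := by
  rw [← nm_coe, nm_congr hf.coeFn_toLp]

theorem inner_toL (hf : M2 f) (hg : M2 g) :
    inner ℝ (MemLp.toLp f hf) (MemLp.toLp g hg) = ∫ x, f x * g x := by
  rw [inner_L]
  refine integral_congr_ae ?_
  filter_upwards [hf.coeFn_toLp, hg.coeFn_toLp] with x a b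
  rw [a, b]

theorem abs_int_le (hf : M2 f) (hg : M2 g) : |∫ x, f x * g x| ≤ nm f * nm g := by
  rw [← inner_toL hf hg, ← nm_toLp hf, ← nm_toLp hg]
  exact abs_real_inner_le_norm _ _

theorem nm_add_le (hf : M2 f) (hg : M2 g) : nm (fun x => f x + g x) ≤ nm f + nm g := by
  rw [← nm_toLp hf, ← nm_toLp hg, ← nm_toLp (hf.add hg)]
  exact norm_add_le (MemLp.toLp f hf) (MemLp.toLp g hg)

theorem nm_neg (f : P → ℝ) : nm (fun x => -f x) = nm f := by simp [nm]

theorem nm_sub_le (hf : M2 f) (hg : M2 g) : nm (fun x => f x - g x) ≤ nm f + nm g := by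
  simpa only [sub_eq_add_neg, nm_neg] using nm_add_le hf hg.neg

theorem nm_sub_comm (f g : P → ℝ) : nm (fun x => f x - g x) = nm fun x => g x - f x := by
  rw [← nm_neg]; simp

theorem nm_cmul (c : ℝ) (f : P → ℝ) : nm (fun x => c * f x) = |c| * nm f := by
  simp only [nm, mul_pow]
  rw [integral_const_mul, Real.sqrt_mul (sq_nonneg c), Real.sqrt_sq_eq_abs]

theorem nm_mono (hg : M2 g) (h : ∀ᵐ x, |f x| ≤ |g x|) : nm f ≤ nm g :=
  Real.sqrt_le_sqrt (integral_mono_of_nonneg (Eventually.of_forall fun _ => sq_nonneg _) hg.int_sq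
    (h.mono fun _ hx => sq_le_sq.2 hx))

theorem nm_bmul (hf : M2 f) {C : ℝ} (hC : 0 ≤ C) (h : ∀ᵐ x, |m x| ≤ C) :
    nm (fun x => m x * f x) ≤ C * nm f := by
  refine (nm_mono (hf.cmul C) (h.mono fun x hx => ?_)).trans (by rw [nm_cmul, abs_of_nonneg hC])
  rw [abs_mul, abs_mul, abs_of_nonneg hC]
  exact mul_le_mul_of_nonneg_right hx (abs_nonneg _)

theorem nm_ind_le (hf : M2 f) (O : Set P) : nm (O.indicator f) ≤ nm f :=
  nm_mono hf (Eventually.of_forall fun x => by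
    by_cases h : x ∈ O <;> simp [h])

theorem nm_eq_zero (hf : M2 f) (h : nm f = 0) : f =ᵐ[volume] fun _ => 0 := by
  rw [← nm_toLp hf, norm_eq_zero] at h
  have := hf.coeFn_toLp
  rw [h] at this
  exact this.symm.trans (Lp.coeFn_zero _ _ _)

end norm

/-! ### Test functions -/

section test

variable {O O' : Set P} {φ ψ m : P → ℝ} {γ : ℝ → ℝ}

theorem sm_pd (h : ContDiff ℝ ∞ φ) (e : P) : ContDiff ℝ ∞ (pd e φ) :=
  contDiff_infty.2 fun n => contDiff_pd e (contDiff_infty.1 h (n + 1))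

theorem sm_diff (h : ContDiff ℝ ∞ φ) (x : P) : DifferentiableAt ℝ φ x :=
  h.differentiable (by simp) x

theorem Test.mono (h : Test O φ) (hO : O ⊆ O') : Test O' φ := ⟨h.1, h.2.1, h.2.2.trans hO⟩

theorem Test.top (h : Test O φ) : Test univ φ := h.mono (subset_univ _)

theorem Test.ct (h : Test O φ) : Continuous φ := h.1.continuous

theorem Test.m2 (h : Test O φ) : M2 φ := h.ct.memLp_of_hasCompactSupport h.2.1

theorem Test.off (h : Test O φ) {x : P} (hx : x ∉ O) : φ x = 0 :=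
  image_eq_zero_of_notMem_tsupport fun h' => hx (h.2.2 h')

theorem Test.bd (h : Test O φ) : ∃ C, 0 ≤ C ∧ ∀ x, |φ x| ≤ C := by
  obtain ⟨C, hC⟩ := h.ct.bounded_above_of_compact_support h.2.1
  exact ⟨C, (norm_nonneg _).trans (hC 0), hC⟩

theorem tsupport_pd (e : P) (φ : P → ℝ) : tsupport (pd e φ) ⊆ tsupport φ := by
  refine closure_minimal (fun x hx => ?_) (isClosed_tsupport φ)
  by_contra h
  exact hx (by rw [pd_congr_pt e (notMem_tsupport_iff_eventuallyEq.1 h)]; exact pd_const e x 0)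

theorem Test.of_sub (h : Test O φ) (hψ : ContDiff ℝ ∞ ψ) (hs : tsupport ψ ⊆ tsupport φ) :
    Test O ψ := ⟨hψ, h.2.1.of_isClosed_subset (isClosed_tsupport ψ) hs, hs.trans h.2.2⟩

theorem Test.pd (h : Test O φ) (e : P) : Test O (pd e φ) := h.of_sub (sm_pd h.1 e) (tsupport_pd e φ)

theorem Test.smul (h : Test O φ) (hm : ContDiff ℝ ∞ m) : Test O fun x => m x * φ x :=
  h.of_sub (hm.mul h.1) tsupport_mul_subset_right

theorem Test.muls (h : Test O φ) (hm : ContDiff ℝ ∞ m) : Test O fun x => φ x * m x :=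
  h.of_sub (h.1.mul hm) tsupport_mul_subset_left

theorem Test.cmul (h : Test O φ) (c : ℝ) : Test O fun x => c * φ x := h.smul contDiff_const

theorem Test.neg (h : Test O φ) : Test O fun x => -φ x := by simpa using h.cmul (-1)

theorem Test.add (h : Test O φ) (h' : Test O ψ) : Test O fun x => φ x + ψ x :=
  ⟨h.1.add h'.1, h.2.1.add h'.2.1, (tsupport_add φ ψ).trans (union_subset h.2.2 h'.2.2)⟩

theorem Test.sub (h : Test O φ) (h' : Test O ψ) : Test O fun x => φ x - ψ x := by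
  simpa only [sub_eq_add_neg] using h.add h'.neg

theorem Test.zero (O : Set P) : Test O fun _ => 0 :=
  ⟨contDiff_const, HasCompactSupport.zero, by simp⟩

theorem Test.DL (h : Test O φ) (l : List (Fin 2)) : Test O (DL l φ) := by
  induction l with
  | nil => exact h
  | cons i l ih => exact ih.pd _

theorem DL_nil (φ : P → ℝ) : DL [] φ = φ := rfl

theorem DL_cons (i : Fin 2) (l : List (Fin 2)) (φ : P → ℝ) : DL (i :: l) φ = pd (ee i) (DL l φ) := rfl

/-- A cut-off function. -/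
theorem exists_cut {K : Set P} (hK : IsCompact K) (hO : IsOpen O) (h : K ⊆ O) :
    ∃ χ, Test O χ ∧ (∀ x, 0 ≤ χ x ∧ χ x ≤ 1) ∧ ∀ᶠ x in 𝓝ˢ K, χ x = 1 := by
  obtain ⟨K', hK', h1, h2⟩ := exists_compact_between hK hO h
  obtain ⟨K'', hK'', h3, h4⟩ := exists_compact_between hK' hO h2
  obtain ⟨f, f0, f1, f2⟩ := exists_contMDiffMap_zero_one_of_isClosed (n := ⊤)
    (modelWithCornersSelf ℝ P) (isOpen_interior (s := K'')).isClosed_compl hK'.isClosed
    (disjoint_compl_left_iff_subset.2 h3)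
  have hs : tsupport f ⊆ K'' := closure_minimal (fun x hx => by
    by_contra h5
    exact hx (f0 fun h6 => h5 (interior_subset h6))) hK''.isClosed
  exact ⟨f, ⟨f.contMDiff.contDiff, hK''.of_isClosed_subset (isClosed_tsupport _) hs, hs.trans h4⟩,
    fun x => f2 x, mem_of_superset (isOpen_interior.mem_nhdsSet.2 h1) fun x hx =>
      f1 (interior_subset hx)⟩

theorem Gam.zero : Gam fun _ => 0 := ⟨contDiff_const, HasCompactSupport.zero⟩

theorem Gam.deriv (h : Gam γ) : Gam (deriv γ) :=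
  ⟨(contDiff_infty_iff_deriv.1 h.sm).2, h.cs.deriv⟩

theorem Gam.bd (h : Gam γ) : ∃ C, 0 ≤ C ∧ ∀ y, |γ y| ≤ C := by
  obtain ⟨C, hC⟩ := h.sm.continuous.bounded_above_of_compact_support h.cs
  exact ⟨C, (norm_nonneg _).trans (hC 0), hC⟩

theorem Gam.hasDerivAt (h : Gam γ) (y : ℝ) : HasDerivAt γ (_root_.deriv γ y) y :=
  (h.sm.differentiable (by simp) y).hasDerivAt

theorem Gam.lip (h : Gam γ) : ∃ C, 0 ≤ C ∧ ∀ y t, |γ (y + t) - γ y| ≤ C * |t| := by
  obtain ⟨C, c0, hC⟩ := h.deriv.bd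
  refine ⟨C, c0, fun y t => ?_⟩
  simpa using convex_univ.norm_image_sub_le_of_norm_hasDerivWithin_le (f := γ) (C := C)
    (fun x _ => (h.hasDerivAt x).hasDerivWithinAt) (fun x _ => hC x) (mem_univ y) (mem_univ (y + t))

theorem Gam.smP (h : Gam γ) : ContDiff ℝ ∞ fun p : P => γ p.1 := h.sm.comp contDiff_fst

theorem Gam.meas (h : Gam γ) : AEStronglyMeasurable (fun p : P => γ p.1) volume :=
  h.smP.continuous.aestronglyMeasurable

theorem Gam.pd0 (h : Gam γ) (p : P) : pd (ee 0) (fun p : P => γ p.1) p = _root_.deriv γ p.1 := by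
  refine HD.pd_eq ?_ (sm_diff h.smP p)
  have := (h.hasDerivAt (p.1 + 0)).comp (0 : ℝ) ((hasDerivAt_id (0 : ℝ)).const_add p.1)
  simpa [HD, ee, Function.comp_def] using this

theorem Gam.pd1 (h : Gam γ) (p : P) : pd (ee 1) (fun p : P => γ p.1) p = 0 := by
  refine HD.pd_eq ?_ (sm_diff h.smP p)
  simpa [HD, ee] using hasDerivAt_const (0 : ℝ) (γ p.1)

theorem M2.gmul {f : P → ℝ} (hf : M2 f) (h : Gam γ) : M2 fun p => γ p.1 * f p := by
  obtain ⟨C, -, hC⟩ := h.bd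
  exact hf.bmul h.meas (Eventually.of_forall fun p => hC p.1)

theorem dd0 (γ : ℝ → ℝ) (φ : P → ℝ) (p : P) :
    dd γ 0 φ p = pd (ee 0) φ p - deriv γ p.1 * pd (ee 1) φ p := rfl

theorem dd1 (γ : ℝ → ℝ) (φ : P → ℝ) : dd γ 1 φ = pd (ee 1) φ := rfl

theorem dd_zero (i : Fin 2) (φ : P → ℝ) : dd (fun _ => 0) i φ = pd (ee i) φ := by
  fin_cases i
  · funext p; simp [dd]
  · rfl

theorem Test.dd (h : Test O φ) (hγ : Gam γ) (i : Fin 2) : Test O (dd γ i φ) := by
  fin_cases i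
  · exact (h.pd _).sub ((h.pd _).smul hγ.deriv.smP)
  · exact h.pd _

theorem Test.perp (h : Test O φ) (hγ : Gam γ) (j : Fin 2) : Test O (perp γ φ j) := by
  fin_cases j
  · exact (h.dd hγ 1).neg
  · exact h.dd hγ 0

theorem isOpen_Bx (a b c d : ℝ) : IsOpen (Bx a b c d) := isOpen_Ioo.prod isOpen_Ioo

theorem isOpen_Q (r : ℝ) : IsOpen (Q r) := isOpen_Bx _ _ _ _

theorem isOpen_Qp (σ r : ℝ) : IsOpen (Qp σ r) :=
  (isOpen_Q r).inter (isOpen_lt continuous_const continuous_snd)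

theorem mem_Bx {a b c d : ℝ} {p : P} :
    p ∈ Bx a b c d ↔ (a < p.1 ∧ p.1 < b) ∧ c < p.2 ∧ p.2 < d := Iff.rfl

theorem mem_Q {r : ℝ} {p : P} : p ∈ Q r ↔ |p.1| < r ∧ |p.2| < r := by
  rw [abs_lt, abs_lt]; rfl

theorem Q_eq_ball (r : ℝ) : Q r = Metric.ball 0 r := by
  ext p
  rw [mem_Q, mem_ball_zero_iff, Prod.norm_def, max_lt_iff, Real.norm_eq_abs, Real.norm_eq_abs]

theorem Qp_eq (σ r : ℝ) : Qp σ r = Bx (-r) r (max σ (-r)) r := by
  ext p
  simp only [Qp, Q, mem_inter_iff, mem_Bx, mem_setOf_eq, max_lt_iff]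
  tauto

theorem Qp_zero {r : ℝ} (hr : 0 ≤ r) : Qp 0 r = Bx (-r) r 0 r := by
  rw [Qp_eq, max_eq_left (by linarith)]

theorem Qp_low {σ r : ℝ} (h : σ ≤ -r) : Qp σ r = Q r := by rw [Qp_eq, max_eq_right h]; rfl

theorem Q_mono {r r' : ℝ} (h : r' ≤ r) : Q r' ⊆ Q r := fun _ hp =>
  mem_Q.2 ⟨(mem_Q.1 hp).1.trans_le h, (mem_Q.1 hp).2.trans_le h⟩

theorem Qp_mono {σ r r' : ℝ} (h : r' ≤ r) : Qp σ r' ⊆ Qp σ r := inter_subset_inter_left _ (Q_mono h)

theorem Qp_sub (σ r : ℝ) : Qp σ r ⊆ Q r := inter_subset_left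

end test

end Pool.Agent.MP_ed9623_an.H77
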