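import Pool.Agent.MP_ed9623_an.H77.Wd

/-! Definitions for the local analysis, and small facts about them. -/

open MeasureTheory Filter Topology Set
open scoped ContDiff

namespace Pool.Agent.MP_ed9623_an.H77

open H64

/-- `f` has a tangential weak derivative on `O` of norm at most `R`. -/
def TY (O : Set P) (f : P → ℝ) (R : ℝ) : Prop := ∃ g, M2 g ∧ nm g ≤ R ∧ WD O (ee 0) f g

/-- `T` is the trace on `s = 0` of `f`, whose normal derivative is `g`. -/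
def Trc (r : ℝ) (f g : P → ℝ) (T : ℝ → ℝ) : Prop :=
  ∀ᵐ p : P, p ∈ Qp 0 r → f p = T p.1 + ∫ σ in (0 : ℝ)..p.2, g (p.1, σ)

/-- `- D₁ d₁ - D₂ d₂ = F` above the level `σ`, and `W = 0` below. -/
structure So (γ : ℝ → ℝ) (σ r : ℝ) (W : P → ℝ) (d : Fin 2 → P → ℝ) (F : P → ℝ) : Prop where
  h1 : H1O (Q r) γ W d
  mF : M2 F
  van : Van (Q r \ Qp σ r) W
  eq : ∀ φ, Test (Qp σ r) φ → ∑ i, ∫ x, d i x * dd γ i φ x = ∫ x, F x * φ x

/-- The second normal derivative read off from the equation. -/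
noncomputable def nS (γ : ℝ → ℝ) (F : P → ℝ) (dY : Fin 2 → P → ℝ) : P → ℝ := fun p =>
  (-F p - dY 0 p + deriv γ p.1 * dY 1 p) / (1 + deriv γ p.1 ^ 2)

/-- Gradient of the tangential derivative. -/
noncomputable def tD (γ : ℝ → ℝ) (d dY : Fin 2 → P → ℝ) : Fin 2 → P → ℝ :=
  ![fun p => dY 0 p + deriv (deriv γ) p.1 * d 1 p, dY 1]

/-- Right hand side of the equation of the tangential derivative. -/
noncomputable def tF (γ : ℝ → ℝ) (d dS : Fin 2 → P → ℝ) (FY : P → ℝ) : P → ℝ := fun p =>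
  FY p - 2 * (deriv (deriv γ) p.1 * dS 0 p) - deriv (deriv (deriv γ)) p.1 * d 1 p

/-- A solution of the stationary system in `D` which vanishes on `O \ D`. -/
structure P2 (γ : ℝ → ℝ) (ϑ : ℝ) (D O : Set P) (R : ℝ) (u : Fin 2 → P → ℝ)
    (du : Fin 2 → Fin 2 → P → ℝ) (f : Fin 2 → P → ℝ) : Prop where
  vf : VF γ u du
  nb : Nb R u du
  mf : ∀ j, M2 (f j) ∧ nm (f j) ≤ R
  van : ∀ j, Van (O \ D) (u j)
  eq : ∀ θ, Test D θ → E2 γ ϑ u du f θ

/-- The trace of the product of the two gradients. -/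
def trc (da dw : Fin 2 → Fin 2 → P → ℝ) : P → ℝ := fun p => ∑ i, ∑ j, da j i p * dw i j p

/-- Half sum `a`, half difference `w` and its time derivative `z`, in a boundary chart. -/
structure Pr (γ : ℝ → ℝ) (r : ℝ) (a : Fin 2 → P → ℝ) (da : Fin 2 → Fin 2 → P → ℝ)
    (w : Fin 2 → P → ℝ) (dw : Fin 2 → Fin 2 → P → ℝ) (z : Fin 2 → P → ℝ)
    (dz : Fin 2 → Fin 2 → P → ℝ) : Prop where
  va : VF γ a da
  vw : VF γ w dw
  vz : VF γ z dz
  na : ∀ j, Van (Q r \ Qp 0 r) (a j)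
  nw : ∀ j, Van (Q r \ Qp 0 r) (w j)
  nz : ∀ j, Van (Q r \ Qp 0 r) (z j)
  ta : ∀ j i, ∃ R, TY (Q r) (da j i) R
  tw : ∀ j i, ∃ R, TY (Q r) (dw j i) R
  e1 : ∀ ζ, (∀ j, Test (Qp 0 r) (ζ j)) → E1 γ a w dw z ζ
  eg : ∀ h, Test (Q r) h → E1 γ a w dw z (grad γ h)
  tr : ∀ᵐ p, trc da dw p = 0

/-- Second and third order derivatives of a solution with gradient `d`. -/
structure R3 (γ : ℝ → ℝ) (r : ℝ) (d : Fin 2 → P → ℝ) (F : P → ℝ)
    (dY dS dYY dYS : Fin 2 → P → ℝ) : Prop where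
  m : ∀ i, M2 (dY i) ∧ M2 (dS i) ∧ M2 (dYY i) ∧ M2 (dYS i)
  y : ∀ i, WD (Q r) (ee 0) (d i) (dY i)
  s : ∀ i, WD (Qp 0 r) (ee 1) (d i) (dS i)
  yy : ∀ i, WD (Q r) (ee 0) (dY i) (dYY i)
  ys : ∀ i, WD (Qp 0 r) (ee 0) (dS i) (dYS i)
  eq : ∀ᵐ p, p ∈ Qp 0 r → dY 0 p - deriv γ p.1 * dS 0 p + dS 1 p = -F p

/-- The scalar coefficients of the trace equation. -/
structure Sc (γ : ℝ → ℝ) (r : ℝ) (n ns nY nYY nYS l lY lYY m : P → ℝ) : Prop where
  m2 : M2 n ∧ M2 ns ∧ M2 nY ∧ M2 nYY ∧ M2 nYS ∧ M2 l ∧ M2 lY ∧ M2 lYY ∧ M2 m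
  s : WD (Qp 0 r) (ee 1) n ns
  y : WD (Qp 0 r) (ee 0) n nY
  yy : WD (Qp 0 r) (ee 0) nY nYY
  ys : WD (Qp 0 r) (ee 0) ns nYS
  ly : WD (Qp 0 r) (ee 0) l lY
  lyy : WD (Qp 0 r) (ee 0) lY lYY
  ms : WD (Qp 0 r) (ee 1) m fun p => deriv (deriv γ) p.1 * n p - lY p
  tl : Trc r l nY fun _ => 0
  tly : Trc r lY nYY fun _ => 0
  tm : Trc r m (fun p => deriv (deriv γ) p.1 * n p - lY p) fun _ => 0

/-- The inequalities used in the energy estimate. -/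
structure Cf (r K κ : ℝ) (k : ℝ → ℝ) (m ms n ns nY l lY q : P → ℝ) : Prop where
  m2 : M2 m ∧ M2 ms ∧ M2 n ∧ M2 ns ∧ M2 nY ∧ M2 l ∧ M2 lY
  wm : WD (Qp 0 r) (ee 1) m ms
  wn : WD (Qp 0 r) (ee 1) n ns
  wy : WD (Qp 0 r) (ee 0) n nY
  wl : WD (Qp 0 r) (ee 0) l lY
  ik : IntegrableOn k (Ioo 0 r)
  k0 : ∀ s, 0 ≤ k s
  K0 : 0 ≤ K
  κ0 : 0 < κ
  pt : ∀ᵐ p : P, p ∈ Qp 0 r → |m p| ≤ K * p.2 ∧ |n p| ≤ K ∧ |l p| ≤ K ∧ κ * p.2 ≤ m p ∧ κ ≤ n p ∧
    ∀ ξ η : ℝ, (ms p + 2 * lY p - 2 * q p) * ξ ^ 2 - 2 * nY p * ξ * η + ns p * η ^ 2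
        ≤ k p.2 * (m p * ξ ^ 2 + n p * η ^ 2) ∧
      2 * |n p * ξ * η - l p * ξ ^ 2| ≤ K / √p.2 * (m p * ξ ^ 2 + n p * η ^ 2)

/-- `a` is bounded on `O` and its gradient multiplies `H¹` into `L²`. -/
def Good (γ : ℝ → ℝ) (O : Set P) (a : Fin 2 → P → ℝ) (da : Fin 2 → Fin 2 → P → ℝ) (M : ℝ) : Prop :=
  (∀ j, ∀ᵐ p, p ∈ O → |a j p| ≤ M) ∧ ∀ j i φ d, H1 γ φ d → Van Oᶜ φ →
    M2 (fun p => φ p * da j i p) ∧ nm (fun p => φ p * da j i p) ≤ M * (nm φ + nm (d 0) + nm (d 1))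

/-- A heat system `z - Δ w = F` on `N` whose right hand side is controlled by `w`. -/
structure Ht (N : Set P) (M : ℝ) (w : Fin 2 → P → ℝ) (dw : Fin 2 → Fin 2 → P → ℝ)
    (z F : Fin 2 → P → ℝ) : Prop where
  m : ∀ j, M2 (F j) ∧ nm (F j) ≤ M
  eq : ∀ j φ, Test N φ → (∫ x, z j x * φ x) + ∑ i, ∫ x, dw j i x * pd (ee i) φ x = ∫ x, F j x * φ x
  mu : ∀ ψ, Test N ψ → ∑ j, nm (fun x => ψ x * F j x) ^ 2
    ≤ M * ∑ j, (nm (fun x => ψ x * w j x) ^ 2 + ∑ i, (nm (fun x => ψ x * dw j i x) ^ 2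
      + nm (fun x => pd (ee i) ψ x * w j x) ^ 2))

/-- Rotation matrix with rows `τ` and its normal. -/
def Rm (τ : P) : Fin 2 → Fin 2 → ℝ := ![![τ.1, τ.2], ![-τ.2, τ.1]]

/-- The chart: a shear followed by a rigid motion. -/
def Th (x τ : P) (γ : ℝ → ℝ) (p : P) : P :=
  (x.1 + τ.1 * p.1 - τ.2 * (p.2 + γ p.1), x.2 + τ.2 * p.1 + τ.1 * (p.2 + γ p.1))

/-- Its inverse. -/
def Thi (x τ : P) (γ : ℝ → ℝ) (q : P) : P :=
  (τ.1 * (q.1 - x.1) + τ.2 * (q.2 - x.2),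
    τ.1 * (q.2 - x.2) - τ.2 * (q.1 - x.1) - γ (τ.1 * (q.1 - x.1) + τ.2 * (q.2 - x.2)))

/-- A vector field or a gradient read in the chart. -/
def tv (x τ : P) (γ : ℝ → ℝ) (v : Fin 2 → P → ℝ) : Fin 2 → P → ℝ :=
  fun j p => ∑ k, Rm τ j k * v k (Th x τ γ p)

/-- The gradient of a vector field read in the chart. -/
def td (x τ : P) (γ : ℝ → ℝ) (d : Fin 2 → Fin 2 → P → ℝ) : Fin 2 → Fin 2 → P → ℝ :=
  fun j i p => ∑ k, ∑ l, Rm τ j k * Rm τ i l * d k l (Th x τ γ p)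

/-- A vector field of the chart read in the plane. -/
def bv (x τ : P) (γ : ℝ → ℝ) (ζ : Fin 2 → P → ℝ) : Fin 2 → P → ℝ :=
  fun k q => ∑ j, Rm τ j k * ζ j (Thi x τ γ q)

/-- A chart of `Ω` at `x`: boundary chart for `σ = 0`, interior chart for `σ = -r`. -/
structure Ch (Ω : Set P) (x τ : P) (γ : ℝ → ℝ) (σ r : ℝ) : Prop where
  un : τ.1 ^ 2 + τ.2 ^ 2 = 1
  gam : Gam γ
  r0 : 0 < r
  s0 : σ ≤ 0
  g0 : γ 0 = 0
  mem : ∀ p ∈ Q r, Th x τ γ p ∈ Ω ↔ σ < p.2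

section api

variable {O O' N : Set P} {f g f' g' k : P → ℝ} {R R' : ℝ} {e : P}

theorem Van.of_loc (h : ∀ x ∈ O, ∃ N ∈ 𝓝 x, Van N f) : Van O f := by
  have : volume {p | p ∈ O ∧ f p ≠ 0} = 0 := measure_null_of_locally_null _ fun x hx => by
    obtain ⟨N, hN, hv⟩ := h x hx.1
    refine ⟨_, inter_mem_nhdsWithin _ hN, measure_mono_null (fun p hp => ?_) (ae_iff.1 hv)⟩
    exact fun hh => hp.1.2 (hh hp.2)
  filter_upwards [measure_eq_zero_iff_ae_notMem.1 this] with p hp ho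
  by_contra hne
  exact hp ⟨ho, hne⟩

theorem Van.sh (h : Van N f) (t : ℝ) : Van {p | ((p.1 + t, p.2) : P) ∈ N} (sh t f) := ae_sh h t

theorem Van.all (h : Van O f) (h' : Van Oᶜ f) : f =ᵐ[volume] fun _ => 0 := by
  filter_upwards [h, h'] with p a b
  by_cases hp : p ∈ O
  exacts [a hp, b hp]

/-- Vanishing below the level, up to the null line. -/
theorem van_low {σ r : ℝ} (h : Van (Q r ∩ {p | p.2 < σ}) f) : Van (Q r \ Qp σ r) f :=
  (h.union (Van.of_null (null_line σ) f)).mono fun p hp => by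
    rcases lt_trichotomy p.2 σ with a | a | a
    · exact Or.inl ⟨hp.1, a⟩
    · exact Or.inr a
    · exact absurd ⟨hp.1, a⟩ hp.2

theorem isOpen_low (σ r : ℝ) : IsOpen (Q r ∩ {p : P | p.2 < σ}) :=
  (isOpen_Q r).inter (isOpen_lt continuous_snd continuous_const)

theorem low_sub (σ r : ℝ) : Q r ∩ {p : P | p.2 < σ} ⊆ Q r \ Qp σ r :=
  fun p hp => ⟨hp.1, fun h => lt_asymm (show p.2 < σ from hp.2) h.2⟩

/-- Weak derivatives vanish below the level. -/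
theorem WD.van_low {σ r : ℝ} (h : WD (Q r) e f g) (hg : M2 g) (hf : Van (Q r \ Qp σ r) f) :
    Van (Q r \ Qp σ r) g :=
  H77.van_low ((h.mono inter_subset_left).van (isOpen_low σ r) hg (hf.mono (low_sub σ r)))

theorem H1O.van_low {σ r : ℝ} {γ : ℝ → ℝ} {d : Fin 2 → P → ℝ} (h : H1O (Q r) γ f d) (hγ : Gam γ)
    (hf : Van (Q r \ Qp σ r) f) (i : Fin 2) : Van (Q r \ Qp σ r) (d i) :=
  H77.van_low (h.van (isOpen_low σ r) inter_subset_left hγ (hf.mono (low_sub σ r)) i)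

theorem diff_mono {σ r r' : ℝ} (h : r' ≤ r) : Q r' \ Qp σ r' ⊆ Q r \ Qp σ r :=
  fun _ hp => ⟨Q_mono h hp.1, fun a => hp.2 ⟨hp.1, a.2⟩⟩

theorem So.mono {γ : ℝ → ℝ} {σ r r' : ℝ} {d : Fin 2 → P → ℝ} (h : So γ σ r f d g) (hr : r' ≤ r) :
    So γ σ r' f d g :=
  ⟨h.h1.mono (Q_mono hr), h.mF, h.van.mono (diff_mono hr), fun φ hφ => h.eq φ (hφ.mono (Qp_mono hr))⟩

theorem TY.mono (h : TY O f R) (hO : O' ⊆ O) (hR : R ≤ R') : TY O' f R' := by
  obtain ⟨g, a, b, c⟩ := h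
  exact ⟨g, a, b.trans hR, c.mono hO⟩

theorem TY.congr (h : TY O f R) (hf : ∀ᵐ p, p ∈ O → f p = f' p) : TY O f' R := by
  obtain ⟨g, a, b, c⟩ := h
  exact ⟨g, a, b, c.congr hf (Eventually.of_forall fun _ _ => rfl)⟩

theorem TY.add (h : TY O f R) (h' : TY O f' R') (hf : M2 f) (hf' : M2 f') :
    TY O (fun p => f p + f' p) (R + R') := by
  obtain ⟨g, a, b, c⟩ := h
  obtain ⟨g', a', b', c'⟩ := h'
  exact ⟨_, a.add a', (nm_add_le a a').trans (add_le_add b b'), c.add c' hf a hf' a'⟩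

theorem TY.cmul (h : TY O f R) (c : ℝ) : TY O (fun p => c * f p) (|c| * R) := by
  obtain ⟨g, a, b, d⟩ := h
  exact ⟨_, a.cmul c, by rw [nm_cmul]; exact mul_le_mul_of_nonneg_left b (abs_nonneg c), d.cmul c⟩

theorem Test.refl (hk : Test univ k) (x : P) : Test {z | x - z ∈ tsupport k} fun z => k (x - z) := by
  have e : (fun z => k (x - z)) = k ∘ Homeomorph.subLeft x := rfl
  refine ⟨hk.1.comp (contDiff_const.sub contDiff_id), e ▸ hk.2.1.comp_homeomorph _, ?_⟩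
  refine closure_minimal (fun z hz => subset_tsupport k hz) ?_
  exact (isClosed_tsupport k).preimage (continuous_const.sub continuous_id)

theorem pd_refl (hk : ContDiff ℝ ∞ k) (x e z : P) :
    pd e (fun z => k (x - z)) z = -pd e k (x - z) := by
  refine HD.pd_eq ?_ (sm_diff (hk.comp (contDiff_const.sub contDiff_id)) z)
  have := HD.of_diff (e := -e) (sm_diff hk (x - z))
  rw [← neg_one_smul ℝ e, pd_smul_dir, neg_one_mul] at this
  unfold HD at this ⊢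
  convert this using 3
  simp only [neg_smul, one_smul, smul_neg]
  abel

theorem mol_congr {x : P} (hx : ∀ z, x - z ∈ tsupport k → z ∈ O) (h : ∀ᵐ p, p ∈ O → f p = g p) :
    mol k f x = mol k g x :=
  int_test_congr (fun z hz => image_eq_zero_of_notMem_tsupport fun a => hz (hx z a)) h

theorem mol_van {x : P} (hx : ∀ z, x - z ∈ tsupport k → z ∈ O) (h : Van O f) : mol k f x = 0 := by
  rw [mol_congr (g := fun _ => 0) hx h]; simp [mol]

/-- Mollification commutes with weak derivatives. -/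
theorem mol_wd (hk : Test univ k) (h : WD O e f g) {x : P}
    (hx : ∀ z, x - z ∈ tsupport k → z ∈ O) : mol (pd e k) f x = mol k g x := by
  have := h _ ((hk.refl x).mono hx)
  simp only [pd_refl hk.1, mul_neg, integral_neg, neg_inj] at this
  exact this

theorem Ker.test {ε : ℝ} (h : Ker ε k) : Test univ k := h.1.top

theorem M2.int_prod (hf : M2 f) :
    Integrable (fun p => f p ^ 2) ((volume : Measure ℝ).prod (volume : Measure ℝ)) := hf.int_sq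

theorem slY_nonneg (a b : ℝ) (f : P → ℝ) (s : ℝ) : 0 ≤ slY a b f s :=
  integral_nonneg fun _ => sq_nonneg _

theorem slS_nonneg (c d : ℝ) (f : P → ℝ) (y : ℝ) : 0 ≤ slS c d f y :=
  integral_nonneg fun _ => sq_nonneg _

theorem M2.int_slY (hf : M2 f) (a b : ℝ) : Integrable (slY a b f) := by
  have h : Integrable (fun p => f p ^ 2) ((volume.restrict (Ioo a b)).prod (volume : Measure ℝ)) := by
    rw [Measure.restrict_prod_eq_prod_univ]
    exact hf.int_prod.integrableOn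
  exact h.integral_prod_right

theorem M2.int_slS (hf : M2 f) (c d : ℝ) : Integrable (slS c d f) := by
  have h : Integrable (fun p => f p ^ 2) ((volume : Measure ℝ).prod (volume.restrict (Ioo c d))) := by
    rw [← Measure.restrict_univ (μ := (volume : Measure ℝ)), Measure.restrict_restrict_of_subset
      (subset_univ _), Measure.prod_restrict]
    exact hf.int_prod.integrableOn
  exact h.integral_prod_left

theorem M2.slS_int (hf : M2 f) (a b c d : ℝ) :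
    ∫ y in Ioo a b, slS c d f y = ∫ p in Bx a b c d, f p ^ 2 :=
  (setIntegral_prod _ hf.int_prod.integrableOn).symm

theorem M2.slY_int (hf : M2 f) (a b c d : ℝ) :
    ∫ s in Ioo c d, slY a b f s = ∫ p in Bx a b c d, f p ^ 2 := by
  have h : Integrable (fun p => f p ^ 2)
      ((volume.restrict (Ioo a b)).prod (volume.restrict (Ioo c d))) := by
    rw [Measure.prod_restrict]
    exact hf.int_prod.integrableOn
  rw [← hf.slS_int]
  exact (integral_integral_swap (f := fun y s => f (y, s) ^ 2) h).symm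

theorem M2.set_le (hf : M2 f) (O : Set P) : ∫ p in O, f p ^ 2 ≤ nm f ^ 2 := by
  rw [nm_sq]
  exact setIntegral_le_integral hf.int_sq (Eventually.of_forall fun _ => sq_nonneg _)

theorem VF.neg {γ : ℝ → ℝ} {v : Fin 2 → P → ℝ} {d : Fin 2 → Fin 2 → P → ℝ} (h : VF γ v d) :
    VF γ (fun j p => -v j p) fun j i p => -d j i p :=
  ⟨fun j => (h.h1 j).neg, h.dv.mono fun p hp => by linarith⟩

theorem Trc.neg {r : ℝ} (h : Trc r f g fun _ => 0) :
    Trc r (fun p => -f p) (fun p => -g p) fun _ => 0 :=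
  Eventually.mono h fun p a hp => by
    simp only [intervalIntegral.integral_neg, a hp]; ring

theorem Sc.neg {γ : ℝ → ℝ} {r : ℝ} {n ns nY nYY nYS l lY lYY m : P → ℝ}
    (h : Sc γ r n ns nY nYY nYS l lY lYY m) :
    Sc γ r (fun p => -n p) (fun p => -ns p) (fun p => -nY p) (fun p => -nYY p) (fun p => -nYS p)
      (fun p => -l p) (fun p => -lY p) (fun p => -lYY p) fun p => -m p := by
  obtain ⟨a1, a2, a3, a4, a5, a6, a7, a8, a9⟩ := h.m2
  have e : (fun p : P => deriv (deriv γ) p.1 * -n p - -lY p)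
      = fun p : P => -(deriv (deriv γ) p.1 * n p - lY p) := funext fun p => by ring
  exact ⟨⟨a1.neg, a2.neg, a3.neg, a4.neg, a5.neg, a6.neg, a7.neg, a8.neg, a9.neg⟩, h.s.neg, h.y.neg,
    h.yy.neg, h.ys.neg, h.ly.neg, h.lyy.neg, e ▸ h.ms.neg, h.tl.neg, h.tly.neg, e ▸ h.tm.neg⟩

variable {x τ : P} {γ : ℝ → ℝ}

theorem Thi_Th (hτ : τ.1 ^ 2 + τ.2 ^ 2 = 1) (p : P) : Thi x τ γ (Th x τ γ p) = p := by
  have a : τ.1 * ((Th x τ γ p).1 - x.1) + τ.2 * ((Th x τ γ p).2 - x.2) = p.1 := by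
    simp only [Th]; linear_combination p.1 * hτ
  refine Prod.ext a ?_
  simp only [Thi, a]
  simp only [Th]
  linear_combination (p.2 + γ p.1) * hτ

theorem Th_Thi (hτ : τ.1 ^ 2 + τ.2 ^ 2 = 1) (q : P) : Th x τ γ (Thi x τ γ q) = q :=
  Prod.ext (by simp only [Th, Thi]; linear_combination (q.1 - x.1) * hτ)
    (by simp only [Th, Thi]; linear_combination (q.2 - x.2) * hτ)

theorem sm_Th (hγ : Gam γ) (x τ : P) : ContDiff ℝ ∞ (Th x τ γ) := by
  have := hγ.sm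
  unfold Th
  fun_prop

theorem sm_Thi (hγ : Gam γ) (x τ : P) : ContDiff ℝ ∞ (Thi x τ γ) := by
  have := hγ.sm
  unfold Thi
  fun_prop

theorem Th_zero (h : γ 0 = 0) (x τ : P) : Th x τ γ 0 = x := by simp [Th, h]

theorem Thi_self (h : γ 0 = 0) (x τ : P) : Thi x τ γ x = 0 := by simp [Thi, h]

theorem Th_tr (x p : P) : Th x (1, 0) (fun _ => 0) p = x + p := by
  simp [Th, Prod.ext_iff]

theorem abs_Rm (hτ : τ.1 ^ 2 + τ.2 ^ 2 = 1) (i j : Fin 2) : |Rm τ i j| ≤ 1 := by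
  have a : |τ.1| ≤ 1 := abs_le_one_iff_mul_self_le_one.2 (by nlinarith [sq_nonneg τ.2])
  have b : |τ.2| ≤ 1 := abs_le_one_iff_mul_self_le_one.2 (by nlinarith [sq_nonneg τ.1])
  fin_cases i <;> fin_cases j <;> simp [Rm, a, b]

/-- The image of a square is a neighbourhood of the centre of the chart. -/
theorem Ch.nhds {Ω : Set P} {σ r : ℝ} (h : Ch Ω x τ γ σ r) {r' : ℝ} (hr : 0 < r') :
    IsOpen (Thi x τ γ ⁻¹' Q r') ∧ Thi x τ γ ⁻¹' Q r' ∈ 𝓝 x := by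
  have o := (isOpen_Q r').preimage (sm_Thi h.gam x τ).continuous
  refine ⟨o, o.mem_nhds ?_⟩
  rw [mem_preimage, Thi_self h.g0, Q_eq_ball]
  exact Metric.mem_ball_self hr

/-- Interior charts. -/
theorem exists_ch {Ω : Set P} (hΩ : IsOpen Ω) (hx : x ∈ Ω) :
    ∃ r, Ch Ω x (1, 0) (fun _ => 0) (-r) r := by
  obtain ⟨r, r0, hr⟩ := Metric.isOpen_iff.1 hΩ x hx
  refine ⟨r, by simp, Gam.zero, r0, by linarith, rfl, fun p hp => ⟨fun _ => (abs_lt.1
    (mem_Q.1 hp).2).1, fun _ => hr ?_⟩⟩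
  rw [Q_eq_ball] at hp
  simpa [Th_tr] using hp

end api

end Pool.Agent.MP_ed9623_an.H77
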