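import Pool.Agent.MP_ed9623_an.H77.DefsX
import Pool.Agent.MP_ed9623_an.H23.TriB

/-! Definitions for the boundary defect, the circle and time analyticity. -/

open MeasureTheory Filter Topology Set
open scoped ContDiff InnerProductSpace

namespace Pool.Agent.MP_ed9623_an.H77

open H64

/-- The curl of a vector field. -/
noncomputable def crl (γ : ℝ → ℝ) (ζ : Fin 2 → P → ℝ) : P → ℝ :=
  fun p => dd γ 0 (ζ 1) p - dd γ 1 (ζ 0) p

/-- The defect of the equation of the half difference. -/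
noncomputable def Tx (γ : ℝ → ℝ) (a w : Fin 2 → P → ℝ) (dw : Fin 2 → Fin 2 → P → ℝ)
    (z ζ : Fin 2 → P → ℝ) : ℝ := ip z ζ + di γ dw ζ - tl γ a w ζ - tl γ w a ζ

theorem E1_iff {γ : ℝ → ℝ} {a w z ζ : Fin 2 → P → ℝ} {dw : Fin 2 → Fin 2 → P → ℝ} :
    E1 γ a w dw z ζ ↔ Tx γ a w dw z ζ = 0 := Iff.rfl

/-- Half sum, half difference and its time derivative at a fixed time. -/
structure Fl (Ω : Set P) (a : Fin 2 → P → ℝ) (da : Fin 2 → Fin 2 → P → ℝ) (w : Fin 2 → P → ℝ)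
    (dw : Fin 2 → Fin 2 → P → ℝ) (z : Fin 2 → P → ℝ) (dz : Fin 2 → Fin 2 → P → ℝ) : Prop where
  va : VF (fun _ => 0) a da
  vw : VF (fun _ => 0) w dw
  vz : VF (fun _ => 0) z dz
  na : ∀ j, Van Ωᶜ (a j)
  nw : ∀ j, Van Ωᶜ (w j)
  nz : ∀ j, Van Ωᶜ (z j)
  nda : ∀ j i, Van Ωᶜ (da j i)
  ndw : ∀ j i, Van Ωᶜ (dw j i)
  e1 : ∀ ζ, (∀ j, Test Ω (ζ j)) → E1 (fun _ => 0) a w dw z ζ

/-- The same, with the stationary equations of the two solutions. -/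
structure Fx (Ω : Set P) (R : ℝ) (a : Fin 2 → P → ℝ) (da : Fin 2 → Fin 2 → P → ℝ)
    (w : Fin 2 → P → ℝ) (dw : Fin 2 → Fin 2 → P → ℝ) (z : Fin 2 → P → ℝ)
    (dz : Fin 2 → Fin 2 → P → ℝ) : Prop where
  fl : Fl Ω a da w dw z dz
  p1 : ∃ f, P2 (fun _ => 0) 1 Ω univ R (fun j p => a j p + w j p)
    (fun j i p => da j i p + dw j i p) f
  p2 : ∃ f, P2 (fun _ => 0) 1 Ω univ R (fun j p => a j p - w j p)
    (fun j i p => da j i p - dw j i p) f

/-- On `O` the defect is a multiple of the integral of the curl over `Ω`. -/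
def Dfc (Ω O : Set P) (ζ₀ : Fin 2 → P → ℝ) : Prop :=
  (∀ j, Test O (ζ₀ j)) ∧ ∫ x in Ω, crl (fun _ => 0) ζ₀ x = 1 ∧
    ∀ a da w dw z dz, Fl Ω a da w dw z dz → ∀ ζ, (∀ j, Test O (ζ j)) →
      Tx (fun _ => 0) a w dw z ζ = Tx (fun _ => 0) a w dw z ζ₀ * ∫ x in Ω, crl (fun _ => 0) ζ x

/-- The boundary vorticity as a function of time. -/
noncomputable def cT (a w : ℝ → E6) (ζ : Fin 2 → P → ℝ) (t : ℝ) : ℝ :=
  Tx (fun _ => 0) (vl (a t)) (vl (w t)) (gj (w t)) (vl (deriv w t)) ζ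

/-- Unique continuation in time. -/
def TU (a : ℝ → E6) : Prop := ∀ (N : Set P) (I : Set ℝ), IsOpen I → I.Nonempty →
  (∀ t ∈ I, ∀ j, Van N (vl (a t) j)) → ∀ t j, Van N (vl (a t) j)

/-- The exceptional condition, for a force given on the plane. -/
def ExcF (ρ : P → ℝ) (g : Fin 2 → P → ℝ) (x₀ : P) : Prop :=
  BdAna ρ x₀ ∧ ∃ r > 0, ∃ (G : P → ℝ) (l : ℝ),
    (AnalyticOnNhd ℝ G ({x | ρ x < 0} ∩ Metric.ball x₀ r) ∧
      ∀ θ, Test ({x | ρ x < 0} ∩ Metric.ball x₀ r) θ →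
        -ip g (perp (fun _ => 0) θ) = ∫ x, G x * θ x) ∧
    Tendsto (fun x => G x / ρ x ^ 6) (𝓝[{x | ρ x < 0}] x₀) (𝓝 l) ∧
    (l * dcurvature ρ x₀ < 0 ∨ dcurvature ρ x₀ = 0 ∨
      (¬ IsPreconnected {x | ρ x = 0} ∧ ∀ᶠ x in 𝓝[{x | ρ x < 0}] x₀, G x = 0))

/-- Square of the distance to `c`. -/
def qc (c x : P) : ℝ := (x.1 - c.1) ^ 2 + (x.2 - c.2) ^ 2

/-- The components of `x - c`. -/
def Xc (c : P) : Fin 2 → P → ℝ := ![fun x => x.1 - c.1, fun x => x.2 - c.2]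

/-- Open annulus. -/
def An (c : P) (r R : ℝ) : Set P := {x | r ^ 2 < qc c x ∧ qc c x < R ^ 2}

/-- Rotation about `c`. -/
def Rt (c τ x : P) : P := Th c τ (fun _ => 0) (x - c)

/-- Square of the length. -/
def mm (w : Fin 2 → P → ℝ) : P → ℝ := fun p => ∑ j, w j p ^ 2

/-- Radial component. -/
def rd (c : P) (w : Fin 2 → P → ℝ) : P → ℝ := fun p => ∑ j, w j p * Xc c j p

/-- Half of the radial derivative of `mm w`. -/
def Ph (c : P) (w : Fin 2 → P → ℝ) (dw : Fin 2 → Fin 2 → P → ℝ) : P → ℝ :=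
  fun p => ∑ j, ∑ i, w j p * Xc c i p * dw j i p

/-- The heat system on `N`. -/
def Hz (N : Set P) (dw : Fin 2 → Fin 2 → P → ℝ) (z : Fin 2 → P → ℝ) : Prop :=
  ∀ j φ, Test N φ → (∫ x, z j x * φ x) + ∑ i, ∫ x, dw j i x * pd (ee i) φ x = 0

/-- Essential limit at the origin. -/
def El (f : P → ℝ) (f₀ : ℝ) : Prop := ∀ δ : ℝ, 0 < δ → ∃ η : ℝ, 0 < η ∧
  ∀ᵐ p, p ∈ Q η → |f p - f₀| ≤ δ

/-- The inequalities used in the energy estimate, in the strictly hyperbolic case. -/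
structure Cg (r K κ : ℝ) (k : ℝ → ℝ) (m ms n ns nY l lY : P → ℝ) : Prop where
  m2 : M2 m ∧ M2 ms ∧ M2 n ∧ M2 ns ∧ M2 nY ∧ M2 l ∧ M2 lY
  wm : WD (Qp 0 r) (ee 1) m ms
  wn : WD (Qp 0 r) (ee 1) n ns
  wy : WD (Qp 0 r) (ee 0) n nY
  wl : WD (Qp 0 r) (ee 0) l lY
  ik : IntegrableOn k (Ioo 0 r)
  k0 : ∀ s, 0 ≤ k s
  K0 : 0 ≤ K
  κ0 : 0 < κ
  pt : ∀ᵐ p : P, p ∈ Qp 0 r → |m p| ≤ K ∧ |n p| ≤ K ∧ |l p| ≤ K ∧ κ ≤ m p ∧ κ ≤ n p ∧
    ∀ ξ η : ℝ, (ms p + 2 * lY p) * ξ ^ 2 - 2 * nY p * ξ * η + ns p * η ^ 2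
        ≤ k p.2 * (m p * ξ ^ 2 + n p * η ^ 2) ∧
      2 * |n p * ξ * η - l p * ξ ^ 2| ≤ K / √p.2 * (m p * ξ ^ 2 + n p * η ^ 2)

section time

variable {H V : Type} [NormedAddCommGroup H] [InnerProductSpace ℝ H] [NormedAddCommGroup V]
  [InnerProductSpace ℝ V]

/-- Weighted bounds for the time derivative of order `k` on the unit interval. -/
def Bn (S : St H V) (U : ℝ → V) (k : ℕ) (e : ℝ) : Prop :=
  (∀ t ∈ Icc (0 : ℝ) 1, t ^ k * ‖S.ι (iteratedDeriv k U t)‖ ≤ e) ∧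
    ∫ t in (0 : ℝ)..1, (t ^ k * ‖iteratedDeriv k U t‖) ^ 2 ≤ e ^ 2

end time

/-- The recursion for the bounds. -/
noncomputable def rc (b : ℕ → ℝ) (n : ℕ) : ℝ :=
  (n + 1) * b n + ∑ k ∈ Finset.range n, ((n + 1).choose (k + 1) : ℝ) * (b (k + 1) * b (n - k))
    + (n + 1) * ∑ k ∈ Finset.range (n + 1), (n.choose k : ℝ) * (b k * b (n - k))

section api

variable {Ω N O : Set P} {g : Fin 2 → P → ℝ} {R : ℝ} {a w : ℝ → E6}

theorem Pv.fl (h : Pv Ω g R a w) (t : ℝ) : Fl Ω (vl (a t)) (gj (a t)) (vl (w t)) (gj (w t))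
    (vl (deriv w t)) (gj (deriv w t)) :=
  have ma := mem_VZ.1 (h.ma t)
  have mw := mem_VZ.1 (h.mw t)
  have mz := mem_VZ.1 (h.mz t)
  ⟨ma.1, mw.1, mz.1, fun j => ma.2 (j, none), fun j => mw.2 (j, none), fun j => mz.2 (j, none),
    fun j i => ma.2 (j, some i), fun j i => mw.2 (j, some i), h.e1 t⟩

theorem Pv.fx (h : Pv Ω g R a w) (t : ℝ) : Fx Ω R (vl (a t)) (gj (a t)) (vl (w t)) (gj (w t))
    (vl (deriv w t)) (gj (deriv w t)) := ⟨h.fl t, ⟨_, h.p1 t⟩, _, h.p2 t⟩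

theorem Tx_van {a w z ζ : Fin 2 → P → ℝ} {dw : Fin 2 → Fin 2 → P → ℝ} (hζ : ∀ j, Test N (ζ j))
    (h : ∀ j, Van N (a j)) : Tx (fun _ => 0) a w dw z ζ = ip z ζ + di (fun _ => 0) dw ζ := by
  have b := TriB.tl_van hζ h w
  rw [Tx, b.1, b.2, sub_zero, sub_zero]

theorem test_single {φ : P → ℝ} (hφ : Test N φ) (j l : Fin 2) :
    Test N ((Pi.single j φ : Fin 2 → P → ℝ) l) := by
  by_cases hl : l = j
  · rw [hl, Pi.single_eq_same]; exact hφ
  · rw [Pi.single_eq_of_ne hl]; exact Test.zero _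

/-- Where the half sum vanishes, the half difference solves the heat system. -/
theorem Fl.heat {a w z : Fin 2 → P → ℝ} {da dw dz : Fin 2 → Fin 2 → P → ℝ}
    (h : Fl Ω a da w dw z dz) (hN : N ⊆ Ω) (hv : ∀ j, Van N (a j)) : Hz N dw z := by
  intro j φ hφ
  have := (Tx_van (test_single hφ j) hv).symm.trans
    (h.e1 (Pi.single j φ) fun l => (test_single hφ j l).mono hN)
  have z : ∀ e : P, pd e (0 : P → ℝ) = 0 := pd_zero_fun
  fin_cases j <;> simpa [ip, di, dd_zero, z] using this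

/-- Where the half difference vanishes, its equation holds. -/
theorem Pv.e1_van (h : Pv Ω g R a w) {I : Set ℝ} (hN : IsOpen N) (hI : IsOpen I)
    (hv : ∀ t ∈ I, ∀ j, Van N (vl (w t) j)) : ∀ t ∈ I, ∀ ζ, (∀ j, Test N (ζ j)) →
    E1 (fun _ => 0) (vl (a t)) (vl (w t)) (gj (w t)) (vl (deriv w t)) ζ := fun t ht ζ hζ => by
  obtain ⟨v1, v2⟩ := TriB.van_all hN hI h.mw hv ht
  have b := TriB.tl_van hζ (hv t ht) (vl (a t))
  rw [E1, b.1, b.2, TriB.ip_van hζ v2, TriB.di_van hζ v1]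
  norm_num

theorem dd_lin (γ : ℝ → ℝ) (i : Fin 2) {φ ψ : P → ℝ} (hφ : ContDiff ℝ ∞ φ) (hψ : ContDiff ℝ ∞ ψ)
    (c : ℝ) (p : P) : dd γ i (fun p => φ p + c * ψ p) p = dd γ i φ p + c * dd γ i ψ p := by
  have k : ∀ e, pd e (fun p => φ p + c * ψ p) p = pd e φ p + c * pd e ψ p := fun e => by
    rw [pd_add _ (sm_diff hφ p) ((sm_diff hψ p).const_mul c), pd_const_mul _ _ (sm_diff hψ p)]
  fin_cases i
  · change dd γ 0 _ p = dd γ 0 _ p + c * dd γ 0 _ p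
    rw [dd0, dd0, dd0, k, k]; ring
  · exact k _

theorem int_lin {f φ ψ χ : P → ℝ} {c : ℝ} (h1 : Integrable fun p => f p * φ p)
    (h2 : Integrable fun p => f p * ψ p) (h : ∀ p, χ p = φ p + c * ψ p) :
    ∫ p, f p * χ p = (∫ p, f p * φ p) + c * ∫ p, f p * ψ p := by
  rw [← integral_const_mul, ← integral_add h1 (h2.const_mul c)]
  exact integral_congr_ae (Eventually.of_forall fun p => by simp only [h]; ring)

theorem int_mul3 {f f' φ : P → ℝ} (hf : M2 f) (hf' : M2 f') (hφ : Test O φ) :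
    Integrable fun p => f p * f' p * φ p := by
  simpa only [mul_assoc, mul_comm (f' _)] using hf.int_mul (hf'.tmul hφ)

/-- The defect is linear in the test field. -/
theorem Tx_lin {γ : ℝ → ℝ} {a w z ζ ξ : Fin 2 → P → ℝ} {dw : Fin 2 → Fin 2 → P → ℝ} (hγ : Gam γ)
    (ha : ∀ j, M2 (a j)) (hw : ∀ j, M2 (w j)) (hd : ∀ j i, M2 (dw j i)) (hz : ∀ j, M2 (z j))
    (hζ : ∀ j, Test O (ζ j)) (hξ : ∀ j, Test O (ξ j)) (c : ℝ) :
    Tx γ a w dw z (fun j p => ζ j p + c * ξ j p) = Tx γ a w dw z ζ + c * Tx γ a w dw z ξ := by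
  have e := fun j i => dd_lin γ i (hζ j).1 (hξ j).1 c
  have k : ∀ a w : Fin 2 → P → ℝ, (∀ j, M2 (a j)) → (∀ j, M2 (w j)) →
      tl γ a w (fun j p => ζ j p + c * ξ j p) = tl γ a w ζ + c * tl γ a w ξ := fun a w ha hw => by
    simp only [tl, Finset.mul_sum, ← Finset.sum_add_distrib]
    exact Finset.sum_congr rfl fun j _ => Finset.sum_congr rfl fun i _ =>
      int_lin (int_mul3 (ha i) (hw j) ((hζ j).dd hγ i)) (int_mul3 (ha i) (hw j) ((hξ j).dd hγ i))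
        (e j i)
  have k1 : ip z (fun j p => ζ j p + c * ξ j p) = ip z ζ + c * ip z ξ := by
    simp only [ip, Finset.mul_sum, ← Finset.sum_add_distrib]
    exact Finset.sum_congr rfl fun j _ =>
      int_lin ((hz j).int_mul (hζ j).m2) ((hz j).int_mul (hξ j).m2) fun _ => rfl
  have k2 : di γ dw (fun j p => ζ j p + c * ξ j p) = di γ dw ζ + c * di γ dw ξ := by
    simp only [di, Finset.mul_sum, ← Finset.sum_add_distrib]
    exact Finset.sum_congr rfl fun j _ => Finset.sum_congr rfl fun i _ =>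
      int_lin ((hd j i).int_mul ((hζ j).dd hγ i).m2) ((hd j i).int_mul ((hξ j).dd hγ i).m2) (e j i)
  rw [Tx, Tx, Tx, k a w ha hw, k w a hw ha, k1, k2]
  ring

theorem test_crl {γ : ℝ → ℝ} {ζ : Fin 2 → P → ℝ} (hγ : Gam γ) (hζ : ∀ j, Test O (ζ j)) :
    Test O (crl γ ζ) := ((hζ 1).dd hγ 0).sub ((hζ 0).dd hγ 1)

theorem crl_lin (γ : ℝ → ℝ) {ζ ξ : Fin 2 → P → ℝ} (hζ : ∀ j, ContDiff ℝ ∞ (ζ j))
    (hξ : ∀ j, ContDiff ℝ ∞ (ξ j)) (c : ℝ) (p : P) :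
    crl γ (fun j p => ζ j p + c * ξ j p) p = crl γ ζ p + c * crl γ ξ p := by
  simp only [crl, dd_lin γ _ (hζ _) (hξ _)]
  ring

theorem ae_of_loc {p : P → Prop} (h : ∀ x ∈ O, ∃ N ∈ 𝓝 x, ∀ᵐ y, y ∈ N → p y) :
    ∀ᵐ y, y ∈ O → p y := by
  have : volume {y | y ∈ O ∧ ¬ p y} = 0 := measure_null_of_locally_null _ fun x hx => by
    obtain ⟨N, hN, hv⟩ := h x hx.1
    refine ⟨_, inter_mem_nhdsWithin _ hN, measure_mono_null (fun p hp => ?_) (ae_iff.1 hv)⟩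
    exact fun hh => hp.1.2 (hh hp.2)
  filter_upwards [measure_eq_zero_iff_ae_notMem.1 this] with y hp ho
  by_contra hne
  exact hp ⟨ho, hne⟩

theorem sm_qc (c : P) : ContDiff ℝ ∞ (qc c) := by unfold qc; fun_prop

theorem sm_Xc (c : P) (i : Fin 2) : ContDiff ℝ ∞ (Xc c i) := by
  fin_cases i
  · exact contDiff_fst.sub contDiff_const
  · exact contDiff_snd.sub contDiff_const

theorem qc_eq (c x : P) : qc c x = ∑ i, Xc c i x ^ 2 := by simp [qc, Xc]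

theorem pd_Xc (c : P) (i l : Fin 2) (x : P) : pd (ee l) (Xc c i) x = if i = l then 1 else 0 := by
  have a := (hasFDerivAt_fst (𝕜 := ℝ) (p := x)).sub_const c.1
  have b := (hasFDerivAt_snd (𝕜 := ℝ) (p := x)).sub_const c.2
  fin_cases i <;> fin_cases l <;> simp [pd, Xc, ee, a.fderiv, b.fderiv]

theorem pd_qc (c : P) (l : Fin 2) (x : P) : pd (ee l) (qc c) x = 2 * Xc c l x := by
  have a := ((hasFDerivAt_fst (𝕜 := ℝ) (p := x)).sub_const c.1).pow 2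
  have b := ((hasFDerivAt_snd (𝕜 := ℝ) (p := x)).sub_const c.2).pow 2
  have e : fderiv ℝ (qc c) x = _ := (a.add b).fderiv
  fin_cases l <;> simp [pd, Xc, ee, e]

theorem isOpen_An (c : P) (r R : ℝ) : IsOpen (An c r R) :=
  (isOpen_lt continuous_const (sm_qc c).continuous).inter
    (isOpen_lt (sm_qc c).continuous continuous_const)

theorem qc_Rt {τ : P} (hτ : τ.1 ^ 2 + τ.2 ^ 2 = 1) (c x : P) : qc c (Rt c τ x) = qc c x := by
  simp only [qc, Rt, Th, Prod.fst_sub, Prod.snd_sub]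
  linear_combination ((x.1 - c.1) ^ 2 + (x.2 - c.2) ^ 2) * hτ

theorem Rt_Rt {τ : P} (hτ : τ.1 ^ 2 + τ.2 ^ 2 = 1) (c x : P) :
    Rt c (τ.1, -τ.2) (Rt c τ x) = x := by
  refine Prod.ext ?_ ?_ <;> simp only [Rt, Th, Prod.fst_sub, Prod.snd_sub]
  · linear_combination (x.1 - c.1) * hτ
  · linear_combination (x.2 - c.2) * hτ

theorem isCompact_disc (c : P) (R : ℝ) : IsCompact {x | qc c x ≤ R ^ 2} := by
  refine Metric.isCompact_of_isClosed_isBounded (isClosed_le (sm_qc c).continuous continuous_const)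
    ((Metric.isBounded_closedBall (x := c) (r := |R|)).subset fun x hx => ?_)
  simp only [mem_setOf_eq, qc] at hx
  rw [Metric.mem_closedBall, Prod.dist_eq, max_le_iff, Real.dist_eq, Real.dist_eq]
  constructor <;> refine sq_le_sq.1 ?_ <;> nlinarith [sq_nonneg (x.1 - c.1), sq_nonneg (x.2 - c.2)]

/-- The filter of essential neighbourhoods of the origin. -/
noncomputable def eN : Filter P := 𝓝 0 ⊓ ae volume

theorem El_iff {f : P → ℝ} {f₀ : ℝ} : El f f₀ ↔ Tendsto f eN (𝓝 f₀) := by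
  rw [(Metric.nhds_basis_closedBall (x := f₀)).tendsto_right_iff]
  refine forall_congr' fun δ => forall_congr' fun _ => ⟨fun ⟨η, h0, h⟩ => ?_, fun h => ?_⟩
  · exact mem_inf_of_inter (Metric.ball_mem_nhds 0 h0) h fun p hp => hp.2 (Q_eq_ball η ▸ hp.1)
  · obtain ⟨s, hs, t, ht, e⟩ := mem_inf_iff_superset.1 h
    obtain ⟨η, h0, hη⟩ := Metric.mem_nhds_iff.1 hs
    exact ⟨η, h0, mem_of_superset ht fun p hp hq => e ⟨hη (Q_eq_ball η ▸ hq), hp⟩⟩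

theorem El.cont {f : P → ℝ} (hf : Continuous f) : El f (f 0) :=
  El_iff.2 ((hf.tendsto 0).mono_left inf_le_left)

/-- An essential limit can be computed from below the line `s = 0`. -/
theorem El.low {f : P → ℝ} {f₀ r : ℝ} (h : El f f₀) (hr : 0 < r)
    (hv : Van (Q r ∩ {p | p.2 < 0}) f) : f₀ = 0 := by
  by_contra hne
  obtain ⟨η, h0, hη⟩ := h (|f₀| / 2) (half_pos (abs_pos.2 hne))
  have m0 := lt_min h0 hr
  have : ∀ᵐ p : P, p ∉ Q (min η r) ∩ {p | p.2 < 0} := by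
    filter_upwards [hη, hv] with p a b hp
    have := a (Q_mono (min_le_left _ _) hp.1)
    rw [b ⟨Q_mono (min_le_right _ _) hp.1, hp.2⟩, zero_sub, abs_neg] at this
    linarith [abs_pos.2 hne]
  refine ((isOpen_low 0 (min η r)).measure_pos volume ⟨(0, -(min η r / 2)), mem_Q.2 ⟨by simpa using m0,
    ?_⟩, by simpa using m0⟩).ne' (measure_eq_zero_iff_ae_notMem.2 this)
  rw [abs_neg, abs_of_pos (half_pos m0)]
  exact half_lt_self m0

end api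

end Pool.Agent.MP_ed9623_an.H77
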