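import Pool.Agent.MP_ed9623_an.H64.Defs3

/-! Weak solutions of the Navier-Stokes system in a planar domain. -/

open MeasureTheory Filter Topology Set
open scoped ContDiff

namespace Pool.Agent.MP_ed9623_an.H77

open H64

/-- The coordinate vectors of the plane. -/
def ee : Fin 2 → ℝ × ℝ := ![(1, 0), (0, 1)]

/-- Smooth functions with compact support in `O`. -/
def Test (O : Set (ℝ × ℝ)) (φ : ℝ × ℝ → ℝ) : Prop :=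
  ContDiff ℝ ∞ φ ∧ HasCompactSupport φ ∧ tsupport φ ⊆ O

/-- The space `L²(Ω)`. -/
abbrev L2 (Ω : Set (ℝ × ℝ)) : Type := Lp ℝ 2 (volume.restrict Ω)

/-- Smooth compactly supported divergence-free fields. -/
def Sole (Ω : Set (ℝ × ℝ)) (φ : Fin 2 → ℝ × ℝ → ℝ) : Prop :=
  (∀ i, Test Ω (φ i)) ∧ ∀ x, ∑ i, pd (ee i) (φ i) x = 0

/-- `u` lies in the closure in `L²` of the smooth compactly supported divergence-free fields. -/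
def InH (Ω : Set (ℝ × ℝ)) (u : Fin 2 → L2 Ω) : Prop :=
  ∀ ε > 0, ∃ φ, Sole Ω φ ∧ ∀ i, ∫ x in Ω, (u i x - φ i x) ^ 2 < ε

/-- `u` lies in the closure in `H¹` of these fields, and `G` is its gradient. -/
def InV (Ω : Set (ℝ × ℝ)) (u : Fin 2 → L2 Ω) (G : Fin 2 → Fin 2 → L2 Ω) : Prop :=
  ∀ ε > 0, ∃ φ, Sole Ω φ ∧ ∀ i, ∫ x in Ω, (u i x - φ i x) ^ 2 < ε ∧
    ∀ j, ∫ x in Ω, (G i j x - pd (ee j) (φ i) x) ^ 2 < ε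

/-- The pairing of `Δ u - div (u ⊗ u) - ∇ p + g` with the test field `φ`. -/
noncomputable def rhs (Ω : Set (ℝ × ℝ)) (g u : Fin 2 → L2 Ω) (p : L2 Ω)
    (φ : Fin 2 → ℝ × ℝ → ℝ) : ℝ :=
  ∑ i, ∫ x in Ω, (u i x * ∑ j, pd (ee j) (pd (ee j) (φ i)) x
    + ∑ j, u i x * u j x * pd (ee j) (φ i) x + p x * pd (ee i) (φ i) x + g i x * φ i x)

/-- A weak solution `u ∈ C([0, ∞); H) ∩ L²_loc([0, ∞); V)` with its mean-zero pressure. -/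
structure Traj (Ω : Set (ℝ × ℝ)) (g : Fin 2 → L2 Ω) (u : ℝ → Fin 2 → L2 Ω) (p : ℝ → L2 Ω) :
    Prop where
  cont : ContinuousOn u (Ici 0)
  inH : ∀ t, 0 ≤ t → InH Ω (u t)
  inV : ∃ G : ℝ → Fin 2 → Fin 2 → L2 Ω, (∀ T, MemLp G 2 (volume.restrict (Ioo 0 T))) ∧
    ∀ᵐ t, 0 < t → InV Ω (u t) (G t)
  mean : ∀ t, 0 < t → ∫ x in Ω, p t x = 0
  eq : ∀ t, 0 < t → ∀ φ : Fin 2 → ℝ × ℝ → ℝ, (∀ i, Test Ω (φ i)) →
    HasDerivAt (fun s => ∑ i, ∫ x in Ω, u s i x * φ i x) (rhs Ω g (u t) (p t) φ) t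

/-- Near `x₀` the curve `ρ = 0` is a regular real-analytic curve. -/
def BdAna (ρ : ℝ × ℝ → ℝ) (x₀ : ℝ × ℝ) : Prop :=
  ∃ F : ℝ × ℝ → ℝ, AnalyticAt ℝ F x₀ ∧ fderiv ℝ F x₀ ≠ 0 ∧ ∀ᶠ x in 𝓝 x₀, ρ x = 0 ↔ F x = 0

/-- On `O` the distribution `curl g = ∂₁ g₂ - ∂₂ g₁` is a real-analytic function. -/
def CurlAna (Ω : Set (ℝ × ℝ)) (g : Fin 2 → L2 Ω) (O : Set (ℝ × ℝ)) : Prop :=
  ∃ G : ℝ × ℝ → ℝ, AnalyticOnNhd ℝ G O ∧ ∀ φ, Test O φ →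
    ∫ x in Ω, (g 0 x * pd (ee 1) φ x - g 1 x * pd (ee 0) φ x) = ∫ x, G x * φ x

end Pool.Agent.MP_ed9623_an.H77
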