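import Pool.Agent.MP_ed9623_an.H77.Defs

/-! The exceptional class of domains and forces. -/

open MeasureTheory Filter Topology Set

namespace Pool.Agent.MP_ed9623_an.H77

open H64

/-- On `O` the distribution `curl g = ∂₁ g₂ - ∂₂ g₁` is the real-analytic function `G`. -/
def CurlIs (Ω : Set (ℝ × ℝ)) (g : Fin 2 → L2 Ω) (O : Set (ℝ × ℝ)) (G : ℝ × ℝ → ℝ) : Prop :=
  AnalyticOnNhd ℝ G O ∧ ∀ φ, Test O φ →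
    ∫ x in Ω, (g 0 x * pd (ee 1) φ x - g 1 x * pd (ee 0) φ x) = ∫ x, G x * φ x

/-- The outer boundary of `{ρ < 0}` is a circle. -/
def Circ (ρ : ℝ × ℝ → ℝ) : Prop :=
  ∃ (c : ℝ × ℝ) (R : ℝ), 0 < R ∧ ∀ x : ℝ × ℝ,
    (ρ x < 0 → (x.1 - c.1) ^ 2 + (x.2 - c.2) ^ 2 < R ^ 2) ∧
      ((x.1 - c.1) ^ 2 + (x.2 - c.2) ^ 2 = R ^ 2 → ρ x = 0)

/-- The boundary point `x₀` of `Ω = {ρ < 0}` is exceptional for the force `g`. -/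
def Exc (ρ : ℝ × ℝ → ℝ) (Ω : Set (ℝ × ℝ)) (g : Fin 2 → L2 Ω) (x₀ : ℝ × ℝ) : Prop :=
  BdAna ρ x₀ ∧ ∃ r > 0, ∃ (G : ℝ × ℝ → ℝ) (l : ℝ), CurlIs Ω g (Ω ∩ Metric.ball x₀ r) G ∧
    Tendsto (fun x => G x / ρ x ^ 6) (𝓝[Ω] x₀) (𝓝 l) ∧
    (l * dcurvature ρ x₀ < 0 ∨ dcurvature ρ x₀ = 0 ∨
      (¬ IsPreconnected {x | ρ x = 0} ∧ ∀ᶠ x in 𝓝[Ω] x₀, G x = 0))

end Pool.Agent.MP_ed9623_an.H77
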