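import Pool.Agent.MP_ed9623_an.H77.Def2
import Pool.Agent.MP_ed9623_an.H77.Abs

/-! The function spaces of the Navier-Stokes system, and time dependent data. -/

open MeasureTheory Filter Topology Set
open scoped ContDiff InnerProductSpace

namespace Pool.Agent.MP_ed9623_an.H77

open H64

/-- Indices of the components and of their first derivatives. -/
abbrev Ix : Type := Fin 2 × Option (Fin 2)

/-- First order jets of vector fields. -/
abbrev E6 : Type := PiLp 2 fun _ : Ix => L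

/-- Square integrable vector fields. -/
abbrev X2 : Type := PiLp 2 fun _ : Fin 2 => L

/-- The values. -/
noncomputable def vl (v : E6) : Fin 2 → P → ℝ := fun j => v (j, none)

/-- The gradient, `gj v j i = ∂_i v_j`. -/
noncomputable def gj (v : E6) : Fin 2 → Fin 2 → P → ℝ := fun j i => v (j, some i)

/-- `v` is the jet of `φ`. -/
def Jet (φ : Fin 2 → P → ℝ) (v : E6) : Prop :=
  ∀ j, vl v j =ᵐ[volume] φ j ∧ ∀ i, gj v j i =ᵐ[volume] pd (ee i) (φ j)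

theorem co_add (u v : E6) (ix : Ix) : (u + v) ix =ᵐ[volume] fun p => u ix p + v ix p :=
  Lp.coeFn_add (u ix) (v ix)

theorem co_sub (u v : E6) (ix : Ix) : (u - v) ix =ᵐ[volume] fun p => u ix p - v ix p :=
  Lp.coeFn_sub (u ix) (v ix)

theorem co_smul (c : ℝ) (v : E6) (ix : Ix) : (c • v) ix =ᵐ[volume] fun p => c * v ix p :=
  Lp.coeFn_smul c (v ix)

theorem co_zero (ix : Ix) : (0 : E6) ix =ᵐ[volume] fun _ => 0 := Lp.coeFn_zero _ _ _

theorem Jet.add {φ ψ : Fin 2 → P → ℝ} {u v : E6} (h : Jet φ u) (h' : Jet ψ v)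
    (hφ : ∀ j, ContDiff ℝ ∞ (φ j)) (hψ : ∀ j, ContDiff ℝ ∞ (ψ j)) :
    Jet (fun j p => φ j p + ψ j p) (u + v) := fun j => ⟨by
  filter_upwards [co_add u v (j, none), (h j).1, (h' j).1] with p a b c
  exact a.trans (congrArg₂ _ b c), fun i => by
  filter_upwards [co_add u v (j, some i), (h j).2 i, (h' j).2 i] with p a b c
  rw [pd_add _ (sm_diff (hφ j) p) (sm_diff (hψ j) p)]
  exact a.trans (congrArg₂ _ b c)⟩

theorem Jet.smul {φ : Fin 2 → P → ℝ} {u : E6} (h : Jet φ u) (hφ : ∀ j, ContDiff ℝ ∞ (φ j))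
    (c : ℝ) : Jet (fun j p => c * φ j p) (c • u) := fun j => ⟨by
  filter_upwards [co_smul c u (j, none), (h j).1] with p a b
  exact a.trans (congrArg _ b), fun i => by
  filter_upwards [co_smul c u (j, some i), (h j).2 i] with p a b
  rw [pd_const_mul _ _ (sm_diff (hφ j) p)]
  exact a.trans (congrArg _ b)⟩

theorem Jet.zero : Jet (fun _ _ => 0) 0 := fun j => ⟨co_zero (j, none), fun i => by
  rw [pd_zero_fun]; exact co_zero (j, some i)⟩

/-- Jets of test fields. -/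
def Y0 (Ω : Set P) : Submodule ℝ E6 where
  carrier := {v | ∃ φ, (∀ j, Test Ω (φ j)) ∧ Jet φ v}
  add_mem' := fun ⟨_, a, b⟩ ⟨_, c, d⟩ =>
    ⟨_, fun j => (a j).add (c j), b.add d (fun j => (a j).1) fun j => (c j).1⟩
  zero_mem' := ⟨_, fun _ => Test.zero Ω, Jet.zero⟩
  smul_mem' := fun c _ ⟨_, a, b⟩ => ⟨_, fun j => (a j).cmul c, b.smul (fun j => (a j).1) c⟩

/-- Jets of divergence-free test fields. -/
def V0 (Ω : Set P) : Submodule ℝ E6 where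
  carrier := {v | ∃ φ, Sole Ω φ ∧ Jet φ v}
  add_mem' := fun ⟨φ, a, b⟩ ⟨ψ, c, d⟩ => ⟨_, ⟨fun j => (a.1 j).add (c.1 j), fun x => by
      rw [Finset.sum_congr rfl fun i _ => pd_add _ (sm_diff (a.1 i).1 x) (sm_diff (c.1 i).1 x),
        Finset.sum_add_distrib, a.2, c.2, add_zero]⟩,
    b.add d (fun j => (a.1 j).1) fun j => (c.1 j).1⟩
  zero_mem' := ⟨_, ⟨fun _ => Test.zero Ω, fun x => by simp [pd_zero_fun]⟩, Jet.zero⟩
  smul_mem' := fun c _ ⟨φ, a, b⟩ => ⟨_, ⟨fun j => (a.1 j).cmul c, fun x => by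
      rw [Finset.sum_congr rfl fun i _ => pd_const_mul _ c (sm_diff (a.1 i).1 x), ← Finset.mul_sum,
        a.2, mul_zero]⟩, b.smul (fun j => (a.1 j).1) c⟩

/-- The space `H¹₀(Ω)²`. -/
noncomputable def Ys (Ω : Set P) : Submodule ℝ E6 := (Y0 Ω).topologicalClosure

/-- The space `V`. -/
noncomputable def Vs (Ω : Set P) : Submodule ℝ E6 := (V0 Ω).topologicalClosure

abbrev YY (Ω : Set P) : Type := Ys Ω

abbrev VV (Ω : Set P) : Type := Vs Ω

instance cY (Ω : Set P) : CompleteSpace (YY Ω) :=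
  (Y0 Ω).isClosed_topologicalClosure.completeSpace_coe

instance cV (Ω : Set P) : CompleteSpace (VV Ω) :=
  (V0 Ω).isClosed_topologicalClosure.completeSpace_coe

/-- The projection of a jet on its values. -/
noncomputable def vE : E6 →L[ℝ] X2 :=
  (PiLp.continuousLinearEquiv 2 ℝ fun _ : Fin 2 => L).symm.toContinuousLinearMap ∘L
    ContinuousLinearMap.pi fun j => PiLp.proj 2 (fun _ : Ix => L) (j, none)

theorem vE_apply (v : E6) (j : Fin 2) : vE v j = v (j, none) := rfl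

noncomputable def dj (v ζ : E6) : ℝ := ∑ j, ∑ i, ∫ x, gj v j i x * gj ζ j i x

noncomputable def tj (a w ζ : E6) : ℝ := ∑ j, ∑ i, ∫ x, vl a i x * vl w j x * gj ζ j i x

/-- The abstract data describe the Navier-Stokes system in `Ω` with force `g`. -/
structure Mod (Ω : Set P) (g : Fin 2 → P → ℝ) (S : St X2 (VV Ω)) (D : Pd X2 (VV Ω) (YY Ω)) :
    Prop where
  ι : ∀ v, S.ι v = vE v.1
  A : ∀ v ζ, ⟪S.A v, ζ⟫_ℝ = dj v.1 ζ.1
  B : ∀ a w ζ, ⟪S.B a w, ζ⟫_ℝ = -tj a.1 w.1 ζ.1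
  γ : ∀ ζ, ⟪S.γ, ζ⟫_ℝ = ip g (vl ζ.1)
  J : ∀ x ζ, ⟪D.J x, ζ⟫_ℝ = ip (fun j => x j) (vl ζ.1)
  AY : ∀ v ζ, ⟪D.A v, ζ⟫_ℝ = dj v.1 ζ.1
  BY : ∀ a w ζ, ⟪D.B a w, ζ⟫_ℝ = -tj a.1 w.1 ζ.1
  γY : ∀ ζ, ⟪D.γ, ζ⟫_ℝ = ip g (vl ζ.1)
  anti : ∀ u, ⟪S.B u u, u⟫_ℝ = 0
  cpt : IsCompactOperator S.ι

/-- Extension by zero. -/
noncomputable def xt (Ω : Set P) (f : L2 Ω) : P → ℝ := Ω.indicator f

section congr

variable {γ : ℝ → ℝ} {u u' w w' f f' ζ ζ' : Fin 2 → P → ℝ} {d d' : Fin 2 → Fin 2 → P → ℝ}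

theorem ip_congr (h : ∀ j, u j =ᵐ[volume] u' j) (h' : ∀ j, ζ j =ᵐ[volume] ζ' j) :
    ip u ζ = ip u' ζ' :=
  Finset.sum_congr rfl fun j _ => integral_congr_ae ((h j).mul (h' j))

theorem di_congr (h : ∀ j i, d j i =ᵐ[volume] d' j i) (ζ : Fin 2 → P → ℝ) :
    di γ d ζ = di γ d' ζ :=
  Finset.sum_congr rfl fun j _ => Finset.sum_congr rfl fun i _ =>
    integral_congr_ae ((h j i).mul EventuallyEq.rfl)

theorem tl_congr (h : ∀ j, u j =ᵐ[volume] u' j) (h' : ∀ j, w j =ᵐ[volume] w' j)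
    (ζ : Fin 2 → P → ℝ) : tl γ u w ζ = tl γ u' w' ζ :=
  Finset.sum_congr rfl fun j _ => Finset.sum_congr rfl fun i _ =>
    integral_congr_ae (((h i).mul (h' j)).mul EventuallyEq.rfl)

theorem VF.congr (h : VF γ u d) (hu : ∀ j, u j =ᵐ[volume] u' j)
    (hd : ∀ j i, d j i =ᵐ[volume] d' j i) : VF γ u' d' :=
  ⟨fun j => (h.h1 j).congr (hu j) (hd j), by
    filter_upwards [h.dv, hd 0 0, hd 1 1] with p a b c using b ▸ c ▸ a⟩

theorem P2.congr {ϑ R : ℝ} {D O : Set P} (h : P2 γ ϑ D O R u d f)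
    (hu : ∀ j, u j =ᵐ[volume] u' j) (hd : ∀ j i, d j i =ᵐ[volume] d' j i)
    (hf : ∀ j, f j =ᵐ[volume] f' j) : P2 γ ϑ D O R u' d' f' :=
  ⟨h.vf.congr hu hd, fun j => ⟨nm_congr (hu j) ▸ (h.nb j).1, fun i =>
    nm_congr (hd j i) ▸ (h.nb j).2 i⟩, fun j => ⟨(h.mf j).1.congr (hf j),
      nm_congr (hf j) ▸ (h.mf j).2⟩, fun j => (h.van j).congr (hu j), fun θ hθ => by
    have := h.eq θ hθ
    unfold E2 at this ⊢
    rwa [← di_congr hd, ← tl_congr hu hu, ← ip_congr hf fun _ => EventuallyEq.rfl]⟩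

theorem Good.half {O : Set P} {M : ℝ} {dw : Fin 2 → Fin 2 → P → ℝ}
    (h : Good γ O (fun j p => u j p + w j p) (fun j i p => d j i p + dw j i p) M)
    (h' : Good γ O (fun j p => u j p - w j p) (fun j i p => d j i p - dw j i p) M) :
    Good γ O u d M := by
  refine ⟨fun j => ?_, fun j i φ e a b => ?_⟩
  · filter_upwards [h.1 j, h'.1 j] with p a b hp
    have a' := abs_le.1 (a hp)
    have b' := abs_le.1 (b hp)
    exact abs_le.2 ⟨by linarith [a'.1, b'.1], by linarith [a'.2, b'.2]⟩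
  obtain ⟨a1, a2⟩ := h.2 j i φ e a b
  obtain ⟨b1, b2⟩ := h'.2 j i φ e a b
  have q : (fun p => φ p * d j i p) = fun p => 1 / 2 * (φ p * (d j i p + dw j i p)
      + φ p * (d j i p - dw j i p)) := funext fun p => by ring
  rw [q, nm_cmul, abs_of_pos one_half_pos]
  exact ⟨(a1.add b1).cmul _, by linarith [nm_add_le a1 b1]⟩

theorem Good.mono {O O' : Set P} {M : ℝ} (h : Good γ O u d M) (hO : O' ⊆ O) : Good γ O' u d M :=
  ⟨fun j => (h.1 j).mono fun _ a b => a (hO b), fun j i φ e a b =>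
    h.2 j i φ e a (b.mono (compl_subset_compl.2 hO))⟩

theorem Ch.mono {Ω : Set P} {x τ : P} {σ r r' : ℝ} (h : Ch Ω x τ γ σ r) (h0 : 0 < r')
    (hr : r' ≤ r) : Ch Ω x τ γ σ r' :=
  ⟨h.un, h.gam, h0, h.s0, h.g0, fun p hp => h.mem p (Q_mono hr hp)⟩

/-- Small squares are mapped into a given ball. -/
theorem Ch.small {Ω : Set P} {x τ : P} {σ r ε : ℝ} (h : Ch Ω x τ γ σ r) (hε : 0 < ε) :
    ∃ r', 0 < r' ∧ r' ≤ r ∧ Thi x τ γ ⁻¹' Q r' ⊆ Metric.ball x ε := by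
  obtain ⟨δ, δ0, hδ⟩ := Metric.continuousAt_iff.1
    ((sm_Th h.gam x τ).continuous.continuousAt (x := 0)) ε hε
  refine ⟨min δ r, lt_min δ0 h.r0, min_le_right _ _, fun q hq => ?_⟩
  rw [mem_preimage, Q_eq_ball] at hq
  have := hδ (Metric.ball_subset_ball (min_le_left _ _) hq)
  rwa [Th_Thi h.un, Th_zero h.g0] at this

end congr

section space

variable {Ω N : Set P} {u v : E6}

theorem m2_vl (v : E6) (j : Fin 2) : M2 (vl v j) := M2.coe _

theorem m2_gj (v : E6) (j i : Fin 2) : M2 (gj v j i) := M2.coe _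

theorem nm_co_le (v : E6) (ix : Ix) : nm (v ix) ≤ ‖v‖ := by
  rw [nm_coe]; exact PiLp.norm_apply_le v ix

theorem nb_norm (v : E6) : Nb ‖v‖ (vl v) (gj v) := fun j => ⟨nm_co_le v _, fun _ => nm_co_le v _⟩

theorem isClosed_van (N : Set P) : IsClosed {f : L | Van N f} := by
  refine IsSeqClosed.isClosed fun x f hx hf => ?_
  obtain ⟨n, -, hn⟩ := (tendstoInMeasure_of_tendsto_Lp hf).exists_seq_tendsto_ae
  filter_upwards [hn, ae_all_iff.2 fun k => hx (n k)] with p a b hp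
  exact tendsto_nhds_unique a (by simpa only [b _ hp] using tendsto_const_nhds)

theorem exists_int {φ : P → ℝ} (hφ : M2 φ) : ∃ l : L →L[ℝ] ℝ, ∀ f : L, l f = ∫ x, f x * φ x :=
  ⟨innerSL ℝ (MemLp.toLp φ hφ), fun f => by
    rw [innerSL_apply_apply, real_inner_comm, inner_L]
    exact integral_congr_ae (EventuallyEq.rfl.mul hφ.coeFn_toLp)⟩

theorem ct_int {φ : P → ℝ} (hφ : M2 φ) : Continuous fun f : L => ∫ x, f x * φ x := by
  obtain ⟨l, hl⟩ := exists_int hφ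
  exact l.continuous.congr hl

theorem ct_co (ix : Ix) : Continuous fun v : E6 => v ix :=
  (PiLp.proj 2 (fun _ : Ix => L) ix : E6 →L[ℝ] L).continuous

/-- Jets whose values vanish on `N`. -/
def VanS (N : Set P) (ix : Ix) : Submodule ℝ E6 where
  carrier := {v | Van N (v ix)}
  add_mem' := fun {u v} a b => (Van.add a b).congr (co_add u v ix).symm
  zero_mem' := (co_zero ix).mono fun _ a _ => a
  smul_mem' := fun c v a => (Van.smul a fun _ => c).congr (co_smul c v ix).symm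

theorem isClosed_VanS (N : Set P) (ix : Ix) : IsClosed (VanS N ix : Set E6) :=
  (isClosed_van N).preimage (ct_co ix)

/-- Jets of `H¹` fields which vanish outside `Ω`. -/
def YZ (Ω : Set P) : Submodule ℝ E6 where
  carrier := {v | (∀ j, H1 (fun _ => 0) (vl v j) (gj v j)) ∧ ∀ ix, Van Ωᶜ (v ix)}
  add_mem' := fun {u v} a b => ⟨fun j => ((a.1 j).add (b.1 j) Gam.zero).congr (co_add u v _).symm
    fun _ => (co_add u v _).symm, fun ix => (VanS Ωᶜ ix).add_mem (a.2 ix) (b.2 ix)⟩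
  zero_mem' := ⟨fun _ => (show H1 (fun _ => 0) (fun _ => 0) fun _ _ => 0 from
    ⟨M2.zero, fun _ => M2.zero, fun _ _ _ => by simp⟩).congr (co_zero _).symm
      fun _ => (co_zero _).symm, fun ix => (VanS Ωᶜ ix).zero_mem⟩
  smul_mem' := fun c v a => ⟨fun j => ((a.1 j).cmul c).congr (co_smul c v _).symm
    fun _ => (co_smul c v _).symm, fun ix => (VanS Ωᶜ ix).smul_mem c (a.2 ix)⟩

/-- Jets of divergence-free `H¹` fields which vanish outside `Ω`. -/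
def VZ (Ω : Set P) : Submodule ℝ E6 where
  carrier := {v | v ∈ YZ Ω ∧ v (0, some 0) + v (1, some 1) = 0}
  add_mem' := fun {u v} a b => ⟨(YZ Ω).add_mem a.1 b.1, by
    rw [PiLp.add_apply, PiLp.add_apply, add_add_add_comm, a.2, b.2, add_zero]⟩
  zero_mem' := ⟨(YZ Ω).zero_mem, by simp⟩
  smul_mem' := fun c v a => ⟨(YZ Ω).smul_mem c a.1, by
    rw [PiLp.smul_apply, PiLp.smul_apply, ← smul_add, a.2, smul_zero]⟩

theorem mem_VZ : v ∈ VZ Ω ↔ VF (fun _ => 0) (vl v) (gj v) ∧ ∀ ix, Van Ωᶜ (v ix) := by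
  have e : v (0, some 0) + v (1, some 1) = 0 ↔ ∀ᵐ p, gj v 0 0 p + gj v 1 1 p = 0 := by
    rw [Lp.eq_zero_iff_ae_eq_zero]
    exact ⟨fun h => (Lp.coeFn_add _ _).symm.trans h, fun h => (Lp.coeFn_add _ _).trans h⟩
  exact ⟨fun h => ⟨⟨h.1.1, e.1 h.2⟩, h.1.2⟩, fun h => ⟨⟨h.1.h1, h.2⟩, e.2 h.1.dv⟩⟩

theorem isClosed_YZ (Ω : Set P) : IsClosed (YZ Ω : Set E6) := by
  have : (YZ Ω : Set E6) = (⋂ j, ⋂ i, ⋂ φ, ⋂ _ : Test univ φ, {v : E6 |
      ∫ x, v (j, none) x * dd (fun _ => 0) i φ x = -∫ x, v (j, some i) x * φ x})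
        ∩ ⋂ ix, (VanS Ωᶜ ix : Set E6) := by
    ext v
    simp only [mem_inter_iff, mem_iInter]
    exact ⟨fun h => ⟨fun j => (h.1 j).w, h.2⟩, fun h => ⟨fun j => ⟨m2_vl v j, m2_gj v j, h.1 j⟩, h.2⟩⟩
  rw [this]
  exact (isClosed_iInter fun j => isClosed_iInter fun i => isClosed_iInter fun φ =>
    isClosed_iInter fun hφ => isClosed_eq ((ct_int (hφ.dd Gam.zero i).m2).comp (ct_co _))
      ((ct_int hφ.m2).comp (ct_co _)).neg).inter (isClosed_iInter (isClosed_VanS _))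

theorem isClosed_VZ (Ω : Set P) : IsClosed (VZ Ω : Set E6) :=
  (isClosed_YZ Ω).inter (isClosed_eq ((ct_co _).add (ct_co _)) continuous_const)

theorem Jet.mem {φ : Fin 2 → P → ℝ} (h : Jet φ v) (hφ : ∀ j, Test Ω (φ j)) : v ∈ YZ Ω :=
  ⟨fun j => (H1O.zero_iff.2 ⟨(hφ j).m2, fun i => ⟨((hφ j).pd _).m2,
    WD.of_cd (contDiff_infty.1 (hφ j).1 1) _ _⟩⟩).congr (h j).1.symm fun i => ((h j).2 i).symm,
    fun ⟨j, o⟩ => by
      cases o with
      | none => exact (h j).1.mono fun p a hp => a.trans ((hφ j).off hp)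
      | some i => exact ((h j).2 i).mono fun p a hp => a.trans (((hφ j).pd _).off hp)⟩

theorem Ys_le (Ω : Set P) : Ys Ω ≤ YZ Ω :=
  (Y0 Ω).topologicalClosure_minimal (fun _ ⟨_, a, b⟩ => b.mem a) (isClosed_YZ Ω)

theorem Vs_le (Ω : Set P) : Vs Ω ≤ VZ Ω :=
  (V0 Ω).topologicalClosure_minimal (fun _ ⟨φ, a, b⟩ => mem_VZ.2 ⟨⟨(b.mem a.1).1, by
    filter_upwards [(b 0).2 0, (b 1).2 1] with p c d
    rw [c, d, ← a.2 p, Fin.sum_univ_two]⟩, (b.mem a.1).2⟩) (isClosed_VZ Ω)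

theorem Vs_le_Ys (Ω : Set P) : Vs Ω ≤ Ys Ω :=
  Submodule.topologicalClosure_mono fun _ ⟨φ, a, b⟩ => ⟨φ, a.1, b⟩

theorem exists_jet {φ : Fin 2 → P → ℝ} (hφ : ∀ j, Test Ω (φ j)) : ∃ v : E6, Jet φ v :=
  ⟨WithLp.toLp 2 fun ix => match ix with
    | (j, none) => MemLp.toLp _ (hφ j).m2
    | (j, some i) => MemLp.toLp _ ((hφ j).pd (ee i)).m2,
    fun j => ⟨(hφ j).m2.coeFn_toLp, fun i => ((hφ j).pd (ee i)).m2.coeFn_toLp⟩⟩

theorem exists_jetY {φ : Fin 2 → P → ℝ} (hφ : ∀ j, Test Ω (φ j)) : ∃ v : YY Ω, Jet φ v.1 := by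
  obtain ⟨v, hv⟩ := exists_jet hφ
  exact ⟨⟨v, (Y0 Ω).le_topologicalClosure ⟨φ, hφ, hv⟩⟩, hv⟩

theorem exists_jetV {φ : Fin 2 → P → ℝ} (hφ : Sole Ω φ) : ∃ v : VV Ω, Jet φ v.1 := by
  obtain ⟨v, hv⟩ := exists_jet hφ.1
  exact ⟨⟨v, (V0 Ω).le_topologicalClosure ⟨φ, hφ, hv⟩⟩, hv⟩

theorem Jet.ip {φ : Fin 2 → P → ℝ} (h : Jet φ v) (z : Fin 2 → P → ℝ) : ip z (vl v) = ip z φ :=
  ip_congr (fun _ => EventuallyEq.rfl) fun j => (h j).1

theorem Jet.dj {φ : Fin 2 → P → ℝ} (h : Jet φ v) (u : E6) : dj u v = di (fun _ => 0) (gj u) φ :=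
  Finset.sum_congr rfl fun j _ => Finset.sum_congr rfl fun i _ => by
    rw [dd_zero]; exact integral_congr_ae (EventuallyEq.rfl.mul ((h j).2 i))

theorem Jet.tj {φ : Fin 2 → P → ℝ} (h : Jet φ v) (a w : E6) :
    tj a w v = tl (fun _ => 0) (vl a) (vl w) φ :=
  Finset.sum_congr rfl fun j _ => Finset.sum_congr rfl fun i _ => by
    rw [dd_zero]; exact integral_congr_ae (EventuallyEq.rfl.mul ((h j).2 i))

/-- A jet of an `H¹` field whose values vanish is zero. -/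
theorem eq_zero_of_van (hv : v ∈ YZ Ω) (h : ∀ j, Van Ω (vl v j)) : v = 0 := by
  have a : ∀ j, vl v j =ᵐ[volume] fun _ => 0 := fun j => (h j).all (hv.2 (j, none))
  refine PiLp.ext fun ⟨j, o⟩ => Lp.eq_zero_iff_ae_eq_zero.2 ?_
  cases o with
  | none => exact a j
  | some i => exact Eventually.mono ((hv.1 j).van isOpen_univ Subset.rfl Gam.zero
      ((a j).mono fun _ b _ => b) i) fun _ b => b trivial

theorem exists_ip {ζ : Fin 2 → P → ℝ} (hζ : ∀ j, M2 (ζ j)) :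
    ∃ l : E6 →L[ℝ] ℝ, ∀ v, l v = ip (vl v) ζ := by
  choose l hl using fun j => exists_int (hζ j)
  exact ⟨∑ j, l j ∘L PiLp.proj 2 (fun _ : Ix => L) (j, none), fun v => by
    rw [ContinuousLinearMap.sum_apply]; exact Finset.sum_congr rfl fun j _ => hl j _⟩

theorem exists_di {ζ : Fin 2 → P → ℝ} (hζ : ∀ j, Test univ (ζ j)) :
    ∃ l : E6 →L[ℝ] ℝ, ∀ v, l v = di (fun _ => 0) (gj v) ζ := by
  choose l hl using fun j i => exists_int ((hζ j).dd Gam.zero i).m2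
  exact ⟨∑ j, ∑ i, l j i ∘L PiLp.proj 2 (fun _ : Ix => L) (j, some i), fun v => by
    rw [ContinuousLinearMap.sum_apply]
    exact Finset.sum_congr rfl fun j _ => by
      rw [ContinuousLinearMap.sum_apply]; exact Finset.sum_congr rfl fun i _ => hl j i _⟩

theorem exists_mul {m : P → ℝ} (hm : Test univ m) :
    ∃ T : L →L[ℝ] L, ∀ f : L, T f =ᵐ[volume] fun p => m p * f p := by
  obtain ⟨C, c0, hC⟩ := hm.bd
  have k := fun f : L => (M2.coe f).tmul hm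
  refine ⟨LinearMap.mkContinuous ⟨⟨fun f => MemLp.toLp _ (k f), fun f g => ?_⟩, fun c f => ?_⟩ C
    fun f => ?_, fun f => (k f).coeFn_toLp⟩
  · refine ((k _).toLp_congr ((k f).add (k g)) ?_).trans (MemLp.toLp_add (k f) (k g))
    filter_upwards [Lp.coeFn_add f g] with p a
    rw [a]; exact mul_add _ _ _
  · refine ((k _).toLp_congr ((k f).cmul c) ?_).trans (MemLp.toLp_const_smul c (k f))
    filter_upwards [Lp.coeFn_smul c f] with p a
    rw [a]; exact mul_left_comm _ _ _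
  · exact (nm_toLp (k f)).trans_le (nm_coe f ▸ nm_bmul (M2.coe f) c0 (Eventually.of_forall hC))

theorem exists_tl {ζ : Fin 2 → P → ℝ} (hζ : ∀ j, Test univ (ζ j)) :
    ∃ b : E6 →L[ℝ] E6 →L[ℝ] ℝ, ∀ a w, b a w = tl (fun _ => 0) (vl a) (vl w) ζ := by
  choose T hT using fun j i => exists_mul ((hζ j).dd Gam.zero i)
  refine ⟨∑ j, ∑ i, (innerSL ℝ : L →L[ℝ] L →L[ℝ] ℝ).bilinearComp
    (PiLp.proj 2 (fun _ : Ix => L) (i, none)) (T j i ∘L PiLp.proj 2 (fun _ : Ix => L) (j, none)),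
    fun a w => ?_⟩
  simp only [ContinuousLinearMap.sum_apply]
  refine Finset.sum_congr rfl fun j _ => Finset.sum_congr rfl fun i _ =>
    (inner_L (a (i, none)) (T j i (w (j, none)))).trans (integral_congr_ae ?_)
  filter_upwards [hT j i (w (j, none))] with p hp
  rw [hp, mul_comm (dd _ _ _ _), ← mul_assoc]
  rfl

theorem exists_ext (hΩ : MeasurableSet Ω) :
    ∃ E : L2 Ω →ₗᵢ[ℝ] L, ∀ f, E f =ᵐ[volume] xt Ω f := by
  have k : ∀ f : L2 Ω, M2 (xt Ω f) := fun f => (memLp_indicator_iff_restrict hΩ).2 (Lp.memLp f)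
  refine ⟨⟨⟨⟨fun f => MemLp.toLp _ (k f), fun f g => ?_⟩, fun c f => ?_⟩, fun f => ?_⟩,
    fun f => (k f).coeFn_toLp⟩
  · refine ((k _).toLp_congr ((k f).add (k g)) ?_).trans (MemLp.toLp_add (k f) (k g))
    filter_upwards [(ae_restrict_iff' hΩ).1 (Lp.coeFn_add f g)] with p a
    by_cases hp : p ∈ Ω
    · simpa only [xt, indicator_of_mem hp, Pi.add_apply] using a hp
    · simp [xt, hp]
  · refine ((k _).toLp_congr ((k f).cmul c) ?_).trans (MemLp.toLp_const_smul c (k f))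
    filter_upwards [(ae_restrict_iff' hΩ).1 (Lp.coeFn_smul c f)] with p a
    by_cases hp : p ∈ Ω <;> simp [xt, hp, a]
  · change ‖MemLp.toLp _ (k f)‖ = _
    rw [Lp.norm_toLp, Lp.norm_def, xt, eLpNorm_indicator_eq_eLpNorm_restrict hΩ]

end space

section time

variable {E F : Type} [NormedAddCommGroup E] [NormedSpace ℝ E] [NormedAddCommGroup F]
  [NormedSpace ℝ F] {U : ℝ → E}

theorem deriv_mem {S : Submodule ℝ E} (hS : IsClosed (S : Set E)) {t : ℝ}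
    (h : ∀ᶠ s in 𝓝 t, U s ∈ S) : deriv U t ∈ S := by
  by_cases hd : DifferentiableAt ℝ U t
  · refine hS.mem_of_tendsto (hasDerivAt_iff_tendsto_slope.1 hd.hasDerivAt) ?_
    filter_upwards [nhdsWithin_le_nhds h] with s hs
    rw [slope_def_module]
    exact S.smul_mem _ (S.sub_mem hs h.self_of_nhds)
  · rw [deriv_zero_of_not_differentiableAt hd]; exact S.zero_mem

theorem iter_mem {S : Submodule ℝ E} (hS : IsClosed (S : Set E)) (m : ℕ) {t : ℝ}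
    (h : ∀ᶠ s in 𝓝 t, U s ∈ S) : iteratedDeriv m U t ∈ S := by
  induction m generalizing t with
  | zero => exact h.self_of_nhds
  | succ m ih => rw [iteratedDeriv_succ]; exact deriv_mem hS (h.eventually_nhds.mono fun _ => ih)

theorem sm_iter (h : ContDiff ℝ ∞ U) (m : ℕ) : ContDiff ℝ ∞ (iteratedDeriv m U) := by
  rw [iteratedDeriv_eq_iterate]; exact h.iterate_deriv m

theorem sm_hasDerivAt (h : ContDiff ℝ ∞ U) (t : ℝ) : HasDerivAt U (deriv U t) t :=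
  (h.differentiable (by simp) t).hasDerivAt

theorem deriv_clm (T : E →L[ℝ] F) (h : ContDiff ℝ ∞ U) :
    deriv (fun t => T (U t)) = fun t => T (deriv U t) :=
  funext fun t => (T.hasFDerivAt.comp_hasDerivAt t (sm_hasDerivAt h t)).deriv

theorem iter_clm (T : E →L[ℝ] F) (h : ContDiff ℝ ∞ U) (m : ℕ) :
    iteratedDeriv m (fun t => T (U t)) = fun t => T (iteratedDeriv m U t) := by
  induction m with
  | zero => rfl
  | succ m ih => rw [iteratedDeriv_succ, ih, deriv_clm T (sm_iter h m), iteratedDeriv_succ]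

end time

/-- A component of a curve of jets. -/
def cp (U : ℝ → E6) (ix : Ix) : ℝ → L := fun t => U t ix

theorem sm_cp {U : ℝ → E6} (h : ContDiff ℝ ∞ U) (ix : Ix) : ContDiff ℝ ∞ (cp U ix) :=
  (PiLp.proj 2 (fun _ : Ix => L) ix : E6 →L[ℝ] L).contDiff.comp h

theorem iter_cp {U : ℝ → E6} (h : ContDiff ℝ ∞ U) (ix : Ix) (m : ℕ) (t : ℝ) :
    iteratedDeriv m (cp U ix) t = iteratedDeriv m U t ix :=
  congrFun (iter_clm (PiLp.proj 2 (fun _ : Ix => L) ix : E6 →L[ℝ] L) h m) t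

theorem deriv_cp {U : ℝ → E6} (h : ContDiff ℝ ∞ U) (ix : Ix) (t : ℝ) :
    deriv (cp U ix) t = deriv U t ix :=
  congrFun (deriv_clm (PiLp.proj 2 (fun _ : Ix => L) ix : E6 →L[ℝ] L) h) t

/-- All time derivatives are in `H^k(O)`, locally uniformly in time. -/
def Rg (I : Set ℝ) (O : Set P) (k : ℕ) (W : ℝ → L) : Prop :=
  ∀ m : ℕ, ∀ t₀ ∈ I, ∃ M : ℝ, 0 ≤ M ∧ ∀ᶠ t in 𝓝 t₀, HB O k (iteratedDeriv m W t : L) M

/-- A complete bounded solution. -/
def Sv (Ω : Set P) (g : Fin 2 → P → ℝ) (R : ℝ) (U : ℝ → E6) : Prop :=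
  ContDiff ℝ ∞ U ∧ ∀ t, P2 (fun _ => 0) 1 Ω univ R (vl (U t)) (gj (U t))
    fun j p => g j p - vl (deriv U t) j p

/-- Half sum and half difference of two complete bounded solutions with the same pressure. -/
structure Pv (Ω : Set P) (g : Fin 2 → P → ℝ) (R : ℝ) (a w : ℝ → E6) : Prop where
  sa : ContDiff ℝ ∞ a
  sw : ContDiff ℝ ∞ w
  ma : ∀ t, a t ∈ VZ Ω
  mw : ∀ t, w t ∈ VZ Ω
  mg : ∀ j, M2 (g j)
  nw : ∀ t, ‖w t‖ ≤ R
  s1 : Sv Ω g R fun t => a t + w t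
  s2 : Sv Ω g R fun t => a t - w t
  e1 : ∀ t ζ, (∀ j, Test Ω (ζ j)) →
    E1 (fun _ => 0) (vl (a t)) (vl (w t)) (gj (w t)) (vl (deriv w t)) ζ

theorem Pv.p1 {Ω : Set P} {g : Fin 2 → P → ℝ} {R : ℝ} {a w : ℝ → E6} (h : Pv Ω g R a w) (t : ℝ) :
    P2 (fun _ => 0) 1 Ω univ R (fun j p => vl (a t) j p + vl (w t) j p)
      (fun j i p => gj (a t) j i p + gj (w t) j i p)
      fun j p => g j p - (vl (deriv a t) j p + vl (deriv w t) j p) :=
  (h.s1.2 t).congr (fun _ => co_add _ _ _) (fun _ _ => co_add _ _ _) fun j => by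
    rw [((sm_hasDerivAt h.sa t).fun_add (sm_hasDerivAt h.sw t)).deriv]
    exact EventuallyEq.rfl.sub (co_add _ _ _)

theorem Pv.p2 {Ω : Set P} {g : Fin 2 → P → ℝ} {R : ℝ} {a w : ℝ → E6} (h : Pv Ω g R a w) (t : ℝ) :
    P2 (fun _ => 0) 1 Ω univ R (fun j p => vl (a t) j p - vl (w t) j p)
      (fun j i p => gj (a t) j i p - gj (w t) j i p)
      fun j p => g j p - (vl (deriv a t) j p - vl (deriv w t) j p) :=
  (h.s2.2 t).congr (fun _ => co_sub _ _ _) (fun _ _ => co_sub _ _ _) fun j => by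
    rw [((sm_hasDerivAt h.sa t).fun_sub (sm_hasDerivAt h.sw t)).deriv]
    exact EventuallyEq.rfl.sub (co_sub _ _ _)

theorem Pv.mz {Ω : Set P} {g : Fin 2 → P → ℝ} {R : ℝ} {a w : ℝ → E6} (h : Pv Ω g R a w) (t : ℝ) :
    deriv w t ∈ VZ Ω := deriv_mem (isClosed_VZ Ω) (Eventually.of_forall h.mw)

/-- A solution in the square `Q r`, for a force whose curl is the smooth function `G`. -/
structure Lv (r : ℝ) (g : Fin 2 → P → ℝ) (G : P → ℝ) (U : ℝ → E6) : Prop where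
  sm : ContDiff ℝ ∞ U
  vf : ∀ t, U t ∈ VZ univ
  mg : ∀ j, M2 (g j)
  tG : Test univ G
  eq : ∀ t θ, Test (Q r) θ →
    E2 (fun _ => 0) 1 (vl (U t)) (gj (U t)) (fun j p => g j p - vl (deriv U t) j p) θ
  cu : ∀ θ, Test (Q r) θ → -ip g (perp (fun _ => 0) θ) = ∫ x, G x * θ x

/-- The curl of `g` is analytic on `O`. -/
def CurlF (g : Fin 2 → P → ℝ) (O : Set P) : Prop :=
  ∃ G : P → ℝ, AnalyticOnNhd ℝ G O ∧
    ∀ θ, Test O θ → -ip g (perp (fun _ => 0) θ) = ∫ x, G x * θ x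

/-- `f` agrees near `x`, almost everywhere, with an analytic function. -/
def AeAna (f : P → ℝ) (x : P) : Prop :=
  ∃ (F : P → ℝ) (ε : ℝ), 0 < ε ∧ AnalyticAt ℝ F x ∧ ∀ᵐ p, p ∈ Metric.ball x ε → f p = F p

/-- The same as `H64.SmAt`. -/
def SmA (ρ : P → ℝ) (z : ST) (f : ST → ℝ) : Prop :=
  ∀ k : ℕ, ∃ F, ContDiffAt ℝ k F z ∧ f =ᶠ[𝓝[{y : ST | ρ y.2 < 0}] z] F

/-- The vorticity, the same as `H64.vort (W 0) (W 1)`. -/
noncomputable def vo (W : Fin 2 → ST → ℝ) : ST → ℝ := pd e1 (W 1) - pd e2 (W 0)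

/-- The convective derivative of the vorticity. -/
noncomputable def cv (W : Fin 2 → ST → ℝ) : ST → ℝ :=
  fun y => W 0 y * pd e1 (vo W) y + W 1 y * pd e2 (vo W) y

/-- `W` is a representative of `w` near `(t₀, x₀)`, smooth up to the boundary. -/
structure Rp (ρ : P → ℝ) (x₀ : P) (t₀ ε : ℝ) (w : ℝ → E6) (W : Fin 2 → ST → ℝ) : Prop where
  c6 : ∀ j, ContDiff ℝ (6 : ℕ) (W j)
  bd : ∀ j (y : ST), ρ y.2 = 0 → W j y = 0
  sm : ∀ j (y : ST), y.1 ∈ Metric.ball t₀ ε → y.2 ∈ Metric.ball x₀ ε → SmA ρ y (W j)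
  ae : ∀ j, ∀ t ∈ Metric.ball t₀ ε, ∀ᵐ x, x ∈ {x | ρ x < 0} ∩ Metric.ball x₀ ε →
    W j (t, x) = vl (w t) j x

/-- A classical solution of the heat system in a zone where the half sum vanishes. -/
structure Zn (ρ : P → ℝ) (x₀ : P) (t₀ ε : ℝ) (W : Fin 2 → ST → ℝ) : Prop where
  c6 : ∀ j, ContDiff ℝ (6 : ℕ) (W j)
  bd : ∀ j (y : ST), ρ y.2 = 0 → W j y = 0
  sm : ∀ j (y : ST), y.1 ∈ Metric.ball t₀ ε → y.2 ∈ Metric.ball x₀ ε → SmA ρ y (W j)
  eq : ∀ y : ST, y.1 ∈ Metric.ball t₀ ε → y.2 ∈ Metric.ball x₀ ε → ρ y.2 < 0 →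
    Lh (W 0) y = 0 ∧ Lh (W 1) y = 0 ∧ pd e1 (W 0) y + pd e2 (W 1) y = 0 ∧ pd e0 (cv W) y = 0

/-- Left side of the Carleman estimate at time `t`. -/
noncomputable def cL (c : P) (s τ β t₀ K : ℝ) (χ : ST → ℝ) (W : ℝ → L) (D : Fin 2 → ℝ → L)
    (t : ℝ) : ℝ :=
  ∫ x, Real.exp (τ * wt c s β t₀ (t, x)) ^ 2 * (τ * s / 4 * ∑ i,
    (χ (t, x) * D i t x + pd ((0, ee i) : ST) χ (t, x) * W t x) ^ 2
      + (4 * τ ^ 3 * s ^ 4 - 64 * τ - 2 * τ ^ 2 * K) * (χ (t, x) * W t x) ^ 2)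

/-- Right side of the Carleman estimate at time `t`. -/
noncomputable def cR (c : P) (s τ β t₀ : ℝ) (χ : ST → ℝ) (W : ℝ → L) (D : Fin 2 → ℝ → L)
    (F : ℝ → P → ℝ) (t : ℝ) : ℝ :=
  ∫ x, Real.exp (τ * wt c s β t₀ (t, x)) ^ 2 * (2 * (Lh χ (t, x) * W t x
    + 2 * ∑ i, pd ((0, ee i) : ST) χ (t, x) * D i t x - χ (t, x) * F t x) ^ 2)

end Pool.Agent.MP_ed9623_an.H77
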