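import Pool.Agent.MP_ed9623_an.H77.Abs

/-! Statements of the abstract part. -/

open MeasureTheory Filter Topology Set
open scoped ContDiff InnerProductSpace

namespace Pool.Agent.MP_ed9623_an.H77

/-- Steklov averages and translations in `L²`. -/
def StekS : Prop := ∀ {V : Type} [NormedAddCommGroup V] [InnerProductSpace ℝ V] [CompleteSpace V]
    {I : Set ℝ} {G : ℝ → V}, Itv I → Loc2 I G →
  (∀ s t s' t' h : ℝ, s' ∈ I → t' ∈ I → s ≤ t → s' ≤ s → s' ≤ s + h → t ≤ t' → t + h ≤ t' →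
    ∫ r in s..t, ‖stk h G r‖ ^ 2 ≤ ∫ r in s'..t', ‖G r‖ ^ 2) ∧
  (∀ h, ContinuousOn (stk h G) (I ∩ {t | t + h ∈ I})) ∧
  ∀ s ∈ I, ∀ t ∈ I, s ≤ t →
    Tendsto (fun h => ∫ r in s..t, ‖stk h G r - G r‖ ^ 2) (𝓝[≠] 0) (𝓝 0) ∧
    Tendsto (fun h => ∫ r in s..t, ‖G (r + h) - G r‖ ^ 2) (𝓝 0) (𝓝 0)

/-- Energy equality. -/
def LmS : Prop := ∀ {H V : Type} [NormedAddCommGroup H] [InnerProductSpace ℝ H] [CompleteSpace H]
    [NormedAddCommGroup V] [InnerProductSpace ℝ V] [CompleteSpace V]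
    {ι : V →L[ℝ] H} {I : Set ℝ} {z : ℝ → H} {Z G : ℝ → V}, Itv I → Lin ι I z Z G →
  ∀ s ∈ I, ∀ t ∈ I, ‖z t‖ ^ 2 - ‖z s‖ ^ 2 = ∫ r in s..t, 2 * ⟪G r, Z r⟫_ℝ

/-- Gronwall estimate. -/
def PlS : Prop := ∀ K : ℝ, ∃ Γ : ℝ, 0 ≤ Γ ∧
  ∀ {H V : Type} [NormedAddCommGroup H] [InnerProductSpace ℝ H] [CompleteSpace H]
    [NormedAddCommGroup V] [InnerProductSpace ℝ V] [CompleteSpace V]
    {ι : V →L[ℝ] H} {I : Set ℝ} {y : ℝ → H} {Z G : ℝ → V} {c s t : ℝ} {k m : ℝ → ℝ},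
    Itv I → Lin ι I y Z G → 0 ≤ c → s ∈ I → t ∈ I → s ≤ t → IntervalIntegrable k volume s t →
    IntervalIntegrable m volume s t → (∀ r, 0 ≤ k r) → (∀ r, 0 ≤ m r) → ∫ r in s..t, k r ≤ K →
    (∀ᵐ r, r ∈ Ioo s t → 2 * ⟪G r, Z r⟫_ℝ ≤ -c * ‖Z r‖ ^ 2 + k r * ‖y r‖ ^ 2 + m r) →
    (∀ r ∈ Icc s t, ‖y r‖ ^ 2 ≤ Γ * (‖y s‖ ^ 2 + ∫ r in s..t, m r)) ∧
      c * ∫ r in s..t, ‖Z r‖ ^ 2 ≤ Γ * (‖y s‖ ^ 2 + ∫ r in s..t, m r)

/-- Multiplication by a linear weight. -/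
def WtS : Prop := ∀ {H V : Type} [NormedAddCommGroup H] [InnerProductSpace ℝ H] [CompleteSpace H]
    [NormedAddCommGroup V] [InnerProductSpace ℝ V] [CompleteSpace V]
    {ι : V →L[ℝ] H} {I : Set ℝ} {y : ℝ → H} {Z G : ℝ → V}, Itv I → Lin ι I y Z G → ∀ s : ℝ,
  Lin ι I (fun r => (r - s) • y r) (fun r => (r - s) • Z r) fun r => (r - s) • G r + adj ι (y r)

/-- Difference quotients in time are bounded. -/
def Dq1S : Prop := ∀ {H V : Type} [NormedAddCommGroup H] [InnerProductSpace ℝ H] [CompleteSpace H]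
    [NormedAddCommGroup V] [InnerProductSpace ℝ V] [CompleteSpace V]
    {S : St H V} {I : Set ℝ} {z : ℝ → H} {Z : ℝ → V}, Itv I → Wk S I z Z →
  ∀ s ∈ I, ∀ t ∈ I, s ≤ t → ∃ M : ℝ, ∀ᶠ h in 𝓝[≠] (0 : ℝ),
    (∀ r ∈ Icc s t, ‖dq h z r‖ ≤ M) ∧ ∫ r in s..t, ‖dq h Z r‖ ^ 2 ≤ M

/-- Difference quotients in time are Cauchy. -/
def Dq2S : Prop := ∀ {H V : Type} [NormedAddCommGroup H] [InnerProductSpace ℝ H] [CompleteSpace H]
    [NormedAddCommGroup V] [InnerProductSpace ℝ V] [CompleteSpace V]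
    {S : St H V} {I : Set ℝ} {z : ℝ → H} {Z : ℝ → V}, Itv I → Wk S I z Z →
  ∀ s ∈ I, ∀ t ∈ I, s ≤ t → ∀ ε : ℝ, 0 < ε → ∀ᶠ p : ℝ × ℝ in 𝓝[≠] (0 : ℝ) ×ˢ 𝓝[≠] (0 : ℝ),
    (∀ r ∈ Icc s t, ‖dq p.1 z r - dq p.2 z r‖ ≤ ε) ∧
      ∫ r in s..t, ‖dq p.1 Z r - dq p.2 Z r‖ ^ 2 ≤ ε

/-- The time derivative solves the linearised equation. -/
def DerS : Prop := ∀ {H V : Type} [NormedAddCommGroup H] [InnerProductSpace ℝ H] [CompleteSpace H]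
    [NormedAddCommGroup V] [InnerProductSpace ℝ V] [CompleteSpace V]
    {S : St H V} {I : Set ℝ} {z : ℝ → H} {Z : ℝ → V}, Itv I → Wk S I z Z →
  ∃ (z₁ : ℝ → H) (Z₁ : ℝ → V), (∀ t ∈ I, HasDerivAt z (z₁ t) t) ∧
    Lin S.ι I z₁ Z₁ fun t => S.G' (Z t) (Z₁ t)

/-- The doubled system. -/
def DblS : Prop := ∀ {H V : Type} [NormedAddCommGroup H] [InnerProductSpace ℝ H] [CompleteSpace H]
    [NormedAddCommGroup V] [InnerProductSpace ℝ V] [CompleteSpace V]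
    (S : St H V), ∃ T : St (WithLp 2 (H × H)) (WithLp 2 (V × V)),
  (∀ u y, T.ι (WithLp.toLp 2 (u, y)) = WithLp.toLp 2 (S.ι u, S.ι y)) ∧
  (∀ a b, adj T.ι (WithLp.toLp 2 (a, b)) = WithLp.toLp 2 (adj S.ι a, adj S.ι b)) ∧
  ∀ u y, T.G (WithLp.toLp 2 (u, y)) = WithLp.toLp 2 (S.G u, S.G' u y)

/-- Weak solutions are smooth in time with values in `V`. -/
def SmoothS : Prop := ∀ {H V : Type} [NormedAddCommGroup H] [InnerProductSpace ℝ H] [CompleteSpace H]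
    [NormedAddCommGroup V] [InnerProductSpace ℝ V] [CompleteSpace V]
    {S : St H V} {I : Set ℝ} {z : ℝ → H} {Z : ℝ → V}, Itv I → Wk S I z Z →
  ∃ U : ℝ → V, Sm S I U ∧ ∀ t ∈ I, S.ι (U t) = z t

/-- Hoelder estimate. -/
def HolS : Prop := ∀ {H V : Type} [NormedAddCommGroup H] [InnerProductSpace ℝ H] [CompleteSpace H]
    [NormedAddCommGroup V] [InnerProductSpace ℝ V] [CompleteSpace V]
    (S : St H V) (R : ℝ), ∃ K : ℝ, 0 ≤ K ∧ ∀ (u v : V) (x y : H), adj S.ι x = S.G u →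
    adj S.ι y = S.G v → ‖u‖ ≤ R → ‖v‖ ≤ R → ‖x‖ ≤ R → ‖y‖ ≤ R → ‖u - v‖ ^ 2 ≤ K * ‖S.ι (u - v)‖

/-- Forward Lipschitz estimate. -/
def FwdS : Prop := ∀ {H V : Type} [NormedAddCommGroup H] [InnerProductSpace ℝ H] [CompleteSpace H]
    [NormedAddCommGroup V] [InnerProductSpace ℝ V] [CompleteSpace V]
    (S : St H V) (R : ℝ), ∃ K : ℝ, 0 ≤ K ∧ ∀ {I : Set ℝ} {U W : ℝ → V}, Itv I → Bd S R I U →
    Bd S R I W → ∀ s ∈ I, ∀ t ∈ I, s ≤ t →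
    Real.exp (-(K * (t - s))) * ‖S.ι (U t - W t)‖ ^ 2
      + S.c * ∫ r in s..t, Real.exp (-(K * (r - s))) * ‖U r - W r‖ ^ 2 ≤ ‖S.ι (U s - W s)‖ ^ 2

/-- Absorbing ball. -/
def AbsS : Prop := ∀ {H V : Type} [NormedAddCommGroup H] [InnerProductSpace ℝ H] [CompleteSpace H]
    [NormedAddCommGroup V] [InnerProductSpace ℝ V] [CompleteSpace V]
    (S : St H V), (∀ u, ⟪S.B u u, u⟫_ℝ = 0) → ∃ R : ℝ, ∀ U : ℝ → V, Sm S (Ioi 0) U →
    ∃ T : ℝ, 0 ≤ T ∧ Bd S R (Ioi T) U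

/-- Limit solutions. -/
def LimS : Prop := ∀ {H V : Type} [NormedAddCommGroup H] [InnerProductSpace ℝ H] [CompleteSpace H]
    [NormedAddCommGroup V] [InnerProductSpace ℝ V] [CompleteSpace V]
    {S : St H V} {R T : ℝ} {U : ℝ → V} (l : Ultrafilter ℝ), IsCompactOperator S.ι →
    (l : Filter ℝ) ≤ atTop → Bd S R (Ioi T) U →
    ∃ W : ℝ → V, Bd S R univ W ∧ ∀ s, Tendsto (fun t => U (t + s)) l (𝓝 (W s))

/-- Ehrling inequality. -/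
def EhrS : Prop := ∀ {H V : Type} [NormedAddCommGroup H] [InnerProductSpace ℝ H] [CompleteSpace H]
    [NormedAddCommGroup V] [InnerProductSpace ℝ V] [CompleteSpace V]
    {ι : V →L[ℝ] H}, IsCompactOperator ι → ∀ ε : ℝ, 0 < ε →
    ∃ (n : ℕ) (v : Fin n → V) (A : ℝ), 0 ≤ A ∧
      ∀ u, ‖ι u‖ ^ 2 ≤ ε * ‖u‖ ^ 2 + A * ∑ i, ⟪ι (v i), ι u⟫_ℝ ^ 2

/-- Finite fractal dimension of the set of complete bounded solutions. -/
def CovS : Prop := ∀ {H V : Type} [NormedAddCommGroup H] [InnerProductSpace ℝ H] [CompleteSpace H]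
    [NormedAddCommGroup V] [InnerProductSpace ℝ V] [CompleteSpace V]
    (S : St H V) (R : ℝ), IsCompactOperator S.ι →
    ∃ (κ : Type) (_ : Fintype κ) (D : ℝ), 0 < D ∧ ∀ k : ℕ, ∃ col : (ℝ → V) → Fin k → κ,
      ∀ U W : ℝ → V, Bd S R univ U → Bd S R univ W → col U = col W →
        ‖S.ι (U 0 - W 0)‖ ≤ D / 2 ^ k

/-- The Laplace average of the observed functional. -/
def LapS : Prop := ∀ {H V Y : Type} [NormedAddCommGroup H] [InnerProductSpace ℝ H] [CompleteSpace H]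
    [NormedAddCommGroup V] [InnerProductSpace ℝ V] [CompleteSpace V]
    [NormedAddCommGroup Y] [InnerProductSpace ℝ Y] [CompleteSpace Y]
    (S : St H V) (D : Pd H V Y) (R : ℝ), ∃ l C : ℝ, 0 ≤ C ∧
  (∀ (U W : ℝ → V) (T T' τ τ' : ℝ), Bd S R (Ioi T) U → Bd S R (Ioi T') W → T < τ → T' < τ' →
    ‖lap S D l U τ - lap S D l W τ'‖ ≤ C * ‖S.ι (U τ - W τ')‖) ∧
  (∀ (N : ℕ) (Λ : Y →L[ℝ] (Fin N → ℝ)) (U W : ℝ → V) (T : ℝ), Bd S R (Ioi T) U →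
    Bd S R (Ioi T) W → Tendsto (fun t => Λ (obs S D U t - obs S D W t)) atTop (𝓝 0) →
    Tendsto (fun t => Λ (lap S D l U t - lap S D l W t)) atTop (𝓝 0)) ∧
  ∀ U W : ℝ → V, Bd S R univ U → Bd S R univ W → (∀ t, lap S D l U t = lap S D l W t) →
    ∀ t, obs S D U t = obs S D W t

/-- From uniqueness to determining functionals. -/
def AfS : Prop := ∀ {H V Y : Type} [NormedAddCommGroup H] [InnerProductSpace ℝ H] [CompleteSpace H]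
    [NormedAddCommGroup V] [InnerProductSpace ℝ V] [CompleteSpace V]
    [NormedAddCommGroup Y] [InnerProductSpace ℝ Y] [CompleteSpace Y]
    (S : St H V) (D : Pd H V Y), (∀ u, ⟪S.B u u, u⟫_ℝ = 0) → IsCompactOperator S.ι →
    (∀ (R : ℝ) (U W : ℝ → V), Bd S R univ U → Bd S R univ W → (∀ t, obs S D U t = obs S D W t) →
      ∃ t, t ≤ 0 ∧ U t = W t) →
    ∃ (N : ℕ) (Λ : Y →L[ℝ] (Fin N → ℝ)), ∀ U W : ℝ → V, Sm S (Ioi 0) U → Sm S (Ioi 0) W →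
      Tendsto (fun t => Λ (obs S D U t - obs S D W t)) atTop (𝓝 0) →
      Tendsto (fun t => ‖S.ι (U t - W t)‖) atTop (𝓝 0)

/-- Opposite bounded solutions vanish. -/
def DecS : Prop := ∀ {H V : Type} [NormedAddCommGroup H] [InnerProductSpace ℝ H] [CompleteSpace H]
    [NormedAddCommGroup V] [InnerProductSpace ℝ V] [CompleteSpace V]
    {S : St H V} {R : ℝ} {U W : ℝ → V}, Bd S R univ U → Bd S R univ W →
    (∀ t, t < 0 → U t + W t = 0) → U (-1) = W (-1)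

def OfStek : Prop := StekS
def OfLm : Prop := StekS → LmS
def OfPl : Prop := LmS → PlS
def OfWt : Prop := WtS
def OfDq1 : Prop := StekS → PlS → WtS → Dq1S
def OfDq2 : Prop := StekS → PlS → WtS → Dq1S → Dq2S
def OfDer : Prop := StekS → Dq2S → DerS
def OfDbl : Prop := DblS
def OfSmooth : Prop := DerS → DblS → SmoothS
def OfHol : Prop := HolS
def OfFwd : Prop := FwdS
def OfAbs : Prop := PlS → WtS → AbsS
def OfLim : Prop := HolS → SmoothS → LimS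
def OfEhr : Prop := EhrS
def OfCov : Prop := FwdS → EhrS → CovS
def OfLap : Prop := FwdS → LapS
def OfAf : Prop := AbsS → FwdS → LimS → CovS → LapS → AfS
def OfDec : Prop := DecS

end Pool.Agent.MP_ed9623_an.H77
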