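import Pool.Agent.MP_ed9623_an.H77.Def2

/-! Statements: weak derivatives and the local analysis in a chart. -/

open MeasureTheory Filter Topology Set
open scoped ContDiff

namespace Pool.Agent.MP_ed9623_an.H77

open H64

/-- Smoothness of mollifications, also with a time parameter. -/
def Mol1S : Prop := ∀ k : P → ℝ, Test univ k →
  (∀ f, M2 f → ContDiff ℝ ∞ (mol k f) ∧ ∀ e, pd e (mol k f) = mol (pd e k) f) ∧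
  ∀ W : ℝ → L, ContDiff ℝ ∞ W → ContDiff ℝ ∞ (fun z : ST => mol k (W z.1) z.2) ∧
    (pd e0 fun z : ST => mol k (W z.1) z.2) = (fun z : ST => mol k (deriv W z.1 : L) z.2) ∧
    ∀ e : P, (pd ((0, e) : ST) fun z : ST => mol k (W z.1) z.2)
      = fun z : ST => mol (pd e k) (W z.1) z.2

/-- Kernels, norm and convergence of mollifications. -/
def Mol2S : Prop :=
  (∀ (ε : ℝ) (U : Set P), IsOpen U → U.Nonempty → U ⊆ Metric.ball 0 ε →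
    ∃ k, Ker ε k ∧ tsupport k ⊆ U) ∧
  (∀ ε k f, Ker ε k → M2 f → M2 (mol k f) ∧ nm (mol k f) ≤ nm f) ∧
  (∀ f, M2 f → Tendsto (fun v : P => nm fun p => f (p + v) - f p) (𝓝 0) (𝓝 0)) ∧
  ∀ f, M2 f → ∀ δ : ℝ, 0 < δ → ∃ ε₀ : ℝ, 0 < ε₀ ∧ ∀ ε k, ε ≤ ε₀ → Ker ε k →
    nm (fun p => mol k f p - f p) ≤ δ

/-- Dual bounds pass to mollifications. -/
def MolHS : Prop := ∀ (O O' : Set P) (ε : ℝ) (k f : P → ℝ) (n : ℕ) (R : ℝ), Ker ε k → M2 f →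
  0 ≤ R → (∀ x ∈ O', ∀ v ∈ tsupport k, x - v ∈ O) → HB O n f R → HB O' n (mol k f) R

/-- Riesz representation on test functions. -/
def RieszS : Prop := ∀ (O : Set P) (Λ : (P → ℝ) → ℝ) (R : ℝ), 0 ≤ R →
  (∀ φ ψ, Test O φ → Test O ψ → Λ (fun x => φ x + ψ x) = Λ φ + Λ ψ) →
  (∀ (c : ℝ) φ, Test O φ → Λ (fun x => c * φ x) = c * Λ φ) →
  (∀ φ, Test O φ → |Λ φ| ≤ R * nm φ) →
  ∃ g, M2 g ∧ nm g ≤ R ∧ ∀ φ, Test O φ → Λ φ = ∫ x, g x * φ x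

/-- Facts on dual bounds. -/
def HbS : Prop :=
  (∀ (O : Set P) (k : ℕ) (f : P → ℝ) (R : ℝ), M2 f → 0 ≤ R → HB O (k + 1) f R →
    ∃ g : Fin 2 → P → ℝ, ∀ i, M2 (g i) ∧ nm (g i) ≤ R ∧ WD O (ee i) f (g i) ∧ HB O k (g i) R) ∧
  (∀ (O : Set P) (f : P → ℝ) (R : ℝ), IsOpen O → M2 f → 0 ≤ R → HB O 0 f R →
    nm (O.indicator f) ≤ R) ∧
  ∀ (O : Set P) (k : ℕ) (m : P → ℝ), Bornology.IsBounded O → ContDiff ℝ ∞ m → ∃ C : ℝ, 0 ≤ C ∧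
    HB O k m C ∧ ∀ f R, M2 f → 0 ≤ R → HB O k f R → HB O k (fun p => m p * f p) (C * R)

/-- Product rules. -/
def PrdS : Prop :=
  (∀ (O : Set P) (e : P) (f f' g g' : P → ℝ), IsOpen O → M2 f → M2 f' → M2 g → M2 g' →
    WD O e f f' → WD O e g g' →
    WD O e (fun p => f p * g p) fun p => f' p * g p + f p * g' p) ∧
  ∀ (γ : ℝ → ℝ) (a w ζ : Fin 2 → P → ℝ) (da dw : Fin 2 → Fin 2 → P → ℝ), Gam γ → VF γ a da →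
    (∀ j, H1 γ (w j) (dw j)) → (∀ j, Test univ (ζ j)) →
    tl γ a w ζ = -ip (fun j p => ∑ i, a i p * dw j i p) ζ

/-- Differences and averages in the first variable. -/
def AvS : Prop := ∀ (h : ℝ) (f : P → ℝ), M2 f →
  (M2 (av h f) ∧ nm (av h f) ≤ |h| * nm f) ∧ WD univ (ee 0) (av h f) (dl h f) ∧
  (∀ e g, M2 g → WD univ e f g → WD univ e (av h f) (av h g)) ∧
  (∀ g, M2 g → WD univ (ee 0) f g → av h g =ᵐ[volume] dl h f ∧ nm (dl h f) ≤ |h| * nm g) ∧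
  ∀ a b c d : ℝ, Van (Bx a b c d) f → Van (Bx (a + |h|) (b - |h|) c d) (av h f)

/-- Bounded difference quotients give a weak derivative. -/
def DqdS : Prop := ∀ (O : Set P) (χ f : P → ℝ) (C : ℝ), M2 f → Test univ χ →
  (∀ p ∈ O, χ p = 1) → 0 ≤ C →
  (∀ᶠ h in 𝓝[≠] (0 : ℝ), nm (fun p => χ p * dl h f p) ≤ C * |h|) → TY O f C

/-- Fundamental theorem of calculus on almost every line. -/
def FtcS : Prop := ∀ (a b c d : ℝ) (f g : P → ℝ), M2 f → M2 g →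
  (WD (Bx a b c d) (ee 1) f g → ∃ T : ℝ → ℝ, Measurable T ∧
    ∀ᵐ p : P, p ∈ Bx a b c d → f p = T p.1 + ∫ σ in c..p.2, g (p.1, σ)) ∧
  (WD (Bx a b c d) (ee 0) f g → ∃ T : ℝ → ℝ, Measurable T ∧
    ∀ᵐ p : P, p ∈ Bx a b c d → f p = T p.2 + ∫ y in a..p.1, g (y, p.2))

/-- Pointwise bounds by integrals over segments. -/
def SliceS : Prop := ∀ (a b c d : ℝ) (f g : P → ℝ), M2 f → M2 g →
  (WD (Bx a b c d) (ee 0) f g → ∀ᵐ p : P, p ∈ Bx a b c d → ∀ l : ℝ, 0 < l → l ≤ b - a →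
    f p ^ 2 ≤ 2 * (slY a b f p.2 / l + l * slY a b g p.2)) ∧
  (WD (Bx a b c d) (ee 1) f g → ∀ᵐ p : P, p ∈ Bx a b c d → ∀ l : ℝ, 0 < l → l ≤ d - c →
    f p ^ 2 ≤ 2 * (slS c d f p.1 / l + l * slS c d g p.1))

/-- Anisotropic embeddings on a box. -/
def MixS : Prop := ∀ a b c d : ℝ, ∃ C : ℝ, 0 ≤ C ∧
  (∀ f fY, M2 f → M2 fY → WD (Bx a b c d) (ee 0) f fY →
    ∀ᵐ y, y ∈ Ioo a b → slS c d f y ≤ C * (nm f ^ 2 + nm fY ^ 2)) ∧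
  (∀ f fY φ φS, M2 f → M2 fY → M2 φ → M2 φS → WD (Bx a b c d) (ee 0) f fY →
    WD (Bx a b c d) (ee 1) φ φS → M2 ((Bx a b c d).indicator fun p => φ p * f p) ∧
      nm ((Bx a b c d).indicator fun p => φ p * f p) ≤ C * ((nm f + nm fY) * (nm φ + nm φS))) ∧
  ∀ f fY fS fYS, M2 f → M2 fY → M2 fS → M2 fYS → WD (Bx a b c d) (ee 0) f fY →
    WD (Bx a b c d) (ee 1) f fS → WD (Bx a b c d) (ee 0) fS fYS →
    ∀ᵐ p, p ∈ Bx a b c d → |f p| ≤ C * (nm f + nm fY + nm fS + nm fYS)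

/-- Ladyzhenskaya inequality. -/
def LadS : Prop := ∀ f fY g gS : P → ℝ, M2 f → M2 fY → M2 g → M2 gS → WD univ (ee 0) f fY →
  WD univ (ee 1) g gS → M2 (fun p => f p * g p) ∧
    nm (fun p => f p * g p) ^ 2 ≤ 16 * (nm f * nm fY * (nm g * nm gS))

/-- Traces on `s = 0`. -/
def ZtS : Prop := ∀ (r : ℝ) (f g : P → ℝ), 0 < r → M2 f → M2 g →
  (WD (Qp 0 r) (ee 1) f g → ∃ T, MemLp T 2 (volume.restrict (Ioo (-r) r)) ∧ Trc r f g T ∧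
    ∀ φ, Test (Q r) φ → ∫ p in Qp 0 r, (f p * pd (ee 1) φ p + g p * φ p)
      = -∫ y in Ioo (-r) r, T y * φ (y, 0)) ∧
  (WD (Q r) (ee 1) f g → Van (Q r \ Qp 0 r) f → Trc r f g fun _ => 0) ∧
  (∀ T T', Trc r f g T → Trc r f g T' → ∀ᵐ y, y ∈ Ioo (-r) r → T y = T' y) ∧
  (∀ f' g' T, Trc r f g T → (∀ᵐ p, p ∈ Qp 0 r → f p = f' p ∧ g p = g' p) → Trc r f' g' T) ∧
  (∀ f' g' T T' (m m' : ℝ → ℝ), M2 g' → Trc r f g T → Trc r f' g' T' →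
    Trc r (fun p => m p.1 * f p + m' p.1 * f' p) (fun p => m p.1 * g p + m' p.1 * g' p)
      fun y => m y * T y + m' y * T' y) ∧
  (∀ T, Trc r f g T → ∀ᵐ p : P, p ∈ Qp 0 r → (f p - T p.1) ^ 2 ≤ p.2 * slS 0 r g p.1) ∧
  (Trc r f g (fun _ => 0) → (∀ s₀ : ℝ, ∀ᵐ s, s ∈ Ioo 0 (min s₀ r) →
      slY (-r) r f s ≤ s * ∫ p in Bx (-r) r 0 s₀, g p ^ 2) ∧
    ∀ F : P → ℝ, Continuous F → (∀ᵐ p, p ∈ Qp 0 r → F p = f p) → ∀ y ∈ Ioo (-r) r, F (y, 0) = 0)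

/-- Two one-dimensional lemmas. -/
def G1S : Prop :=
  (∀ (a b : ℝ) (T : ℝ → ℝ), IntegrableOn T (Ioo a b) → (∀ β : ℝ → ℝ, ContDiff ℝ ∞ β →
    HasCompactSupport β → tsupport β ⊆ Ioo a b → ∫ y in Ioo a b, T y * deriv β y = 0) →
    ∃ c : ℝ, ∀ᵐ y, y ∈ Ioo a b → T y = c) ∧
  ∀ (r C : ℝ) (E k : ℝ → ℝ), 0 < r → AEStronglyMeasurable E (volume.restrict (Ioo 0 r)) →
    (∀ᵐ s, s ∈ Ioo 0 r → 0 ≤ E s ∧ E s ≤ C * s) → IntegrableOn k (Ioo 0 r) → (∀ s, 0 ≤ k s) →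
    (∀ β : ℝ → ℝ, ContDiff ℝ ∞ β → HasCompactSupport β → tsupport β ⊆ Ioo 0 r → (∀ s, 0 ≤ β s) →
      -∫ s in Ioo 0 r, E s * deriv β s ≤ ∫ s in Ioo 0 r, k s * E s * β s) →
    ∃ δ : ℝ, 0 < δ ∧ ∀ᵐ s, s ∈ Ioo 0 δ → E s = 0

/-- Density of test functions. -/
def DensS : Prop := ∀ (γ : ℝ → ℝ) (σ r r₁ : ℝ), Gam γ → r₁ < r →
  (∀ f d, H1 γ f d → Van (Qp σ r₁)ᶜ f → ∀ ε : ℝ, 0 < ε → ∃ φ, Test (Qp σ r) φ ∧
    nm (fun p => f p - φ p) ≤ ε ∧ ∀ i, nm (fun p => d i p - dd γ i φ p) ≤ ε) ∧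
  ∀ (θ : P → ℝ) (ζ : Fin 2 → P → ℝ) (dζ : Fin 2 → Fin 2 → P → ℝ),
    H1 γ θ ![ζ 1, fun p => -ζ 0 p] → (∀ j, H1 γ (ζ j) (dζ j)) → Van (Qp σ r₁)ᶜ θ →
    ∀ ε : ℝ, 0 < ε → ∃ φ, Test (Qp σ r) φ ∧ ∀ j, nm (fun p => ζ j p - perp γ φ j p) ≤ ε ∧
      ∀ i, nm (fun p => dζ j i p - dd γ i (perp γ φ j) p) ≤ ε

/-- The test function of the difference quotient method. -/
def DqTS : Prop := ∀ (γ : ℝ → ℝ) (χ : P → ℝ), Gam γ → Test univ χ → ∃ C : ℝ, 0 ≤ C ∧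
  ∀ (h R : ℝ) (φ ϱ : P → ℝ) (d e : Fin 2 → P → ℝ), H1 γ φ d → (∀ i, nm (d i) ≤ R) →
    H1 γ ϱ (fun i p => χ p * e i p) → (∀ i, M2 (e i) ∧ nm (e i) ≤ R * |h|) →
    ∃ ρ ς : Fin 2 → P → ℝ, (∀ i, M2 (ρ i) ∧ M2 (ς i) ∧ nm (ρ i) ≤ C * (R * |h|) ∧
        nm (ς i) ≤ C * (|h| * (R * |h| + ∑ l, nm fun p => χ p * dl h (d l) p))) ∧
      H1 γ (fun p => χ p ^ 2 * dl h φ p + ϱ p) (fun i p => χ p ^ 2 * dl h (d i) p + χ p * ρ i p) ∧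
      H1 γ (dl (-h) fun p => χ p ^ 2 * dl h φ p + ϱ p)
        (fun i p => dl (-h) (fun p => χ p ^ 2 * dl h (d i) p + χ p * ρ i p) p + ς i p) ∧
      nm (dl (-h) fun p => χ p ^ 2 * dl h φ p + ϱ p)
        ≤ C * (|h| * (R * |h| + ∑ l, nm fun p => χ p * dl h (d l) p))

/-- Tangential regularity for the scalar equation. -/
def Reg0S : Prop := ∀ (γ : ℝ → ℝ) (σ r r' R : ℝ), Gam γ → σ ≤ 0 → 0 < r' → r' < r → 0 ≤ R →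
  ∃ C : ℝ, 0 ≤ C ∧ ∀ W d F, So γ σ r W d F → nm W ≤ R → (∀ i, nm (d i) ≤ R) →
    HB (Qp σ r) 0 F R → ∀ i, TY (Q r') (d i) C

/-- Normal derivatives from the equation, and the equation of the tangential derivative. -/
def NorS : Prop := ∀ (γ : ℝ → ℝ) (σ r : ℝ) (W F : P → ℝ) (d dY : Fin 2 → P → ℝ), Gam γ →
  So γ σ r W d F → (∀ i, M2 (dY i)) →
  ((∀ i, WD (Qp σ r) (ee 0) (d i) (dY i)) → M2 (nS γ F dY) ∧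
    WD (Qp σ r) (ee 1) (d 1) (nS γ F dY) ∧
    WD (Qp σ r) (ee 1) (d 0) fun p => dY 1 p - deriv γ p.1 * nS γ F dY p) ∧
  ∀ (dS : Fin 2 → P → ℝ) (FY : P → ℝ), (∀ i, M2 (dS i)) → M2 FY →
    (∀ i, WD (Q r) (ee 0) (d i) (dY i)) → (∀ i, WD (Qp σ r) (ee 1) (d i) (dS i)) →
    WD (Qp σ r) (ee 0) F FY →
    So γ σ r (fun p => d 0 p + deriv γ p.1 * d 1 p) (tD γ d dY) (tF γ d dS FY)

/-- Higher regularity for the scalar equation. -/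
def HkS : Prop := ∀ (γ : ℝ → ℝ) (σ : ℝ) (k : ℕ) (r r' R : ℝ), Gam γ → σ ≤ 0 → 0 < r' → r' < r →
  0 ≤ R → ∃ C : ℝ, 0 ≤ C ∧ ∀ W d F, So γ σ r W d F → nm W ≤ R → (∀ i, nm (d i) ≤ R) →
    HB (Qp σ r) k F R → HB (Qp σ r') (k + 2) W C ∧ ∀ i, HB (Qp σ r') (k + 1) (d i) C

/-- Third order tangential regularity. -/
def Reg3S : Prop := ∀ (γ : ℝ → ℝ) (r r' R : ℝ) (W F : P → ℝ) (d : Fin 2 → P → ℝ), Gam γ →
  0 < r' → r' < r → So γ 0 r W d F → TY (Qp 0 r) F R →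
  ∃ dY dS dYY dYS, R3 γ r' d F dY dS dYY dYS

/-- The difference quotient identity for the stationary system. -/
def L1bS : Prop := ∀ (γ : ℝ → ℝ) (σ r r' : ℝ), Gam γ → σ ≤ 0 → 0 < r' → r' < r →
  ∃ χ, Test univ χ ∧ (∀ p ∈ Q r', χ p = 1) ∧ ∃ C h₀ : ℝ, 0 ≤ C ∧ 0 < h₀ ∧
    ∀ (ϑ R h : ℝ) u du f, P2 γ ϑ (Qp σ r) (Q r) R u du f → |h| ≤ h₀ →
    ∃ (ζ : Fin 2 → P → ℝ) (ρ ς : Fin 2 → Fin 2 → P → ℝ),
      (∀ j, M2 (ζ j) ∧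
        nm (ζ j) ≤ C * (|h| * (R * |h| + ∑ m, ∑ l, nm fun p => χ p * dl h (du m l) p))) ∧
      (∀ j i, M2 (ρ j i) ∧ M2 (ς j i) ∧ nm (ρ j i) ≤ C * (R * |h|) ∧
        nm (ς j i) ≤ C * (|h| * (R * |h| + ∑ m, ∑ l, nm fun p => χ p * dl h (du m l) p))) ∧
      ∑ j, ∑ i, ∫ p, (du j i p - ϑ * (u i p * u j p))
          * (dl (-h) (fun p => χ p ^ 2 * dl h (du j i) p + χ p * ρ j i p) p + ς j i p) = ip f ζ

/-- Tangential regularity for the stationary system. -/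
def L1S : Prop := ∀ (γ : ℝ → ℝ) (σ r r' R : ℝ), Gam γ → σ ≤ 0 → 0 < r' → r' < r →
  ∃ C : ℝ, 0 ≤ C ∧ ∀ (ϑ : ℝ) u du f, |ϑ| ≤ 1 → P2 γ ϑ (Qp σ r) (Q r) R u du f →
    ∀ j i, TY (Q r') (du j i) C

/-- The half difference solves scalar equations with tangentially regular right hand side. -/
def L2aS : Prop := ∀ (γ : ℝ → ℝ) (r : ℝ) a da w dw z dz, Gam γ → 0 < r →
  Pr γ r a da w dw z dz → ∃ G : Fin 2 → P → ℝ, (∀ j, So γ 0 r (w j) (dw j) (G j) ∧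
    Van (Qp 0 r)ᶜ (G j) ∧ ∃ R, TY (Qp 0 r) (G j) R) ∧
    ∀ ζ, (∀ j, Test (Q r) (ζ j)) → (E1 γ a w dw z ζ ↔ di γ dw ζ = ip G ζ)

/-- The boundary vorticity is constant. -/
def TrS : Prop := ∀ (γ : ℝ → ℝ) (r : ℝ) (w G : Fin 2 → P → ℝ)
    (dw dY dS dYY dYS : Fin 2 → Fin 2 → P → ℝ), Gam γ → 0 < r → VF γ w dw →
  (∀ j, Van (Q r \ Qp 0 r) (w j) ∧ M2 (G j) ∧ Van (Q r \ Qp 0 r) (G j) ∧
    R3 γ r (dw j) (G j) (dY j) (dS j) (dYY j) (dYS j)) →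
  (∀ h, Test (Q r) h → di γ dw (grad γ h) = ip G (grad γ h)) →
  ∃ c C : ℝ, (∀ᵐ p : P, p ∈ Qp 0 r → |-dw 0 1 p - c / (1 + deriv γ p.1 ^ 2)| ≤ C * √p.2) ∧
    (c = 0 → ∀ ζ, (∀ j, Test (Q r) (ζ j)) → di γ dw ζ = ip G ζ)

/-- The scalar coefficients. -/
def ScalS : Prop := ∀ (γ : ℝ → ℝ) (r : ℝ) (w G : Fin 2 → P → ℝ)
    (dw dY dS dYY dYS : Fin 2 → Fin 2 → P → ℝ), Gam γ → 0 < r → VF γ w dw →
  (∀ j, Van (Q r \ Qp 0 r) (w j) ∧ R3 γ r (dw j) (G j) (dY j) (dS j) (dYY j) (dYS j)) →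
  ∃ ns nY nYY nYS lY lYY, Sc γ r (fun p => -dw 0 1 p) ns nY nYY nYS
    (fun p => -(dw 0 0 p + deriv γ p.1 * dw 0 1 p)) lY lYY
    fun p => -(dw 1 0 p + deriv γ p.1 * dw 1 1 p)
      + deriv γ p.1 * (dw 0 0 p + deriv γ p.1 * dw 0 1 p)

/-- Pointwise bounds near `s = 0`. -/
def Cf1S : Prop := ∀ (r : ℝ) (f fY : P → ℝ), 0 < r → M2 f → M2 fY → WD (Qp 0 r) (ee 0) f fY →
  (∃ k : ℝ → ℝ, IntegrableOn k (Ioo 0 r) ∧ (∀ s, 0 ≤ k s) ∧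
    ∀ᵐ p : P, p ∈ Qp 0 r → f p ^ 2 ≤ k p.2) ∧
  ∀ g, M2 g → Trc r f g (fun _ => 0) → ∀ δ : ℝ, 0 < δ → ∃ (s₀ : ℝ) (k : ℝ → ℝ), 0 < s₀ ∧
    IntegrableOn k (Ioo 0 r) ∧ (∀ s, 0 ≤ k s) ∧ ∀ᵐ p : P, p ∈ Qp 0 r → p.2 < s₀ →
      |f p| ≤ δ + p.2 * k p.2 ∧ |∫ σ in (0 : ℝ)..p.2, f (p.1, σ)| ≤ δ * p.2

/-- The inequalities for the coefficients. -/
def CoefS : Prop := ∀ (γ : ℝ → ℝ) (r c C : ℝ) (n ns nY nYY nYS l lY lYY m : P → ℝ), Gam γ →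
  0 < deriv (deriv γ) 0 → 0 < r → 0 < c → Sc γ r n ns nY nYY nYS l lY lYY m →
  (∀ᵐ p : P, p ∈ Qp 0 r → |n p - c / (1 + deriv γ p.1 ^ 2)| ≤ C * √p.2) →
  ∃ r₁ K κ k, 0 < r₁ ∧ r₁ ≤ r ∧ Cf r₁ K κ k m (fun p => deriv (deriv γ) p.1 * n p - lY p) n ns nY
    l lY fun p => deriv (deriv γ) p.1 * n p

/-- The cone argument. -/
def En2S : Prop := ∀ (r K : ℝ) (k : ℝ → ℝ) (e es Φ Φy : P → ℝ), 0 < r → 0 ≤ K → M2 e → M2 es →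
  M2 Φ → M2 Φy → WD (Qp 0 r) (ee 1) e es → WD (Qp 0 r) (ee 0) Φ Φy → IntegrableOn k (Ioo 0 r) →
  (∀ s, 0 ≤ k s) → (∀ᵐ p : P, p ∈ Qp 0 r →
    0 ≤ e p ∧ es p - Φy p ≤ k p.2 * e p ∧ |Φ p| ≤ K / √p.2 * e p) →
  (∀ᵐ s, s ∈ Ioo 0 r → ∫ y in Ioo (-r) r, e (y, s) ≤ K * s) →
  ∃ r₂ : ℝ, 0 < r₂ ∧ Van (Qp 0 r₂) e

/-- Uniqueness for the degenerate hyperbolic trace equation. -/
def EnS : Prop := ∀ (r K κ K' : ℝ) (k : ℝ → ℝ) (m ms n ns nY l lY q A B AY AS BY : P → ℝ), 0 < r →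
  Cf r K κ k m ms n ns nY l lY q → M2 A → M2 B → M2 AY → M2 AS → M2 BY →
  WD (Qp 0 r) (ee 0) A AY → WD (Qp 0 r) (ee 1) A AS → WD (Qp 0 r) (ee 0) B BY →
  WD (Qp 0 r) (ee 1) B AY → (∀ᵐ p : P, p ∈ Qp 0 r → |A p| ≤ K' ∧ |B p| ≤ K' ∧
    m p * AS p = n p * BY p - 2 * l p * AY p - q p * A p) →
  (∀ᵐ s, s ∈ Ioo 0 r → slY (-r) r B s ≤ K' * s) →
  ∃ r₂ : ℝ, 0 < r₂ ∧ Van (Qp 0 r₂) A ∧ Van (Qp 0 r₂) B

/-- The dichotomy at a convex boundary point, in the chart. -/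
def LocS : Prop := ∀ (γ : ℝ → ℝ) (r : ℝ) a da w dw z dz, Gam γ → 0 < deriv (deriv γ) 0 → 0 < r →
  Pr γ r a da w dw z dz → ∃ r' : ℝ, 0 < r' ∧ r' ≤ r ∧
    ((∀ ζ, (∀ j, Test (Q r') (ζ j)) → E1 γ a w dw z ζ) ∨ ∀ j, Van (Q r') (a j))

/-- Interior regularity for the stationary system. -/
def H2S : Prop := ∀ r r' R : ℝ, 0 < r' → r' < r → ∃ C : ℝ, 0 ≤ C ∧
  ∀ (ϑ : ℝ) u du f, |ϑ| ≤ 1 → P2 (fun _ => 0) ϑ (Q r) (Q r) R u du f →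
    ∀ j i, HB (Q r') 1 (du j i) C

/-- Products in `H^k` of a box. -/
def PrkS : Prop := ∀ (a b c d : ℝ) (k : ℕ), ∃ C : ℝ, 0 ≤ C ∧ ∀ (f g : P → ℝ) (R R' : ℝ), M2 f →
  M2 g → 0 ≤ R → 0 ≤ R' → HB (Bx a b c d) (max k 2) f R → HB (Bx a b c d) k g R' →
  M2 ((Bx a b c d).indicator fun p => f p * g p) ∧
    HB (Bx a b c d) k ((Bx a b c d).indicator fun p => f p * g p) (C * (R * R'))

/-- One step of the vorticity bootstrap. -/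
def BootSS : Prop := ∀ (k : ℕ) (r r' R : ℝ), 0 < r' → r' < r → 0 ≤ R → ∃ C : ℝ, 0 ≤ C ∧
  ∀ (u z N : Fin 2 → P → ℝ) (du dz : Fin 2 → Fin 2 → P → ℝ) (G : P → ℝ),
    VF (fun _ => 0) u du → (∀ j, H1 (fun _ => 0) (z j) (dz j)) → Nb R u du → M2 G →
    HB (Q r) k G R → (∀ j, M2 (N j) ∧ HB (Q r) (k + 1) (N j) R ∧
      ∀ i, HB (Q r) (k + 1) (du j i) R ∧ HB (Q r) k (dz j i) R) →
    (∀ θ, Test (Q r) θ → di (fun _ => 0) du (perp (fun _ => 0) θ) + ip z (perp (fun _ => 0) θ)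
      + ip N (perp (fun _ => 0) θ) = -∫ x, G x * θ x) →
    ∀ j i, HB (Q r') (k + 2) (du j i) C

/-- The chart. -/
def ThS : Prop := ∀ (x τ : P) (γ : ℝ → ℝ), τ.1 ^ 2 + τ.2 ^ 2 = 1 → Gam γ →
  MeasurePreserving (Th x τ γ) volume volume ∧ MeasurePreserving (Thi x τ γ) volume volume ∧
  (∃ T : L →L[ℝ] L, ∀ f : L, T f =ᵐ[volume] fun p => f (Th x τ γ p)) ∧
  (∀ φ : P → ℝ, ContDiff ℝ ∞ φ →
    (∀ i, dd γ i (fun p => φ (Th x τ γ p)) = tv x τ γ (fun l => pd (ee l) φ) i) ∧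
    ∀ l, pd (ee l) (fun q => φ (Thi x τ γ q)) = bv x τ γ (fun i => dd γ i φ) l) ∧
  (∀ O φ, Test O φ → Test (Th x τ γ ⁻¹' O) (fun p => φ (Th x τ γ p)) ∧
    Test (Thi x τ γ ⁻¹' O) fun q => φ (Thi x τ γ q)) ∧
  ∀ f d, H1 (fun _ => 0) f d → H1 γ (fun p => f (Th x τ γ p)) (tv x τ γ d)

/-- Transport of vector fields and of the three forms. -/
def TransS : Prop := ∀ (x τ : P) (γ : ℝ → ℝ), τ.1 ^ 2 + τ.2 ^ 2 = 1 → Gam γ →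
  (∀ v : Fin 2 → P → ℝ, ((∀ j, M2 (v j)) → ∀ j, M2 (tv x τ γ v j) ∧
      nm (tv x τ γ v j) ≤ nm (v 0) + nm (v 1)) ∧
    ∀ N, ((∀ j, Van N (v j)) → ∀ j, Van (Th x τ γ ⁻¹' N) (tv x τ γ v j)) ∧
      ((∀ j, Van N (tv x τ γ v j)) → ∀ j, Van (Thi x τ γ ⁻¹' N) (v j))) ∧
  (∀ v d, VF (fun _ => 0) v d → VF γ (tv x τ γ v) (td x τ γ d) ∧
    ∀ R, Nb R v d → Nb (4 * R) (tv x τ γ v) (td x τ γ d)) ∧
  (∀ da dw p, trc (td x τ γ da) (td x τ γ dw) p = trc da dw (Th x τ γ p)) ∧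
  (∀ O ζ, (∀ j, Test O (ζ j)) → (∀ j, Test (Thi x τ γ ⁻¹' O) (bv x τ γ ζ j)) ∧
    (∀ j, Test (Th x τ γ ⁻¹' O) (tv x τ γ ζ j)) ∧ bv x τ γ (tv x τ γ ζ) = ζ) ∧
  (∀ θ, ContDiff ℝ ∞ θ →
    bv x τ γ (perp γ θ) = perp (fun _ => 0) (fun q => θ (Thi x τ γ q)) ∧
    bv x τ γ (grad γ θ) = grad (fun _ => 0) fun q => θ (Thi x τ γ q)) ∧
  ∀ ζ, (∀ j, Test univ (ζ j)) →
    (∀ z, (∀ j, M2 (z j)) → ip (tv x τ γ z) ζ = ip z (bv x τ γ ζ)) ∧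
    (∀ d : Fin 2 → Fin 2 → P → ℝ, (∀ j i, M2 (d j i)) →
      di γ (td x τ γ d) ζ = di (fun _ => 0) d (bv x τ γ ζ)) ∧
    ∀ a w, (∀ j, M2 (a j)) → (∀ j, M2 (w j)) →
      tl γ (tv x τ γ a) (tv x τ γ w) ζ = tl (fun _ => 0) a w (bv x τ γ ζ)

/-- Existence of a boundary chart. -/
def ChartS : Prop := ∀ (ρ : P → ℝ) (x₀ : P), ContDiff ℝ ∞ ρ → ρ x₀ = 0 → 0 < curvature ρ x₀ →
  ∃ τ γ r, Ch {x | ρ x < 0} x₀ τ γ 0 r ∧ 0 < deriv (deriv γ) 0 ∧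
    ∀ p ∈ Q r, ρ (Th x₀ τ γ p) = 0 ↔ p.2 = 0

/-- Bounds for a stationary solution near the centre of a chart. -/
def GpS : Prop := ∀ (Ω : Set P) (x τ : P) (γ : ℝ → ℝ) (σ r R : ℝ), Ch Ω x τ γ σ r →
  ∃ M : ℝ, 0 ≤ M ∧ ∀ u du f, P2 (fun _ => 0) 1 Ω univ R u du f →
    Good (fun _ => 0) (Thi x τ γ ⁻¹' Q (r / 2)) u du M ∧
      ∀ j i, TY (Q (r / 2)) (td x τ γ du j i) M

/-- The trace equation, and gradients as test fields. -/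
def TrIS : Prop := ∀ (Ω : Set P) (a w z : Fin 2 → P → ℝ) (da dw dz : Fin 2 → Fin 2 → P → ℝ),
  IsOpen Ω → VF (fun _ => 0) a da → VF (fun _ => 0) w dw → VF (fun _ => 0) z dz →
  (∀ j i, Van Ωᶜ (da j i)) → (∀ ζ, (∀ j, Test Ω (ζ j)) → E1 (fun _ => 0) a w dw z ζ) →
  (∀ᵐ p, trc da dw p = 0) ∧ ∀ h, Test univ h → E1 (fun _ => 0) a w dw z (grad (fun _ => 0) h)

/-- The dichotomy at a convex boundary point. -/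
def DpS : Prop := ∀ (Ω : Set P) (x τ : P) (γ : ℝ → ℝ) (r R : ℝ) (a w z f g : Fin 2 → P → ℝ)
    (da dw dz : Fin 2 → Fin 2 → P → ℝ), IsOpen Ω → Ch Ω x τ γ 0 r → 0 < deriv (deriv γ) 0 →
  VF (fun _ => 0) a da → VF (fun _ => 0) w dw → VF (fun _ => 0) z dz →
  (∀ j, Van Ωᶜ (a j) ∧ Van Ωᶜ (w j) ∧ Van Ωᶜ (z j) ∧ ∀ i, Van Ωᶜ (da j i)) →
  P2 (fun _ => 0) 1 Ω univ R (fun j p => a j p + w j p) (fun j i p => da j i p + dw j i p) f →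
  P2 (fun _ => 0) 1 Ω univ R (fun j p => a j p - w j p) (fun j i p => da j i p - dw j i p) g →
  (∀ ζ, (∀ j, Test Ω (ζ j)) → E1 (fun _ => 0) a w dw z ζ) →
  ∃ ε : ℝ, 0 < ε ∧ ((∀ ζ, (∀ j, Test (Metric.ball x ε) (ζ j)) → E1 (fun _ => 0) a w dw z ζ) ∨
    ∀ j, Van (Metric.ball x ε) (a j))

/-- From the equation of the half difference to a controlled heat system. -/
def FmS : Prop := ∀ (N N' K : Set P) (M R : ℝ), IsOpen N → IsOpen N' → IsCompact K → N' ⊆ K →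
  K ⊆ N → 0 ≤ M → ∃ M' : ℝ, 0 ≤ M' ∧ ∀ (a w z : Fin 2 → P → ℝ) (da dw : Fin 2 → Fin 2 → P → ℝ),
    VF (fun _ => 0) a da → VF (fun _ => 0) w dw → (∀ j, M2 (z j)) → Nb R w dw →
    Good (fun _ => 0) N a da M → (∀ ζ, (∀ j, Test N' (ζ j)) → E1 (fun _ => 0) a w dw z ζ) →
    ∃ F, Ht N' M' w dw z F

def OfMol1 : Prop := Mol1S
def OfMol2 : Prop := Mol2S
def OfMolH : Prop := Mol1S → Mol2S → MolHS
def OfRiesz : Prop := RieszS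
def OfHb : Prop := RieszS → HbS
def OfPrd : Prop := Mol1S → Mol2S → PrdS
def OfAv : Prop := AvS
def OfDqd : Prop := RieszS → DqdS
def OfFtc : Prop := Mol1S → Mol2S → FtcS
def OfSlice : Prop := FtcS → SliceS
def OfMix : Prop := SliceS → MixS
def OfLad : Prop := SliceS → LadS
def OfZt : Prop := FtcS → ZtS
def OfG1 : Prop := G1S
def OfDens : Prop := Mol1S → Mol2S → DensS
def OfDqT : Prop := AvS → DqTS
def OfReg0 : Prop := DensS → DqTS → DqdS → Reg0S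
def OfNor : Prop := NorS
def OfHk : Prop := HbS → Reg0S → NorS → HkS
def OfReg3 : Prop := Reg0S → NorS → Reg3S
def OfL1b : Prop := AvS → LadS → DensS → DqTS → L1bS
def OfL1 : Prop := AvS → LadS → DqdS → L1bS → L1S
def OfL2a : Prop := PrdS → MixS → NorS → L2aS
def OfTr : Prop := MixS → ZtS → G1S → TrS
def OfScal : Prop := ZtS → ScalS
def OfCf1 : Prop := SliceS → ZtS → Cf1S
def OfCoef : Prop := MixS → ZtS → Cf1S → CoefS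
def OfEn2 : Prop := G1S → En2S
def OfEn : Prop := PrdS → En2S → EnS
def OfLoc : Prop := MixS → ZtS → L2aS → Reg3S → TrS → ScalS → CoefS → EnS → LocS
def OfH2 : Prop := L1S → H2S
def OfPrk : Prop := HbS → PrdS → MixS → PrkS
def OfBootS : Prop := HbS → HkS → BootSS
def OfTh : Prop := ThS
def OfTrans : Prop := ThS → TransS
def OfChart : Prop := ChartS
def OfGp : Prop := MixS → L1S → ThS → TransS → GpS
def OfTrI : Prop := Mol1S → Mol2S → PrdS → TrIS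
def OfDp : Prop := ThS → TransS → GpS → TrIS → LocS → DpS
def OfFm : Prop := PrdS → FmS

end Pool.Agent.MP_ed9623_an.H77
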