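import Pool.Agent.MP_ed9623_an.H77.Mod
import Pool.Agent.MP_ed9623_an.H77.SpecA
import Pool.Agent.MP_ed9623_an.H77.SpecW

/-! Statements: the model, unique continuation, the zone and the analytic case. -/

open MeasureTheory Filter Topology Set
open scoped ContDiff InnerProductSpace

namespace Pool.Agent.MP_ed9623_an.H77

open H64

/-- Poincare inequality and compact embedding. -/
def CptS : Prop := ∀ Ω : Set P, Bornology.IsBounded Ω →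
  (∃ c : ℝ, 0 < c ∧ ∀ v ∈ Ys Ω, c * ‖v‖ ^ 2 ≤ dj v v) ∧
    IsCompactOperator (vE ∘L (Vs Ω).subtypeL)

/-- The abstract data exist. -/
def ModelS : Prop := ∀ (Ω : Set P) (g : Fin 2 → P → ℝ), Bornology.IsBounded Ω → (∀ j, M2 (g j)) →
  ∃ S D, Mod Ω g S D

/-- A trajectory is a weak solution of the abstract equation. -/
def Tr1S : Prop := ∀ (Ω : Set P) (g : Fin 2 → L2 Ω) (S : St X2 (VV Ω)) (D : Pd X2 (VV Ω) (YY Ω))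
    (u : ℝ → Fin 2 → L2 Ω) (p : ℝ → L2 Ω), IsOpen Ω → Mod Ω (fun j => xt Ω (g j)) S D →
  Traj Ω g u p → ∃ z Z, Wk S (Ioi 0) z Z ∧ ∀ t j, z t j =ᵐ[volume] xt Ω (u t j)

/-- The observed functional is the pressure. -/
def Tr2S : Prop := ∀ (Ω : Set P) (g : Fin 2 → L2 Ω) (S : St X2 (VV Ω)) (D : Pd X2 (VV Ω) (YY Ω))
    (u : ℝ → Fin 2 → L2 Ω) (p : ℝ → L2 Ω) (U : ℝ → VV Ω), IsOpen Ω →
  Mod Ω (fun j => xt Ω (g j)) S D → Traj Ω g u p → Sm S (Ioi 0) U →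
  (∀ t, 0 < t → ∀ j, S.ι (U t) j =ᵐ[volume] xt Ω (u t j)) → ∀ t, 0 < t → ∀ ζ : YY Ω,
    ⟪obs S D U t, ζ⟫_ℝ = -∫ x, xt Ω (p t) x * (gj ζ.1 0 0 x + gj ζ.1 1 1 x)

/-- From abstract solutions to the concrete pair. -/
def CvS : Prop := ∀ (Ω : Set P) (g : Fin 2 → P → ℝ) (S : St X2 (VV Ω)) (D : Pd X2 (VV Ω) (YY Ω))
    (R : ℝ) (U W : ℝ → VV Ω), (∀ j, M2 (g j)) → Mod Ω g S D → Bd S R univ U → Bd S R univ W →
  (∀ t, obs S D U t = obs S D W t) → ∃ R', Pv Ω g R' (fun t => (1 / 2 : ℝ) • ((U t).1 + (W t).1))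
    fun t => (1 / 2 : ℝ) • ((U t).1 - (W t).1)

/-- The Carleman estimate for weak solutions. -/
def Rc1S : Prop := ∀ (c : P) (s τ β t₀ K M : ℝ) (χ : ST → ℝ) (I : Set ℝ) (N : Set P) (W : ℝ → L)
    (D : Fin 2 → ℝ → L) (F : ℝ → P → ℝ) (b : ℝ → ℝ), 0 < s → 0 ≤ τ → IsOpen N → ContDiff ℝ ∞ χ →
  HasCompactSupport χ → (∀ z ∈ tsupport χ, z.1 ∈ I ∧ z.2 ∈ N ∧ s ≤ qq c z ∧
    qq c z ≤ 13 / 10 * s ∧ (6 * s - 2 * β * (z.1 - t₀)) ^ 2 ≤ K) → ContDiff ℝ ∞ W →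
  (∀ i, Continuous (D i)) → (∀ t i, WD univ (ee i) (W t) (D i t)) →
  (∀ t ∈ I, M2 (F t) ∧ nm (F t) ≤ M ∧ ∀ φ, Test N φ → (∫ x, (deriv W t : L) x * φ x)
    + ∑ i, ∫ x, D i t x * pd (ee i) φ x = ∫ x, F t x * φ x) →
  Integrable b → (∀ t, cR c s τ β t₀ χ W D F t ≤ b t) →
  Integrable (cL c s τ β t₀ K χ W D) ∧ ∫ t, cL c s τ β t₀ K χ W D t ≤ ∫ t, b t

/-- Unique continuation from a disc to a larger disc. -/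
def Rc2S : Prop := ∀ (c : P) (s M : ℝ) (I : Set ℝ) (N : Set P) (w : ℝ → E6), 0 < s → 0 ≤ M →
  IsOpen I → IsOpen N → ContDiff ℝ ∞ w → (∀ t, w t ∈ YZ univ) →
  {x | qq c (0, x) < 3 / 2 * s} ⊆ N →
  (∀ t ∈ I, ∃ F, Ht N M (vl (w t)) (gj (w t)) (vl (deriv w t)) F) →
  (∀ t ∈ I, ∀ j, Van {x | qq c (0, x) < 21 / 20 * s} (vl (w t) j)) →
  ∀ t ∈ I, ∀ j, Van {x | qq c (0, x) < 11 / 10 * s} (vl (w t) j)

/-- Unique continuation in a connected open set. -/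
def UcS : Prop := ∀ (I : Set ℝ) (O : Set P) (w : ℝ → E6), IsOpen I → IsOpen O → IsPreconnected O →
  ContDiff ℝ ∞ w → (∀ t, w t ∈ YZ univ) →
  (∀ x ∈ O, ∃ (N : Set P) (M : ℝ), IsOpen N ∧ x ∈ N ∧ 0 ≤ M ∧
    ∀ t ∈ I, ∃ F, Ht N M (vl (w t)) (gj (w t)) (vl (deriv w t)) F) →
  (∃ x ∈ O, ∃ ε : ℝ, 0 < ε ∧ ∀ t ∈ I, ∀ j, Van (Metric.ball x ε) (vl (w t) j)) →
  ∀ t ∈ I, ∀ j, Van O (vl (w t) j)

/-- If the equation holds across the boundary, the two solutions coincide. -/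
def UcPS : Prop := ∀ (Ω : Set P) (x τ : P) (γ : ℝ → ℝ) (r R ε : ℝ) (g : Fin 2 → P → ℝ)
    (a w : ℝ → E6) (I : Set ℝ), IsOpen Ω → IsPreconnected Ω → Ch Ω x τ γ 0 r → Pv Ω g R a w →
  IsOpen I → 0 < ε → (∀ t ∈ I, ∀ ζ, (∀ j, Test (Metric.ball x ε) (ζ j)) →
    E1 (fun _ => 0) (vl (a t)) (vl (w t)) (gj (w t)) (vl (deriv w t)) ζ) → ∀ t ∈ I, w t = 0

/-- Smooth approximations with uniform bounds. -/
def RepAS : Prop := ∀ (a b c d a' b' d' t₀ : ℝ) (k : ℕ) (W : ℝ → L), a < a' → b' < b → d' < d →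
  ContDiff ℝ ∞ W → Rg {t₀} (Bx a b c d) (k + 2) W → ∃ (f : ℕ → ST → ℝ) (M : ℝ),
    (∀ n, ContDiff ℝ ∞ (f n)) ∧
    (∀ n (z : ST), c < z.2.2 → ∀ j ≤ k, ‖iteratedFDeriv ℝ j (f n) z‖ ≤ M) ∧
    ∀ᶠ t in 𝓝 t₀, ∀ φ, Test (Bx a' b' c d') φ →
      Tendsto (fun n => ∫ x, f n (t, x) * φ x) atTop (𝓝 (∫ x, W t x * φ x))

/-- Extension and limit. -/
def RepBS : Prop := ∀ (c M : ℝ) (k : ℕ) (f : ℕ → ST → ℝ), (∀ n, ContDiff ℝ ∞ (f n)) →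
  (∀ n (z : ST), c < z.2.2 → ∀ j ≤ k + 1, ‖iteratedFDeriv ℝ j (f n) z‖ ≤ M) →
  ∃ (F : ST → ℝ) (l : Ultrafilter ℕ), ContDiff ℝ k F ∧ (l : Filter ℕ) ≤ atTop ∧
    TendstoLocallyUniformlyOn f F l {z | c < z.2.2}

/-- Regular representatives. -/
def RepS : Prop :=
  (∀ (a b c d a' b' d' t₀ : ℝ) (k : ℕ) (W : ℝ → L), a < a' → b' < b → d' < d → ContDiff ℝ ∞ W →
    Rg {t₀} (Bx a b c d) (k + 3) W → ∃ F : ST → ℝ, ContDiff ℝ k F ∧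
      ∀ᶠ t in 𝓝 t₀, ∀ᵐ p, p ∈ Bx a' b' c d' → F (t, p) = W t p) ∧
  ∀ (r r' t₀ : ℝ) (W : ℝ → L), r' < r → ContDiff ℝ ∞ W → (∀ k, Rg univ (Q r) k W) →
    ∃ F : ST → ℝ, ContDiff ℝ ∞ F ∧ ∀ᶠ t in 𝓝 t₀, ∀ᵐ p, p ∈ Q r' → F (t, p) = W t p

/-- Classical derivatives of representatives. -/
def Cl0S : Prop := ∀ N : Set P, IsOpen N →
  (∀ h : P → ℝ, Continuous h → (∀ θ, Test N θ → ∫ x, h x * θ x = 0) → ∀ x ∈ N, h x = 0) ∧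
  (∀ (f g g' : P → ℝ) (e : P), ContDiff ℝ (1 : ℕ) f → M2 g' → (∀ᵐ p, p ∈ N → f p = g p) →
    WD N e g g' → ∀ᵐ p, p ∈ N → pd e f p = g' p) ∧
  ∀ (F : ST → ℝ) (W : ℝ → L) (t : ℝ), ContDiff ℝ (1 : ℕ) F → ContDiff ℝ ∞ W →
    (∀ᶠ s in 𝓝 t, ∀ᵐ p, p ∈ N → F (s, p) = W s p) →
    ∀ᵐ p, p ∈ N → pd e0 F (t, p) = (deriv W t : L) p

/-- Regularity up to the boundary for the heat system. -/
def Z1S : Prop := ∀ (Ω : Set P) (x τ : P) (γ : ℝ → ℝ) (r r' : ℝ) (w : ℝ → E6) (I : Set ℝ)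
    (T : L →L[ℝ] L), Ch Ω x τ γ 0 r → 0 < r' → r' < r → ContDiff ℝ ∞ w → (∀ t, w t ∈ YZ Ω) →
  IsOpen I → (∀ f : L, T f =ᵐ[volume] fun p => f (Th x τ γ p)) →
  (∀ t ∈ I, ∀ j φ, Test (Ω ∩ Thi x τ γ ⁻¹' Q r) φ → (∫ x, vl (deriv w t) j x * φ x)
    + ∑ i, ∫ x, gj (w t) j i x * pd (ee i) φ x = 0) →
  ∀ k j, Rg I (Qp 0 r') k fun t => T (w t (j, none))

/-- The representative in the plane. -/
def Z2S : Prop := ∀ (ρ : P → ℝ) (x τ : P) (γ : ℝ → ℝ) (r t₀ ε₀ : ℝ) (w : ℝ → E6) (I : Set ℝ)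
    (T : L →L[ℝ] L), Continuous ρ → Ch {x | ρ x < 0} x τ γ 0 r →
  (∀ p ∈ Q r, ρ (Th x τ γ p) = 0 ↔ p.2 = 0) → ContDiff ℝ ∞ w → (∀ t, w t ∈ YZ {x | ρ x < 0}) →
  IsOpen I → t₀ ∈ I → 0 < ε₀ → (∀ f : L, T f =ᵐ[volume] fun p => f (Th x τ γ p)) →
  (∀ k j, Rg I (Qp 0 r) k fun t => T (w t (j, none))) →
  ∃ (ε : ℝ) (W : Fin 2 → ST → ℝ), 0 < ε ∧ ε ≤ ε₀ ∧ Rp ρ x t₀ ε w W

/-- The classical equations in the zone. -/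
def ClassS : Prop := ∀ (ρ : P → ℝ) (x : P) (t₀ ε : ℝ) (w : ℝ → E6) (W : Fin 2 → ST → ℝ)
    (g : Fin 2 → P → ℝ), Continuous ρ → ContDiff ℝ ∞ w → (∀ t, w t ∈ VZ univ) →
  Rp ρ x t₀ ε w W →
  (∀ t ∈ Metric.ball t₀ ε, ∀ j φ, Test ({x | ρ x < 0} ∩ Metric.ball x ε) φ →
    (∫ x, vl (deriv w t) j x * φ x) + ∑ i, ∫ x, gj (w t) j i x * pd (ee i) φ x = 0) →
  (∀ t ∈ Metric.ball t₀ ε, ∀ θ, Test ({x | ρ x < 0} ∩ Metric.ball x ε) θ →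
    tl (fun _ => 0) (vl (w t)) (vl (w t)) (perp (fun _ => 0) θ) = -ip g (perp (fun _ => 0) θ)) →
  Zn ρ x t₀ ε W ∧ ∀ t ∈ Metric.ball t₀ ε, ∀ θ, Test ({x | ρ x < 0} ∩ Metric.ball x ε) θ →
    -ip g (perp (fun _ => 0) θ) = ∫ x, cv W (t, x) * θ x

/-- In the zone, the boundary is analytic or the solution vanishes. -/
def TailS : Prop := ∀ (ρ : P → ℝ) (x : P) (t₀ ε : ℝ) (W : Fin 2 → ST → ℝ), ContDiff ℝ ∞ ρ →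
  ρ x = 0 → 0 < curvature ρ x → 0 < ε → Zn ρ x t₀ ε W → BdAna ρ x ∨ ∃ δ : ℝ, 0 < δ ∧
    ∀ y : ST, y.1 ∈ Metric.ball t₀ ε → y.2 ∈ Metric.ball x δ → ρ y.2 < 0 → ∀ j, W j y = 0

/-- In the zone, the curl of the force is analytic. -/
def AnaZS : Prop := ∀ (ρ : P → ℝ) (x : P) (t₀ ε : ℝ) (W : Fin 2 → ST → ℝ), Continuous ρ →
  Zn ρ x t₀ ε W → ∀ t ∈ Metric.ball t₀ ε,
    AnalyticOnNhd ℝ (fun x => cv W (t, x)) ({x | ρ x < 0} ∩ Metric.ball x ε)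

/-- The Baire category step. -/
def TriAS : Prop := ∀ (Ω : Set P) (x τ : P) (γ : ℝ → ℝ) (r R α β : ℝ) (g : Fin 2 → P → ℝ)
    (a w : ℝ → E6), IsOpen Ω → Ch Ω x τ γ 0 r → 0 < deriv (deriv γ) 0 → Pv Ω g R a w → α < β →
  ∃ (I : Set ℝ) (ε : ℝ), IsOpen I ∧ I.Nonempty ∧ I ⊆ Ioo α β ∧ 0 < ε ∧
    ((∀ t ∈ I, ∀ ζ, (∀ j, Test (Metric.ball x ε) (ζ j)) →
      E1 (fun _ => 0) (vl (a t)) (vl (w t)) (gj (w t)) (vl (deriv w t)) ζ) ∨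
    ∀ t ∈ I, ∀ j, Van (Metric.ball x ε) (vl (a t) j))

/-- The zone case. -/
def TriBS : Prop := ∀ (ρ : P → ℝ) (x τ : P) (γ : ℝ → ℝ) (r R ε : ℝ) (g : Fin 2 → P → ℝ)
    (a w : ℝ → E6) (I : Set ℝ), ContDiff ℝ ∞ ρ → ρ x = 0 → 0 < curvature ρ x →
  Ch {x | ρ x < 0} x τ γ 0 r → (∀ p ∈ Q r, ρ (Th x τ γ p) = 0 ↔ p.2 = 0) →
  Pv {x | ρ x < 0} g R a w → IsOpen I → I.Nonempty → 0 < ε →
  (∀ t ∈ I, ∀ j, Van (Metric.ball x ε) (vl (a t) j)) →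
  (∃ (I' : Set ℝ) (ε' : ℝ), IsOpen I' ∧ I'.Nonempty ∧ I' ⊆ I ∧ 0 < ε' ∧
    ∀ t ∈ I', ∀ ζ, (∀ j, Test (Metric.ball x ε') (ζ j)) →
      E1 (fun _ => 0) (vl (a t)) (vl (w t)) (gj (w t)) (vl (deriv w t)) ζ) ∨
  (BdAna ρ x ∧ ∃ δ : ℝ, 0 < δ ∧ CurlF g ({x | ρ x < 0} ∩ Metric.ball x δ))

/-- The equations of the time derivatives. -/
def JetEqS : Prop := ∀ (r : ℝ) (g : Fin 2 → P → ℝ) (G : P → ℝ) (U : ℝ → E6), Lv r g G U →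
  ∀ (m : ℕ) (t : ℝ) (θ : P → ℝ), Test (Q r) θ →
    di (fun _ => 0) (gj (iteratedDeriv m U t)) (perp (fun _ => 0) θ)
      + ip (vl (iteratedDeriv (m + 1) U t)) (perp (fun _ => 0) θ)
      = (if m = 0 then ip g (perp (fun _ => 0) θ) else 0)
        + ∑ i ∈ Finset.range (m + 1), (m.choose i : ℝ) * tl (fun _ => 0) (vl (iteratedDeriv i U t))
          (vl (iteratedDeriv (m - i) U t)) (perp (fun _ => 0) θ)

/-- Interior `H²` bounds for all time derivatives. -/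
def Boot0S : Prop := ∀ (r r' : ℝ) (g : Fin 2 → P → ℝ) (G : P → ℝ) (U : ℝ → E6), Lv r g G U →
  0 < r' → r' < r → ∀ j i, Rg univ (Q r') 1 (cp U (j, some i))

/-- Interior `H^k` bounds for all time derivatives. -/
def BootS : Prop := ∀ (r r' : ℝ) (g : Fin 2 → P → ℝ) (G : P → ℝ) (U : ℝ → E6), Lv r g G U →
  0 < r' → r' < r → ∀ k j, Rg univ (Q r') k (cp U (j, none))

/-- Interior analyticity at the origin. -/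
def AnaCS : Prop := ∀ (r : ℝ) (g : Fin 2 → P → ℝ) (G : P → ℝ) (U : ℝ → E6), Lv r g G U → 0 < r →
  AnalyticAt ℝ G 0 → ∀ t j, AeAna (vl (U t) j) 0

/-- Interior analyticity. -/
def AnaPS : Prop := ∀ (Ω : Set P) (g : Fin 2 → P → ℝ) (R : ℝ) (U : ℝ → E6), IsOpen Ω →
  (∀ j, M2 (g j)) → Sv Ω g R U → CurlF g Ω → ∀ t j, ∀ x ∈ Ω, AeAna (vl (U t) j) x

/-- The identity theorem. -/
def ClopS : Prop := ∀ (O : Set P) (f : P → ℝ), IsOpen O → IsPreconnected O →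
  (∀ x ∈ O, AeAna f x) → (∃ x ∈ O, ∃ ε : ℝ, 0 < ε ∧ Van (Metric.ball x ε) f) → Van O f

/-- Uniqueness for complete bounded solutions with the same pressure. -/
def UniqS : Prop := ∀ (ρ : P → ℝ) (x : P) (g : Fin 2 → P → ℝ) (R : ℝ) (a w : ℝ → E6),
  ContDiff ℝ ∞ ρ → IsPreconnected {x | ρ x < 0} → ρ x = 0 → 0 < curvature ρ x →
  (BdAna ρ x → (∃ δ : ℝ, 0 < δ ∧ CurlF g ({x | ρ x < 0} ∩ Metric.ball x δ)) →
    CurlF g {x | ρ x < 0}) →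
  Pv {x | ρ x < 0} g R a w → (∃ t, t ≤ 0 ∧ w t = 0) ∨ ∀ t, t < 0 → a t = 0

def OfCpt : Prop := CptS
def OfModel : Prop := LadS → CptS → ModelS
def OfTr1 : Prop := Tr1S
def OfTr2 : Prop := Tr2S
def OfCv : Prop := CvS
def OfRc1 : Prop := Mol1S → Mol2S → Rc1S
def OfRc2 : Prop := Rc1S → Rc2S
def OfUc : Prop := Rc2S → UcS
def OfUcP : Prop := GpS → FmS → UcS → UcPS
def OfRepA : Prop := Mol1S → Mol2S → MolHS → HbS → MixS → RepAS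
def OfRepB : Prop := RepBS
def OfRep : Prop := RepAS → RepBS → RepS
def OfCl0 : Prop := Cl0S
def OfZ1 : Prop := ThS → HkS → Z1S
def OfZ2 : Prop := ThS → ZtS → RepS → Z2S
def OfClass : Prop := Cl0S → ClassS
def OfTail : Prop := TailS
def OfAnaZ : Prop := AnaZS
def OfTriA : Prop := DpS → TriAS
def OfTriB : Prop := ThS → Z1S → Z2S → ClassS → TailS → AnaZS → TriBS
def OfJetEq : Prop := JetEqS
def OfBoot0 : Prop := HbS → PrdS → MixS → H2S → JetEqS → Boot0S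
def OfBoot : Prop := HbS → PrdS → PrkS → BootSS → JetEqS → Boot0S → BootS
def OfAnaC : Prop := RepS → Cl0S → BootS → AnaCS
def OfAnaP : Prop := ThS → TransS → AnaCS → AnaPS
def OfClop : Prop := ClopS
def OfUniq : Prop := ChartS → UcPS → TriAS → TriBS → AnaPS → ClopS → UniqS

end Pool.Agent.MP_ed9623_an.H77
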