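import Pool.Agent.MP_ed9623_an.H77.Base

/-! Calculus of weak derivatives. -/

open MeasureTheory Filter Topology Set
open scoped ContDiff

namespace Pool.Agent.MP_ed9623_an.H77

open H64

variable {O O' N N' : Set P} {e e' : P} {f g f' g' m φ χ : P → ℝ} {γ : ℝ → ℝ} {d : Fin 2 → P → ℝ}

theorem Van.mono (h : Van N f) (hN : N' ⊆ N) : Van N' f :=
  Filter.Eventually.mono h fun _ hp hx => hp (hN hx)

theorem Van.congr (h : Van N f) (hf : f =ᵐ[volume] g) : Van N g := by
  filter_upwards [h, hf] with p a b hp using b ▸ a hp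

theorem Van.add (h : Van N f) (h' : Van N g) : Van N fun p => f p + g p := by
  filter_upwards [h, h'] with p a b hp
  rw [a hp, b hp, add_zero]

theorem Van.sub (h : Van N f) (h' : Van N g) : Van N fun p => f p - g p := by
  filter_upwards [h, h'] with p a b hp
  rw [a hp, b hp, sub_zero]

theorem Van.neg (h : Van N f) : Van N fun p => -f p := by
  filter_upwards [h] with p a hp
  rw [a hp, neg_zero]

theorem Van.smul (h : Van N f) (m : P → ℝ) : Van N fun p => m p * f p := by
  filter_upwards [h] with p a hp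
  rw [a hp, mul_zero]

theorem Van.union (h : Van N f) (h' : Van N' f) : Van (N ∪ N') f := by
  filter_upwards [h, h'] with p a b hp using hp.elim a b

theorem Van.of_null (h : volume N = 0) (f : P → ℝ) : Van N f :=
  (measure_eq_zero_iff_ae_notMem.1 h).mono fun _ hp hx => absurd hx hp

theorem Van.ind (O : Set P) (f : P → ℝ) : Van Oᶜ (O.indicator f) :=
  Eventually.of_forall fun _ hp => indicator_of_notMem hp f

theorem null_line (σ : ℝ) : volume {p : P | p.2 = σ} = 0 := by
  have : {p : P | p.2 = σ} = univ ×ˢ {σ} := by ext p; simp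
  rw [this, Measure.volume_eq_prod, Measure.prod_prod]
  simp

/-- Integrals against test functions only see the values on `O`. -/
theorem int_test_congr (hφ : ∀ x, x ∉ O → φ x = 0) (h : ∀ᵐ p, p ∈ O → f p = g p) :
    ∫ x, f x * φ x = ∫ x, g x * φ x := by
  refine integral_congr_ae (h.mono fun x hx => ?_)
  by_cases hO : x ∈ O
  · simp only [hx hO]
  · simp only [hφ x hO, mul_zero]

theorem van_of_int (hO : IsOpen O) (hf : LocallyIntegrable f volume)
    (h : ∀ φ, Test O φ → ∫ x, f x * φ x = 0) : Van O f :=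
  hO.ae_eq_zero_of_integral_contDiff_smul_eq_zero (hf.locallyIntegrableOn O) fun φ a b c => by
    simpa only [smul_eq_mul, mul_comm] using h φ ⟨a, b, c⟩

theorem ae_eq_of_int (hO : IsOpen O) (hf : M2 f) (hg : M2 g)
    (h : ∀ φ, Test O φ → ∫ x, f x * φ x = ∫ x, g x * φ x) : ∀ᵐ p, p ∈ O → f p = g p := by
  have := van_of_int hO (hf.sub hg).loc fun φ hφ => by
    simp only [sub_mul]
    rw [integral_sub (hf.int_mul hφ.m2) (hg.int_mul hφ.m2), h φ hφ, sub_self]
  exact Filter.Eventually.mono this fun p a hp => sub_eq_zero.1 (a hp)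

theorem WD.mono (h : WD O e f g) (hO : O' ⊆ O) : WD O' e f g := fun φ hφ => h φ (hφ.mono hO)

theorem WD.congr (h : WD O e f g) (hf : ∀ᵐ p, p ∈ O → f p = f' p)
    (hg : ∀ᵐ p, p ∈ O → g p = g' p) : WD O e f' g' := fun φ hφ => by
  rw [← int_test_congr (fun _ => (hφ.pd e).off) hf, ← int_test_congr (fun _ => hφ.off) hg, h φ hφ]

theorem WD.uniq (hO : IsOpen O) (h : WD O e f g) (h' : WD O e f g') (hg : M2 g) (hg' : M2 g') :
    ∀ᵐ p, p ∈ O → g p = g' p :=
  ae_eq_of_int hO hg hg' fun φ hφ => neg_injective ((h φ hφ).symm.trans (h' φ hφ))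

theorem WD.van (hO : IsOpen O) (h : WD O e f g) (hg : M2 g) (hf : Van O f) : Van O g :=
  van_of_int hO hg.loc fun φ hφ => by
    rw [← neg_eq_zero, ← h φ hφ, int_test_congr (g := fun _ => 0) (fun _ => (hφ.pd e).off) hf]
    simp

theorem WD.add (h : WD O e f g) (h' : WD O e f' g') (hf : M2 f) (hg : M2 g) (hf' : M2 f')
    (hg' : M2 g') : WD O e (fun p => f p + f' p) fun p => g p + g' p := fun φ hφ => by
  simp only [add_mul]
  rw [integral_add (hf.int_mul (hφ.pd e).m2) (hf'.int_mul (hφ.pd e).m2),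
    integral_add (hg.int_mul hφ.m2) (hg'.int_mul hφ.m2), h φ hφ, h' φ hφ, neg_add]

theorem WD.cmul (h : WD O e f g) (c : ℝ) : WD O e (fun p => c * f p) fun p => c * g p :=
  fun φ hφ => by
    simp only [mul_assoc]
    rw [integral_const_mul, integral_const_mul, h φ hφ, mul_neg]

theorem WD.neg (h : WD O e f g) : WD O e (fun p => -f p) fun p => -g p := by
  simpa using h.cmul (-1)

theorem WD.sub (h : WD O e f g) (h' : WD O e f' g') (hf : M2 f) (hg : M2 g) (hf' : M2 f')
    (hg' : M2 g') : WD O e (fun p => f p - f' p) fun p => g p - g' p := by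
  simpa only [sub_eq_add_neg] using h.add h'.neg hf hg hf'.neg hg'.neg

/-- Product with a smooth function. -/
theorem WD.smul (h : WD O e f g) (hf : M2 f) (hg : M2 g) (hm : ContDiff ℝ ∞ m) :
    WD O e (fun p => m p * f p) fun p => m p * g p + pd e m p * f p := fun φ hφ => by
  have h1 := h _ (hφ.smul hm)
  have i1 := hf.int_mul ((hφ.pd e).smul hm).m2
  have i2 := hf.int_mul (hφ.smul (sm_pd hm e)).m2
  have i3 := hg.int_mul (hφ.smul hm).m2
  have e1 : (fun x => f x * pd e (fun x => m x * φ x) x) =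
      fun x => f x * (pd e m x * φ x) + f x * (m x * pd e φ x) := funext fun x => by
    rw [pd_mul e (sm_diff hm x) (sm_diff hφ.1 x)]; ring
  rw [e1, integral_add i2 i1] at h1
  have e2 : (fun x => (m x * g x + pd e m x * f x) * φ x) =
      fun x => g x * (m x * φ x) + f x * (pd e m x * φ x) := funext fun x => by ring
  have e3 : (fun x => m x * f x * pd e φ x) = fun x => f x * (m x * pd e φ x) :=
    funext fun x => by ring
  rw [e2, e3, integral_add i3 i2]
  linarith

/-- Cutting off makes a local weak derivative global. -/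
theorem WD.cut (h : WD O e f g) (hf : M2 f) (hg : M2 g) (hχ : Test O χ) :
    WD univ e (fun p => χ p * f p) fun p => χ p * g p + pd e χ p * f p := fun φ hφ => by
  have h1 := h _ (hχ.muls hφ.1)
  have i1 := hf.int_mul ((hφ.pd e).smul hχ.1).m2
  have i2 := hf.int_mul (hφ.smul (sm_pd hχ.1 e)).m2
  have i3 := hg.int_mul (hφ.smul hχ.1).m2
  have e1 : (fun x => f x * pd e (fun x => χ x * φ x) x) =
      fun x => f x * (pd e χ x * φ x) + f x * (χ x * pd e φ x) := funext fun x => by
    rw [pd_mul e (sm_diff hχ.1 x) (sm_diff hφ.1 x)]; ring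
  rw [e1, integral_add i2 i1] at h1
  have e2 : (fun x => (χ x * g x + pd e χ x * f x) * φ x) =
      fun x => g x * (χ x * φ x) + f x * (pd e χ x * φ x) := funext fun x => by ring
  have e3 : (fun x => χ x * f x * pd e φ x) = fun x => f x * (χ x * pd e φ x) :=
    funext fun x => by ring
  rw [e2, e3, integral_add i3 i2]
  linarith

theorem M2.tmul (hf : M2 f) (hχ : Test O χ) : M2 fun p => χ p * f p := by
  obtain ⟨C, -, hC⟩ := hχ.bd
  exact hf.bmul hχ.ct.aestronglyMeasurable (Eventually.of_forall hC)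

theorem pd_comm_sm (hφ : ContDiff ℝ ∞ φ) (e e' : P) : pd e (pd e' φ) = pd e' (pd e φ) :=
  funext fun _ => pd_comm e e' (contDiff_infty.1 hφ 2).contDiffAt

/-- Weak derivatives commute. -/
theorem WD.comm {fe fe' k : P → ℝ} (h : WD O e f fe) (h' : WD O e' f fe') (hk : WD O e fe' k) :
    WD O e' fe k := fun φ hφ => by
  have a := h _ (hφ.pd e')
  have b := h' _ (hφ.pd e)
  rw [pd_comm_sm hφ.1] at a
  rw [← hk φ hφ]
  linarith

/-- A smooth function has its derivative as weak derivative. -/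
theorem WD.of_cd (hf : ContDiff ℝ (1 : ℕ) f) (O : Set P) (e : P) : WD O e f (pd e f) :=
  fun φ hφ => by
    have h1 := contDiff_infty.1 hφ.1 1
    have h0 := integral_pd_eq_zero volume e (hf.mul h1) hφ.2.1.mul_left
    have c := (contDiff_pd (n := 0) e hf).continuous
    have i1 : Integrable fun x => pd e f x * φ x :=
      (c.mul hφ.ct).integrable_of_hasCompactSupport hφ.2.1.mul_left
    have i2 : Integrable fun x => f x * pd e φ x :=
      (hf.continuous.mul (hφ.pd e).ct).integrable_of_hasCompactSupport (hφ.pd e).2.1.mul_left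
    simp only [pd_mul e (cdg_diff hf le_rfl _) (cdg_diff h1 le_rfl _)] at h0
    rw [integral_add i1 i2] at h0
    linarith

theorem H1O.wd1 (h : H1O O γ f d) : WD O (ee 1) f (d 1) := h.w 1

theorem H1O.wd0 (h : H1O O γ f d) (hγ : Gam γ) :
    WD O (ee 0) f fun p => d 0 p + deriv γ p.1 * d 1 p := fun φ hφ => by
  have a := h.w 0 φ hφ
  have b := (h.wd1.smul h.m (h.md 1) hγ.deriv.smP) φ hφ
  simp only [hγ.deriv.pd1, zero_mul, add_zero] at b
  simp only [dd0, mul_sub, add_mul] at a ⊢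
  have e : (fun x => f x * (deriv γ x.1 * pd (ee 1) φ x)) =
      fun x => deriv γ x.1 * f x * pd (ee 1) φ x := funext fun x => by ring
  rw [integral_sub (h.m.int_mul (hφ.pd _).m2) (h.m.int_mul ((hφ.pd _).smul hγ.deriv.smP).m2), e,
    b] at a
  rw [integral_add ((h.md 0).int_mul hφ.m2) (((h.md 1).gmul hγ.deriv).int_mul hφ.m2)]
  linarith

/-- `H¹` from the two plain weak derivatives. -/
theorem H1O.of_wd {fY fS : P → ℝ} (hγ : Gam γ) (hf : M2 f) (hY : M2 fY) (hS : M2 fS)
    (h0 : WD O (ee 0) f fY) (h1 : WD O (ee 1) f fS) :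
    H1O O γ f ![fun p => fY p - deriv γ p.1 * fS p, fS] := by
  refine ⟨hf, fun i => ?_, fun i φ hφ => ?_⟩
  · fin_cases i
    · exact hY.sub (hS.gmul hγ.deriv)
    · exact hS
  · fin_cases i
    · have b := (h1.smul hf hS hγ.deriv.smP) φ hφ
      simp only [hγ.deriv.pd1, zero_mul, add_zero] at b
      have e : (fun x => f x * (deriv γ x.1 * pd (ee 1) φ x)) =
          fun x => deriv γ x.1 * f x * pd (ee 1) φ x := funext fun x => by ring
      change ∫ x, f x * (pd (ee 0) φ x - deriv γ x.1 * pd (ee 1) φ x) =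
        -∫ x, (fY x - deriv γ x.1 * fS x) * φ x
      simp only [mul_sub, sub_mul]
      rw [integral_sub (hf.int_mul (hφ.pd _).m2) (hf.int_mul ((hφ.pd _).smul hγ.deriv.smP).m2), e,
        b, h0 φ hφ, integral_sub (hY.int_mul hφ.m2) ((hS.gmul hγ.deriv).int_mul hφ.m2)]
      ring
    · exact h1 φ hφ

theorem H1O.zero_iff : H1O O (fun _ => 0) f d ↔ M2 f ∧ ∀ i, M2 (d i) ∧ WD O (ee i) f (d i) :=
  ⟨fun h => ⟨h.m, fun i => ⟨h.md i, fun φ hφ => by rw [← dd_zero]; exact h.w i φ hφ⟩⟩,
    fun h => ⟨h.1, fun i => (h.2 i).1, fun i φ hφ => by rw [dd_zero]; exact (h.2 i).2 φ hφ⟩⟩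

theorem H1O.mono (h : H1O O γ f d) (hO : O' ⊆ O) : H1O O' γ f d :=
  ⟨h.m, h.md, fun i φ hφ => h.w i φ (hφ.mono hO)⟩

theorem H1O.congr {d' : Fin 2 → P → ℝ} (h : H1O O γ f d) (hf : f =ᵐ[volume] f')
    (hd : ∀ i, d i =ᵐ[volume] d' i) : H1O O γ f' d' :=
  ⟨h.m.congr hf, fun i => (h.md i).congr (hd i), fun i φ hφ => by
    rw [← integral_congr_ae (f := fun x => f x * dd γ i φ x) (g := fun x => f' x * dd γ i φ x)
        (hf.mono fun x hx => by simp only [hx]),
      ← integral_congr_ae (f := fun x => d i x * φ x) (g := fun x => d' i x * φ x)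
        ((hd i).mono fun x hx => by simp only [hx])]
    exact h.w i φ hφ⟩

theorem H1O.add {d' : Fin 2 → P → ℝ} (h : H1O O γ f d) (h' : H1O O γ f' d') (hγ : Gam γ) :
    H1O O γ (fun p => f p + f' p) fun i p => d i p + d' i p :=
  ⟨h.m.add h'.m, fun i => (h.md i).add (h'.md i), fun i φ hφ => by
    simp only [add_mul]
    rw [integral_add (h.m.int_mul (hφ.dd hγ i).m2) (h'.m.int_mul (hφ.dd hγ i).m2),
      integral_add ((h.md i).int_mul hφ.m2) ((h'.md i).int_mul hφ.m2), h.w i φ hφ, h'.w i φ hφ,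
      neg_add]⟩

theorem H1O.cmul (h : H1O O γ f d) (c : ℝ) : H1O O γ (fun p => c * f p) fun i p => c * d i p :=
  ⟨h.m.cmul c, fun i => (h.md i).cmul c, fun i φ hφ => by
    simp only [mul_assoc]
    rw [integral_const_mul, integral_const_mul, h.w i φ hφ, mul_neg]⟩

theorem H1O.neg (h : H1O O γ f d) : H1O O γ (fun p => -f p) fun i p => -d i p := by
  simpa using h.cmul (-1)

theorem H1O.sub {d' : Fin 2 → P → ℝ} (h : H1O O γ f d) (h' : H1O O γ f' d') (hγ : Gam γ) :
    H1O O γ (fun p => f p - f' p) fun i p => d i p - d' i p := by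
  simpa only [sub_eq_add_neg] using h.add h'.neg hγ

/-- Cutting off makes a local `H¹` function global. -/
theorem H1O.cut (h : H1O O γ f d) (hγ : Gam γ) (hχ : Test O χ) :
    H1 γ (fun p => χ p * f p) fun i p => χ p * d i p + dd γ i χ p * f p := by
  have m0 := (h.md 0).add ((h.md 1).gmul hγ.deriv)
  refine (H1O.of_wd hγ (h.m.tmul hχ) ((m0.tmul hχ).add (h.m.tmul (hχ.pd _)))
    (((h.md 1).tmul hχ).add (h.m.tmul (hχ.pd _))) ((h.wd0 hγ).cut h.m m0 hχ)
    (h.wd1.cut h.m (h.md 1) hχ)).congr EventuallyEq.rfl fun i => Eventually.of_forall fun p => ?_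
  fin_cases i
  · simp [dd0]; ring
  · simp [dd1]

theorem H1O.van (hO : IsOpen N) (hN : N ⊆ O) (h : H1O O γ f d) (hγ : Gam γ) (hf : Van N f)
    (i : Fin 2) : Van N (d i) :=
  van_of_int hO (h.md i).loc fun φ hφ => by
    rw [← neg_eq_zero, ← h.w i φ (hφ.mono hN),
      int_test_congr (g := fun _ => 0) (fun _ => (hφ.dd hγ i).off) hf]
    simp

/-! ### Translations -/

theorem mp_sh (h : ℝ) : MeasurePreserving (fun p : P => ((p.1 + h, p.2) : P)) volume volume := by
  have : (fun p : P => ((p.1 + h, p.2) : P)) = fun p => p + (h, 0) := by funext p; ext <;> simp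
  rw [this]
  exact measurePreserving_add_right volume _

theorem int_sh (h : ℝ) (f : P → ℝ) : ∫ p : P, f (p.1 + h, p.2) = ∫ p, f p := by
  have : (fun p : P => f (p.1 + h, p.2)) = fun p => f (p + (h, 0)) := by
    funext p; congr 1; ext <;> simp
  rw [this, integral_add_right_eq_self]

theorem M2.sh (hf : M2 f) (h : ℝ) : M2 (sh h f) := hf.comp_measurePreserving (mp_sh h)

theorem M2.dl (hf : M2 f) (h : ℝ) : M2 (dl h f) := (hf.sh h).sub hf

theorem nm_sh (h : ℝ) (f : P → ℝ) : nm (sh h f) = nm f :=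
  congrArg Real.sqrt (int_sh h fun p => f p ^ 2)

theorem nm_dl_le (hf : M2 f) (h : ℝ) : nm (dl h f) ≤ 2 * nm f := by
  have := nm_sub_le (hf.sh h) hf
  rw [nm_sh] at this
  exact this.trans_eq (two_mul _).symm

theorem int_mul_sh (h : ℝ) (f g : P → ℝ) : ∫ p, f p * sh (-h) g p = ∫ p, sh h f p * g p := by
  rw [← int_sh h]
  simp [sh]

theorem int_mul_dl (hf : M2 f) (hg : M2 g) (h : ℝ) :
    ∫ p, f p * dl (-h) g p = ∫ p, dl h f p * g p := by
  have := int_mul_sh h f g
  simp only [dl, mul_sub, sub_mul]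
  exact (integral_sub (hf.int_mul (hg.sh (-h))) (hf.int_mul hg)).trans
    ((congrArg (· - _) this).trans (integral_sub ((hf.sh h).int_mul hg) (hf.int_mul hg)).symm)

theorem ae_sh {p : P → Prop} (hp : ∀ᵐ x, p x) (h : ℝ) : ∀ᵐ x : P, p (x.1 + h, x.2) :=
  (mp_sh h).quasiMeasurePreserving.ae hp

theorem Test.sh (hφ : Test univ φ) (h : ℝ) : Test univ (sh h φ) :=
  ⟨hφ.1.comp (by fun_prop), by
    have : H77.sh h φ = φ ∘ Homeomorph.addRight ((h, 0) : P) := by
      funext p; simp only [H77.sh, Function.comp]; congr 1; ext <;> simp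
    rw [this]
    exact hφ.2.1.comp_homeomorph _, subset_univ _⟩

theorem pd_sh (hφ : ContDiff ℝ ∞ φ) (e : P) (h : ℝ) : pd e (sh h φ) = sh h (pd e φ) := by
  funext p
  refine HD.pd_eq ?_ (sm_diff (hφ.comp (by fun_prop)) p)
  have := HD.of_diff (e := e) (sm_diff hφ (p.1 + h, p.2))
  unfold HD at this ⊢
  have e : (fun s : ℝ => sh h φ (p + s • e)) = fun s => φ ((p.1 + h, p.2) + s • e) := by
    funext s
    simp only [sh]
    congr 1
    ext <;> simp
    ring
  rw [e]
  exact this

theorem WD.sh (hw : WD univ e f g) (h : ℝ) : WD univ e (sh h f) (sh h g) := fun φ hφ => by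
  rw [← int_mul_sh, ← int_mul_sh, ← pd_sh hφ.1, hw _ (hφ.sh _)]

theorem WD.dl (hw : WD univ e f g) (hf : M2 f) (hg : M2 g) (h : ℝ) :
    WD univ e (dl h f) (dl h g) := (hw.sh h).sub hw (hf.sh h) (hg.sh h) hf hg

/-! ### Dual bounds -/

variable {k k' : ℕ} {R R' : ℝ}

theorem HB.mono (h : HB O k f R) (hO : O' ⊆ O) (hk : k' ≤ k) (hR : R ≤ R') : HB O' k' f R' :=
  fun l hl φ hφ => (h l (hl.trans hk) φ (hφ.mono hO)).trans
    (mul_le_mul_of_nonneg_right hR (nm_nonneg _))

theorem HB.congr (h : HB O k f R) (hf : ∀ᵐ p, p ∈ O → f p = g p) : HB O k g R :=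
  fun l hl φ hφ => by
    rw [← int_test_congr (fun _ => (hφ.DL l).off) hf]; exact h l hl φ hφ

theorem HB.zero (hf : M2 f) (h : nm f ≤ R) : HB O 0 f R := fun l hl φ hφ => by
  obtain rfl := List.length_eq_zero_iff.1 (Nat.le_zero.1 hl)
  exact (abs_int_le hf hφ.m2).trans (mul_le_mul_of_nonneg_right h (nm_nonneg _))

theorem HB.add (h : HB O k f R) (h' : HB O k g R') (hf : M2 f) (hg : M2 g) :
    HB O k (fun p => f p + g p) (R + R') := fun l hl φ hφ => by
  simp only [add_mul]
  rw [integral_add (hf.int_mul (hφ.DL l).m2) (hg.int_mul (hφ.DL l).m2)]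
  exact (abs_add_le _ _).trans (add_le_add (h l hl φ hφ) (h' l hl φ hφ))

theorem HB.cmul (h : HB O k f R) (c : ℝ) : HB O k (fun p => c * f p) (|c| * R) :=
  fun l hl φ hφ => by
    simp only [mul_assoc]
    rw [integral_const_mul, abs_mul]
    exact mul_le_mul_of_nonneg_left (h l hl φ hφ) (abs_nonneg c)

theorem HB.neg (h : HB O k f R) : HB O k (fun p => -f p) R := by simpa using h.cmul (-1)

theorem HB.sub (h : HB O k f R) (h' : HB O k g R') (hf : M2 f) (hg : M2 g) :
    HB O k (fun p => f p - g p) (R + R') := by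
  simpa only [sub_eq_add_neg] using h.add h'.neg hf hg.neg

theorem HB.succ {g : Fin 2 → P → ℝ} (h0 : HB O 0 f R) (hw : ∀ i, WD O (ee i) f (g i))
    (hg : ∀ i, HB O k (g i) R) : HB O (k + 1) f R := fun l hl φ hφ => by
  cases l with
  | nil => exact h0 [] le_rfl φ hφ
  | cons i l =>
    rw [DL_cons, hw i _ (hφ.DL l), abs_neg]
    exact hg i l (Nat.succ_le_succ_iff.1 hl) φ hφ

theorem HB.der {i : Fin 2} (h : HB O (k + 1) f R) (hw : WD O (ee i) f g) : HB O k g R :=
  fun l hl φ hφ => by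
    rw [← abs_neg, ← hw _ (hφ.DL l)]
    exact h (i :: l) (Nat.succ_le_succ hl) φ hφ

end Pool.Agent.MP_ed9623_an.H77
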